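import Pool.Agent.H89M6.Stm

set_option autoImplicit false

/-!
Coding of vectors by numbers below 128, by means of seven functionals.
-/

namespace Pool.Agent.H89M6

open Pool.Agent.W622.ETG Pool.Agent.H89M5

section
variable {V : Type} [AddCommGroup V] [Module (ZMod 2) V]

/-- the number with bits `φ i z` -/
def enc (φ : Fin 7 → Dl V) (z : V) : ℕ := Nat.ofBits fun i => decide (φ i z = 1)

variable (φ : Fin 7 → Dl V)

theorem enc_lt (z : V) : enc φ z < 128 := Nat.ofBits_lt_two_pow _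

theorem enc_bit (z : V) (i : Fin 7) : (enc φ z).testBit i = decide (φ i z = 1) :=
  Nat.testBit_ofBits_lt _ _ i.2

theorem enc_bit_ge (z : V) {i : ℕ} (h : 7 ≤ i) : (enc φ z).testBit i = false :=
  Nat.testBit_ofBits_ge _ _ h

theorem enc_zero : enc φ 0 = 0 := by
  apply Nat.eq_of_testBit_eq
  intro i
  by_cases h : i < 7
  · rw [enc_bit φ 0 ⟨i, h⟩]; simp
  · rw [enc_bit_ge φ 0 (by omega)]; simp

theorem enc_add (z z' : V) : enc φ (z + z') = enc φ z ^^^ enc φ z' := by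
  apply Nat.eq_of_testBit_eq
  intro i
  rw [Nat.testBit_xor]
  by_cases h : i < 7
  · rw [enc_bit φ _ ⟨i, h⟩, enc_bit φ _ ⟨i, h⟩, enc_bit φ _ ⟨i, h⟩, map_add]
    generalize φ ⟨i, h⟩ z = u
    generalize φ ⟨i, h⟩ z' = v
    revert u v
    decide
  · rw [enc_bit_ge φ _ (by omega), enc_bit_ge φ _ (by omega), enc_bit_ge φ _ (by omega)]
    rfl

/-- the code -/
def Cd (c : ℕ) : Prop := ∃ z, c = enc φ z

theorem cd_zero : Cd φ 0 := ⟨0, (enc_zero φ).symm⟩

theorem cd_xor (a b : ℕ) (ha : Cd φ a) (hb : Cd φ b) : Cd φ (a ^^^ b) := by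
  obtain ⟨z, rfl⟩ := ha
  obtain ⟨z', rfl⟩ := hb
  exact ⟨z + z', (enc_add φ z z').symm⟩

theorem cd_lt (a : ℕ) (ha : Cd φ a) : a < 128 := by
  obtain ⟨z, rfl⟩ := ha
  exact enc_lt φ z

end

end Pool.Agent.H89M6
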