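import Pool.Agent.H89M6.CAk
import Pool.Agent.H89M6.Enc

set_option autoImplicit false

/-!
Project M6, stub CA (helper97).
-/

namespace Pool.Agent.H89M6.CA

open Pool.Agent.W622.ETG Pool.Agent.H89M5 Pool.Agent.H89M6 Pool.Agent.H89M6.CAk

/-- the code of the value of `c` at `(e, p, r)` -/
def vl (c e p r : ℕ) : ℕ :=
  Nat.mod (e * (c % 2) + r * (c / 2 % 2)) 2 + 2 * Nat.mod (e * (c % 2) + p * (c / 4 % 2)) 2 +
  4 * Nat.mod (e * (c % 2) + (p + r) * (c / 8 % 2)) 2 + 8 * Nat.mod (r * (c % 2)) 2 +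
  16 * Nat.mod (p * (c % 2)) 2 +
  32 * Nat.mod (e * (c / 16 % 2) + p * (c / 32 % 2) + r * (c / 64 % 2)) 2

theorem msk_eq : ∀ c < 128, msk c =
    2 ^ vl c 0 0 0 ||| (2 ^ vl c 0 0 1 ||| (2 ^ vl c 0 1 0 ||| (2 ^ vl c 0 1 1 |||
    (2 ^ vl c 1 0 0 ||| (2 ^ vl c 1 0 1 ||| (2 ^ vl c 1 1 0 ||| 2 ^ vl c 1 1 1)))))) := by
  decide +kernel

theorem msk_bit (c : ℕ) (hc : c < 128) (v : ℕ) (h : (msk c).testBit v = true) :
    ∃ e p r : ZMod 2, vl c e.val p.val r.val = v := by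
  rw [msk_eq c hc] at h
  simp only [Nat.testBit_or, Nat.testBit_two_pow, Bool.or_eq_true, decide_eq_true_eq] at h
  rcases h with h | h | h | h | h | h | h | h
  · exact ⟨0, 0, 0, h⟩
  · exact ⟨0, 0, 1, h⟩
  · exact ⟨0, 1, 0, h⟩
  · exact ⟨0, 1, 1, h⟩
  · exact ⟨1, 0, 0, h⟩
  · exact ⟨1, 0, 1, h⟩
  · exact ⟨1, 1, 0, h⟩
  · exact ⟨1, 1, 1, h⟩

/-- the masks of the test -/
def RR : List ℕ := [1, 2, 3, 4, 5, 8, 9, 6, 7, 10, 11, 16, 17, 32, 33, 36, 37, 64, 65, 66, 67, 40, 41,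
  44, 45, 72, 73, 74, 75]

/-- the scalar product -/
def sp (r c : ℕ) : ℕ := r % 2 * (c % 2) + r / 2 % 2 * (c / 2 % 2) + r / 4 % 2 * (c / 4 % 2) +
  r / 8 % 2 * (c / 8 % 2) + r / 16 % 2 * (c / 16 % 2) + r / 32 % 2 * (c / 32 % 2) +
  r / 64 % 2 * (c / 64 % 2)

theorem par : ∀ c < 128, ∀ r ∈ RR, Nat.land (Nat.shiftRight ptb (Nat.land c r)) 1 = sp r c % 2 := by
  decide +kernel

section
variable {V : Type} [AddCommGroup V] [Module (ZMod 2) V] (φ : Fin 7 → Dl V)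

theorem enc_val (z : V) (i : Fin 7) : enc φ z / 2 ^ (i : ℕ) % 2 = (φ i z).val := by
  have h1 := enc_bit φ z i
  rw [Nat.testBit_eq_decide_div_mod_eq] at h1
  have h2 : enc φ z / 2 ^ (i : ℕ) % 2 < 2 := Nat.mod_lt _ (by norm_num)
  have h3 : (enc φ z / 2 ^ (i : ℕ) % 2 = 1) ↔ φ i z = 1 := by
    by_cases h : φ i z = 1
    · rw [decide_eq_true h, decide_eq_true_eq] at h1
      exact ⟨fun _ => h, fun _ => h1⟩
    · rw [decide_eq_false h, decide_eq_false_iff_not] at h1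
      exact ⟨fun h' => absurd h' h1, fun h' => absurd h' h⟩
  generalize enc φ z / 2 ^ (i : ℕ) % 2 = n at h2 h3
  generalize φ i z = u at h3
  interval_cases n
  · revert h3
    revert u
    decide
  · revert h3
    revert u
    decide

theorem en0 (z : V) : enc φ z % 2 = (φ 0 z).val := by simpa using enc_val φ z 0
theorem en1 (z : V) : enc φ z / 2 % 2 = (φ 1 z).val := by simpa using enc_val φ z 1
theorem en2 (z : V) : enc φ z / 4 % 2 = (φ 2 z).val := by simpa using enc_val φ z 2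
theorem en3 (z : V) : enc φ z / 8 % 2 = (φ 3 z).val := by simpa using enc_val φ z 3
theorem en4 (z : V) : enc φ z / 16 % 2 = (φ 4 z).val := by simpa using enc_val φ z 4
theorem en5 (z : V) : enc φ z / 32 % 2 = (φ 5 z).val := by simpa using enc_val φ z 5
theorem en6 (z : V) : enc φ z / 64 % 2 = (φ 6 z).val := by simpa using enc_val φ z 6

theorem zs {S : List ℕ} (hS : ∀ c, c ∈ S ↔ Cd φ c) (r : ℕ) (hr : r ∈ RR) (h : zt S r = true) (z : V) :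
    ((r % 2 : ℕ) : ZMod 2) * φ 0 z + ((r / 2 % 2 : ℕ) : ZMod 2) * φ 1 z +
    ((r / 4 % 2 : ℕ) : ZMod 2) * φ 2 z + ((r / 8 % 2 : ℕ) : ZMod 2) * φ 3 z +
    ((r / 16 % 2 : ℕ) : ZMod 2) * φ 4 z + ((r / 32 % 2 : ℕ) : ZMod 2) * φ 5 z +
    ((r / 64 % 2 : ℕ) : ZMod 2) * φ 6 z = 0 := by
  unfold zt at h
  rw [List.all_eq_true] at h
  have h1 := h (enc φ z) ((hS _).2 ⟨z, rfl⟩)
  have h2 := Nat.eq_of_beq_eq_true h1
  rw [par _ (enc_lt φ z) r hr] at h2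
  have h3 : ((sp r (enc φ z) : ℕ) : ZMod 2) = 0 := by
    rw [ZMod.natCast_eq_zero_iff]
    exact Nat.dvd_of_mod_eq_zero h2
  unfold sp at h3
  have e0 : enc φ z % 2 = (φ 0 z).val := en0 φ z
  have e1 : enc φ z / 2 % 2 = (φ 1 z).val := en1 φ z
  have e2 : enc φ z / 4 % 2 = (φ 2 z).val := en2 φ z
  have e3 : enc φ z / 8 % 2 = (φ 3 z).val := en3 φ z
  have e4 : enc φ z / 16 % 2 = (φ 4 z).val := en4 φ z
  have e5 : enc φ z / 32 % 2 = (φ 5 z).val := en5 φ z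
  have e6 : enc φ z / 64 % 2 = (φ 6 z).val := en6 φ z
  rw [e0, e1, e2, e3, e4, e5, e6] at h3
  simpa only [Nat.cast_add, Nat.cast_mul, ZMod.natCast_zmod_val] using h3

end

/-- the code of a value -/
def Ph (q : ZMod 2 × ZMod 2 × ZMod 2 × ZMod 2 × ZMod 2 × ZMod 2) : ℕ :=
  q.1.val + 2 * q.2.1.val + 4 * q.2.2.1.val + 8 * q.2.2.2.1.val + 16 * q.2.2.2.2.1.val +
    32 * q.2.2.2.2.2.val

theorem v1 : ∀ a b c d : ZMod 2, (a * b + c * d).val = Nat.mod (a.val * b.val + c.val * d.val) 2 := by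
  decide

theorem v2 : ∀ a b c d e : ZMod 2, (a * b + (c + d) * e).val =
    Nat.mod (a.val * b.val + (c.val + d.val) * e.val) 2 := by
  decide

theorem v3 : ∀ a b : ZMod 2, (a * b).val = Nat.mod (a.val * b.val) 2 := by
  decide

theorem v4 : ∀ a b c d e f : ZMod 2, (a * b + c * d + e * f).val =
    Nat.mod (a.val * b.val + c.val * d.val + e.val * f.val) 2 := by
  decide

theorem q16 : ∀ a b c d e f g : ZMod 2, ((16 % 2 : ℕ) : ZMod 2) * a + ((16 / 2 % 2 : ℕ) : ZMod 2) * b + ((16 / 4 % 2 : ℕ) : ZMod 2) * c + ((16 / 8 % 2 : ℕ) : ZMod 2) * d + ((16 / 16 % 2 : ℕ) : ZMod 2) * e + ((16 / 32 % 2 : ℕ) : ZMod 2) * f + ((16 / 64 % 2 : ℕ) : ZMod 2) * g = 0 → e = 0 * a := by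
  decide +kernel

theorem q17 : ∀ a b c d e f g : ZMod 2, ((17 % 2 : ℕ) : ZMod 2) * a + ((17 / 2 % 2 : ℕ) : ZMod 2) * b + ((17 / 4 % 2 : ℕ) : ZMod 2) * c + ((17 / 8 % 2 : ℕ) : ZMod 2) * d + ((17 / 16 % 2 : ℕ) : ZMod 2) * e + ((17 / 32 % 2 : ℕ) : ZMod 2) * f + ((17 / 64 % 2 : ℕ) : ZMod 2) * g = 0 → e = 1 * a := by
  decide +kernel

theorem q32 : ∀ a b c d e f g : ZMod 2, ((32 % 2 : ℕ) : ZMod 2) * a + ((32 / 2 % 2 : ℕ) : ZMod 2) * b + ((32 / 4 % 2 : ℕ) : ZMod 2) * c + ((32 / 8 % 2 : ℕ) : ZMod 2) * d + ((32 / 16 % 2 : ℕ) : ZMod 2) * e + ((32 / 32 % 2 : ℕ) : ZMod 2) * f + ((32 / 64 % 2 : ℕ) : ZMod 2) * g = 0 → f = (0 : ZMod 2) * a + (0 : ZMod 2) * c + (0 : ZMod 2) * d := by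
  decide +kernel

theorem q33 : ∀ a b c d e f g : ZMod 2, ((33 % 2 : ℕ) : ZMod 2) * a + ((33 / 2 % 2 : ℕ) : ZMod 2) * b + ((33 / 4 % 2 : ℕ) : ZMod 2) * c + ((33 / 8 % 2 : ℕ) : ZMod 2) * d + ((33 / 16 % 2 : ℕ) : ZMod 2) * e + ((33 / 32 % 2 : ℕ) : ZMod 2) * f + ((33 / 64 % 2 : ℕ) : ZMod 2) * g = 0 → f = (1 : ZMod 2) * a + (0 : ZMod 2) * c + (0 : ZMod 2) * d := by
  decide +kernel

theorem q36 : ∀ a b c d e f g : ZMod 2, ((36 % 2 : ℕ) : ZMod 2) * a + ((36 / 2 % 2 : ℕ) : ZMod 2) * b + ((36 / 4 % 2 : ℕ) : ZMod 2) * c + ((36 / 8 % 2 : ℕ) : ZMod 2) * d + ((36 / 16 % 2 : ℕ) : ZMod 2) * e + ((36 / 32 % 2 : ℕ) : ZMod 2) * f + ((36 / 64 % 2 : ℕ) : ZMod 2) * g = 0 → f = (0 : ZMod 2) * a + (1 : ZMod 2) * c + (0 : ZMod 2) * d := by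
  decide +kernel

theorem q37 : ∀ a b c d e f g : ZMod 2, ((37 % 2 : ℕ) : ZMod 2) * a + ((37 / 2 % 2 : ℕ) : ZMod 2) * b + ((37 / 4 % 2 : ℕ) : ZMod 2) * c + ((37 / 8 % 2 : ℕ) : ZMod 2) * d + ((37 / 16 % 2 : ℕ) : ZMod 2) * e + ((37 / 32 % 2 : ℕ) : ZMod 2) * f + ((37 / 64 % 2 : ℕ) : ZMod 2) * g = 0 → f = (1 : ZMod 2) * a + (1 : ZMod 2) * c + (0 : ZMod 2) * d := by
  decide +kernel

theorem q40 : ∀ a b c d e f g : ZMod 2, ((40 % 2 : ℕ) : ZMod 2) * a + ((40 / 2 % 2 : ℕ) : ZMod 2) * b + ((40 / 4 % 2 : ℕ) : ZMod 2) * c + ((40 / 8 % 2 : ℕ) : ZMod 2) * d + ((40 / 16 % 2 : ℕ) : ZMod 2) * e + ((40 / 32 % 2 : ℕ) : ZMod 2) * f + ((40 / 64 % 2 : ℕ) : ZMod 2) * g = 0 → f = (0 : ZMod 2) * a + (0 : ZMod 2) * c + (1 : ZMod 2) * d := by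
  decide +kernel

theorem q41 : ∀ a b c d e f g : ZMod 2, ((41 % 2 : ℕ) : ZMod 2) * a + ((41 / 2 % 2 : ℕ) : ZMod 2) * b + ((41 / 4 % 2 : ℕ) : ZMod 2) * c + ((41 / 8 % 2 : ℕ) : ZMod 2) * d + ((41 / 16 % 2 : ℕ) : ZMod 2) * e + ((41 / 32 % 2 : ℕ) : ZMod 2) * f + ((41 / 64 % 2 : ℕ) : ZMod 2) * g = 0 → f = (1 : ZMod 2) * a + (0 : ZMod 2) * c + (1 : ZMod 2) * d := by
  decide +kernel

theorem q44 : ∀ a b c d e f g : ZMod 2, ((44 % 2 : ℕ) : ZMod 2) * a + ((44 / 2 % 2 : ℕ) : ZMod 2) * b + ((44 / 4 % 2 : ℕ) : ZMod 2) * c + ((44 / 8 % 2 : ℕ) : ZMod 2) * d + ((44 / 16 % 2 : ℕ) : ZMod 2) * e + ((44 / 32 % 2 : ℕ) : ZMod 2) * f + ((44 / 64 % 2 : ℕ) : ZMod 2) * g = 0 → f = (0 : ZMod 2) * a + (1 : ZMod 2) * c + (1 : ZMod 2) * d := by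
  decide +kernel

theorem q45 : ∀ a b c d e f g : ZMod 2, ((45 % 2 : ℕ) : ZMod 2) * a + ((45 / 2 % 2 : ℕ) : ZMod 2) * b + ((45 / 4 % 2 : ℕ) : ZMod 2) * c + ((45 / 8 % 2 : ℕ) : ZMod 2) * d + ((45 / 16 % 2 : ℕ) : ZMod 2) * e + ((45 / 32 % 2 : ℕ) : ZMod 2) * f + ((45 / 64 % 2 : ℕ) : ZMod 2) * g = 0 → f = (1 : ZMod 2) * a + (1 : ZMod 2) * c + (1 : ZMod 2) * d := by
  decide +kernel

theorem q64 : ∀ a b c d e f g : ZMod 2, ((64 % 2 : ℕ) : ZMod 2) * a + ((64 / 2 % 2 : ℕ) : ZMod 2) * b + ((64 / 4 % 2 : ℕ) : ZMod 2) * c + ((64 / 8 % 2 : ℕ) : ZMod 2) * d + ((64 / 16 % 2 : ℕ) : ZMod 2) * e + ((64 / 32 % 2 : ℕ) : ZMod 2) * f + ((64 / 64 % 2 : ℕ) : ZMod 2) * g = 0 → g = (0 : ZMod 2) * a + (0 : ZMod 2) * b + (0 : ZMod 2) * d := by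
  decide +kernel

theorem q65 : ∀ a b c d e f g : ZMod 2, ((65 % 2 : ℕ) : ZMod 2) * a + ((65 / 2 % 2 : ℕ) : ZMod 2) * b + ((65 / 4 % 2 : ℕ) : ZMod 2) * c + ((65 / 8 % 2 : ℕ) : ZMod 2) * d + ((65 / 16 % 2 : ℕ) : ZMod 2) * e + ((65 / 32 % 2 : ℕ) : ZMod 2) * f + ((65 / 64 % 2 : ℕ) : ZMod 2) * g = 0 → g = (1 : ZMod 2) * a + (0 : ZMod 2) * b + (0 : ZMod 2) * d := by
  decide +kernel

theorem q66 : ∀ a b c d e f g : ZMod 2, ((66 % 2 : ℕ) : ZMod 2) * a + ((66 / 2 % 2 : ℕ) : ZMod 2) * b + ((66 / 4 % 2 : ℕ) : ZMod 2) * c + ((66 / 8 % 2 : ℕ) : ZMod 2) * d + ((66 / 16 % 2 : ℕ) : ZMod 2) * e + ((66 / 32 % 2 : ℕ) : ZMod 2) * f + ((66 / 64 % 2 : ℕ) : ZMod 2) * g = 0 → g = (0 : ZMod 2) * a + (1 : ZMod 2) * b + (0 : ZMod 2) * d := by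
  decide +kernel

theorem q67 : ∀ a b c d e f g : ZMod 2, ((67 % 2 : ℕ) : ZMod 2) * a + ((67 / 2 % 2 : ℕ) : ZMod 2) * b + ((67 / 4 % 2 : ℕ) : ZMod 2) * c + ((67 / 8 % 2 : ℕ) : ZMod 2) * d + ((67 / 16 % 2 : ℕ) : ZMod 2) * e + ((67 / 32 % 2 : ℕ) : ZMod 2) * f + ((67 / 64 % 2 : ℕ) : ZMod 2) * g = 0 → g = (1 : ZMod 2) * a + (1 : ZMod 2) * b + (0 : ZMod 2) * d := by
  decide +kernel

theorem q72 : ∀ a b c d e f g : ZMod 2, ((72 % 2 : ℕ) : ZMod 2) * a + ((72 / 2 % 2 : ℕ) : ZMod 2) * b + ((72 / 4 % 2 : ℕ) : ZMod 2) * c + ((72 / 8 % 2 : ℕ) : ZMod 2) * d + ((72 / 16 % 2 : ℕ) : ZMod 2) * e + ((72 / 32 % 2 : ℕ) : ZMod 2) * f + ((72 / 64 % 2 : ℕ) : ZMod 2) * g = 0 → g = (0 : ZMod 2) * a + (0 : ZMod 2) * b + (1 : ZMod 2) * d := by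
  decide +kernel

theorem q73 : ∀ a b c d e f g : ZMod 2, ((73 % 2 : ℕ) : ZMod 2) * a + ((73 / 2 % 2 : ℕ) : ZMod 2) * b + ((73 / 4 % 2 : ℕ) : ZMod 2) * c + ((73 / 8 % 2 : ℕ) : ZMod 2) * d + ((73 / 16 % 2 : ℕ) : ZMod 2) * e + ((73 / 32 % 2 : ℕ) : ZMod 2) * f + ((73 / 64 % 2 : ℕ) : ZMod 2) * g = 0 → g = (1 : ZMod 2) * a + (0 : ZMod 2) * b + (1 : ZMod 2) * d := by
  decide +kernel

theorem q74 : ∀ a b c d e f g : ZMod 2, ((74 % 2 : ℕ) : ZMod 2) * a + ((74 / 2 % 2 : ℕ) : ZMod 2) * b + ((74 / 4 % 2 : ℕ) : ZMod 2) * c + ((74 / 8 % 2 : ℕ) : ZMod 2) * d + ((74 / 16 % 2 : ℕ) : ZMod 2) * e + ((74 / 32 % 2 : ℕ) : ZMod 2) * f + ((74 / 64 % 2 : ℕ) : ZMod 2) * g = 0 → g = (0 : ZMod 2) * a + (1 : ZMod 2) * b + (1 : ZMod 2) * d := by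
  decide +kernel

theorem q75 : ∀ a b c d e f g : ZMod 2, ((75 % 2 : ℕ) : ZMod 2) * a + ((75 / 2 % 2 : ℕ) : ZMod 2) * b + ((75 / 4 % 2 : ℕ) : ZMod 2) * c + ((75 / 8 % 2 : ℕ) : ZMod 2) * d + ((75 / 16 % 2 : ℕ) : ZMod 2) * e + ((75 / 32 % 2 : ℕ) : ZMod 2) * f + ((75 / 64 % 2 : ℕ) : ZMod 2) * g = 0 → g = (1 : ZMod 2) * a + (1 : ZMod 2) * b + (1 : ZMod 2) * d := by
  decide +kernel

theorem t : S_CA := by
  intro hE V _ _ _ h x0 x1 x2 wa w0 w1 hc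
  set φ : Fin 7 → Dl V := ![h, x0, x1, x2, wa, w0, w1] with hφ
  obtain ⟨S, hS, hl⟩ := hE msk leaf search (Cd φ) (cd_zero φ) (cd_xor φ) (cd_lt φ) _ _ Ph
    (Set.toFinite _) hc (by
      rintro c ⟨z, rfl⟩ v hv
      obtain ⟨e, p, r, hv⟩ := msk_bit _ (enc_lt φ z) v hv
      refine ⟨_, ⟨e, p, r, z, rfl⟩, ?_⟩
      rw [← hv]
      unfold vl
      have e0 : enc φ z % 2 = (h z).val := en0 φ z
      have e1 : enc φ z / 2 % 2 = (x0 z).val := en1 φ z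
      have e2 : enc φ z / 4 % 2 = (x1 z).val := en2 φ z
      have e3 : enc φ z / 8 % 2 = (x2 z).val := en3 φ z
      have e4 : enc φ z / 16 % 2 = (wa z).val := en4 φ z
      have e5 : enc φ z / 32 % 2 = (w0 z).val := en5 φ z
      have e6 : enc φ z / 64 % 2 = (w1 z).val := en6 φ z
      rw [e0, e1, e2, e3, e4, e5, e6]
      show (e * h z + r * x0 z).val + 2 * (e * h z + p * x1 z).val + 4 * (e * h z + (p + r) * x2 z).val +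
        8 * (r * h z).val + 16 * (p * h z).val + 32 * (e * wa z + p * w0 z + r * w1 z).val = _
      rw [v1, v1, v2, v3, v3, v4])
  have k (r : ℕ) (hr : r ∈ RR) (hz : zt S r = true) (z : V) :
      ((r % 2 : ℕ) : ZMod 2) * h z + ((r / 2 % 2 : ℕ) : ZMod 2) * x0 z +
      ((r / 4 % 2 : ℕ) : ZMod 2) * x1 z + ((r / 8 % 2 : ℕ) : ZMod 2) * x2 z +
      ((r / 16 % 2 : ℕ) : ZMod 2) * wa z + ((r / 32 % 2 : ℕ) : ZMod 2) * w0 z +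
      ((r / 64 % 2 : ℕ) : ZMod 2) * w1 z = 0 := zs φ hS r hr hz z
  unfold leaf at hl
  simp only [Bool.or_eq_true, Bool.and_eq_true] at hl
  have A1 : zt S 1 = true → h = 0 := fun hz => LinearMap.ext fun z => by
    have := k 1 (by decide) hz z
    simpa using this
  have A2 : zt S 2 = true ∨ zt S 3 = true → ∃ s : ZMod 2, x0 + s • h = 0 := by
    rintro (hz | hz)
    · exact ⟨0, LinearMap.ext fun z => by have := k 2 (by decide) hz z; simpa using this⟩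
    · exact ⟨1, LinearMap.ext fun z => by have := k 3 (by decide) hz z; simpa [add_comm] using this⟩
  have A3 : zt S 4 = true ∨ zt S 5 = true → ∃ s : ZMod 2, x1 + s • h = 0 := by
    rintro (hz | hz)
    · exact ⟨0, LinearMap.ext fun z => by have := k 4 (by decide) hz z; simpa using this⟩
    · exact ⟨1, LinearMap.ext fun z => by have := k 5 (by decide) hz z; simpa [add_comm] using this⟩
  have A4 : zt S 8 = true ∨ zt S 9 = true → ∃ s : ZMod 2, x2 + s • h = 0 := by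
    rintro (hz | hz)
    · exact ⟨0, LinearMap.ext fun z => by have := k 8 (by decide) hz z; simpa using this⟩
    · exact ⟨1, LinearMap.ext fun z => by have := k 9 (by decide) hz z; simpa [add_comm] using this⟩
  have A5 : zt S 6 = true ∨ zt S 7 = true → ∃ s : ZMod 2, x0 + x1 + s • h = 0 := by
    rintro (hz | hz)
    · exact ⟨0, LinearMap.ext fun z => by have := k 6 (by decide) hz z; simpa using this⟩
    · exact ⟨1, LinearMap.ext fun z => by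
        have := k 7 (by decide) hz z
        simpa [add_comm, add_left_comm] using this⟩
  have A6 : zt S 10 = true ∨ zt S 11 = true → ∃ s : ZMod 2, x0 + x2 + s • h = 0 := by
    rintro (hz | hz)
    · exact ⟨0, LinearMap.ext fun z => by have := k 10 (by decide) hz z; simpa using this⟩
    · exact ⟨1, LinearMap.ext fun z => by
        have := k 11 (by decide) hz z
        simpa [add_comm, add_left_comm] using this⟩
  have kz (r : ℕ) (hr : r ∈ RR) (hz : zt S r = true) (z : V) :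
      ((r % 2 : ℕ) : ZMod 2) * h z + ((r / 2 % 2 : ℕ) : ZMod 2) * x0 z +
      ((r / 4 % 2 : ℕ) : ZMod 2) * x1 z + ((r / 8 % 2 : ℕ) : ZMod 2) * x2 z +
      ((r / 16 % 2 : ℕ) : ZMod 2) * wa z + ((r / 32 % 2 : ℕ) : ZMod 2) * w0 z +
      ((r / 64 % 2 : ℕ) : ZMod 2) * w1 z = 0 := zs φ hS r hr hz z
  have A7 : zt S 16 = true ∨ zt S 17 = true → ∃ α : ZMod 2, wa = α • h := by
    rintro (hz | hz)
    · exact ⟨0, LinearMap.ext fun z => by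
        have := kz 16 (by decide) hz z
        exact q16 _ _ _ _ _ _ _ this⟩
    · exact ⟨1, LinearMap.ext fun z => by
        have := kz 17 (by decide) hz z
        exact q17 _ _ _ _ _ _ _ this⟩
  have B0 : ((zt S 32 = true ∨ zt S 33 = true) ∨ zt S 36 = true) ∨ zt S 37 = true →
      ∃ β c1 : ZMod 2, w0 = β • h + c1 • x1 + (0 : ZMod 2) • x2 := by
    rintro (((hz | hz) | hz) | hz)
    · exact ⟨0, 0, LinearMap.ext fun z => q32 _ _ _ _ _ _ _ (kz 32 (by decide) hz z)⟩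
    · exact ⟨1, 0, LinearMap.ext fun z => q33 _ _ _ _ _ _ _ (kz 33 (by decide) hz z)⟩
    · exact ⟨0, 1, LinearMap.ext fun z => q36 _ _ _ _ _ _ _ (kz 36 (by decide) hz z)⟩
    · exact ⟨1, 1, LinearMap.ext fun z => q37 _ _ _ _ _ _ _ (kz 37 (by decide) hz z)⟩
  have B1 : ((zt S 40 = true ∨ zt S 41 = true) ∨ zt S 44 = true) ∨ zt S 45 = true →
      ∃ β c1 : ZMod 2, w0 = β • h + c1 • x1 + (1 : ZMod 2) • x2 := by
    rintro (((hz | hz) | hz) | hz)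
    · exact ⟨0, 0, LinearMap.ext fun z => q40 _ _ _ _ _ _ _ (kz 40 (by decide) hz z)⟩
    · exact ⟨1, 0, LinearMap.ext fun z => q41 _ _ _ _ _ _ _ (kz 41 (by decide) hz z)⟩
    · exact ⟨0, 1, LinearMap.ext fun z => q44 _ _ _ _ _ _ _ (kz 44 (by decide) hz z)⟩
    · exact ⟨1, 1, LinearMap.ext fun z => q45 _ _ _ _ _ _ _ (kz 45 (by decide) hz z)⟩
  have C0 : ((zt S 64 = true ∨ zt S 65 = true) ∨ zt S 66 = true) ∨ zt S 67 = true →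
      ∃ δ c0 : ZMod 2, w1 = δ • h + c0 • x0 + (0 : ZMod 2) • x2 := by
    rintro (((hz | hz) | hz) | hz)
    · exact ⟨0, 0, LinearMap.ext fun z => q64 _ _ _ _ _ _ _ (kz 64 (by decide) hz z)⟩
    · exact ⟨1, 0, LinearMap.ext fun z => q65 _ _ _ _ _ _ _ (kz 65 (by decide) hz z)⟩
    · exact ⟨0, 1, LinearMap.ext fun z => q66 _ _ _ _ _ _ _ (kz 66 (by decide) hz z)⟩
    · exact ⟨1, 1, LinearMap.ext fun z => q67 _ _ _ _ _ _ _ (kz 67 (by decide) hz z)⟩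
  have C1 : ((zt S 72 = true ∨ zt S 73 = true) ∨ zt S 74 = true) ∨ zt S 75 = true →
      ∃ δ c0 : ZMod 2, w1 = δ • h + c0 • x0 + (1 : ZMod 2) • x2 := by
    rintro (((hz | hz) | hz) | hz)
    · exact ⟨0, 0, LinearMap.ext fun z => q72 _ _ _ _ _ _ _ (kz 72 (by decide) hz z)⟩
    · exact ⟨1, 0, LinearMap.ext fun z => q73 _ _ _ _ _ _ _ (kz 73 (by decide) hz z)⟩
    · exact ⟨0, 1, LinearMap.ext fun z => q74 _ _ _ _ _ _ _ (kz 74 (by decide) hz z)⟩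
    · exact ⟨1, 1, LinearMap.ext fun z => q75 _ _ _ _ _ _ _ (kz 75 (by decide) hz z)⟩
  rcases hl with (((((((((h1 | h2) | h3) | h4) | h5) | h8) | h9) | ⟨h6, h10⟩)) | ⟨h16, hw⟩)
  · exact Or.inl (A1 h1)
  · obtain ⟨s, hs⟩ := A2 (Or.inl h2)
    exact Or.inr (Or.inl ⟨s, Or.inl hs⟩)
  · obtain ⟨s, hs⟩ := A2 (Or.inr h3)
    exact Or.inr (Or.inl ⟨s, Or.inl hs⟩)
  · obtain ⟨s, hs⟩ := A3 (Or.inl h4)
    exact Or.inr (Or.inl ⟨s, Or.inr (Or.inl hs)⟩)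
  · obtain ⟨s, hs⟩ := A3 (Or.inr h5)
    exact Or.inr (Or.inl ⟨s, Or.inr (Or.inl hs)⟩)
  · obtain ⟨s, hs⟩ := A4 (Or.inl h8)
    exact Or.inr (Or.inl ⟨s, Or.inr (Or.inr hs)⟩)
  · obtain ⟨s, hs⟩ := A4 (Or.inr h9)
    exact Or.inr (Or.inl ⟨s, Or.inr (Or.inr hs)⟩)
  · obtain ⟨s, hs⟩ := A5 h6
    obtain ⟨u, hu⟩ := A6 h10
    exact Or.inr (Or.inr (Or.inl ⟨s, u, hs, hu⟩))
  · obtain ⟨α, hα⟩ := A7 h16
    rcases hw with ⟨hb, hc'⟩ | ⟨hb, hc'⟩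
    · obtain ⟨β, c1, e1⟩ := B0 hb
      obtain ⟨δ, c0, e2⟩ := C0 hc'
      exact Or.inr (Or.inr (Or.inr ⟨α, β, δ, c0, c1, 0, hα, e1, e2⟩))
    · obtain ⟨β, c1, e1⟩ := B1 hb
      obtain ⟨δ, c0, e2⟩ := C1 hc'
      exact Or.inr (Or.inr (Or.inr ⟨α, β, δ, c0, c1, 1, hα, e1, e2⟩))

end Pool.Agent.H89M6.CA
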