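import Pool.Agent.H89M6.Split

set_option autoImplicit false
set_option maxRecDepth 100000

/-!
Project M6, stub CA: definitions for the search (helper97).
-/

namespace Pool.Agent.H89M6.CAk

open Pool.Agent.H89M6

/-- the table of the masks -/
def tbl : ℕ := 6923905515414117748577471722842931772571118274835487183301778371317496542589864153738269027239816847033057248208834466105758379608808032749106703151634215326097201995300192687860366566406799178149466652503600539359172466743704126083368512003053196328251712040080042189289359926368223542316775937042595369573158215659356929214264518221398356523997104404665124658516392578915442214368007834811940549781169641489028859589601113323478664639203675054117623828631842245886684107171028620084354470420039922633769078909961986501151769016072219796498087181079453998907729860211875232996162466995483493767255291945096828458867008573458916048385507929012672125609406724596220706129247171658496198353069428551797951424783473032239065188058975548470690674221283467624003150752746205649216696660813727252778864976209832518167109543585901924149171695562947052896576187676162162828354855100691048689150602037136657789674597947370691013010015312700799444726239909023776882380338878420182830415048929327820663742018899581743174225663956329851376567485052329546027920068975959647585172561693336627154210928738761626046603674910381769208150296318581596616936874182547401621757959348761662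2181666906745553590248114147651360345087103555546130953124265188791432257168880425474569394364907425785900173585542389231819071020656330376979332515598084818463378707147518662644259290368448089816844461624299563684037268342507302314042485885272344992043095458843551478320824090571087685155151699706309314772278708754749279218534010361162367006930213584004150155220036493099949523285213064311066821129881238048870588997999077169582516599220896642977863785563903450292380702329263452620356889481042754445948683483219215470195405044225853154154052960190076619509738221038570201700800744684250038221319249777897454447419618653542812731612758662033171878724514349553677727771341001822245442677919932476778060305517108408407532836595173611245702001019011279209872151124484974997050765507151136094334658448068906334489489094822377291051302371364130809108051100316453135722297828781967772918279587700353131600487517894375415317035928952251131062809953840828063398575593298776391606039230225681880844336751484870349405808804892595217128897370205133380837515490142240924452558878119950183465040650749357896524707466406682304294367505995505302787805219782474118184688729681985708749043427858484976019198267057636586591443003933099898266212875624741345494879627246718958156367216466872915547159580780781371393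

/-- the table of the parities -/
def ptb : ℕ := 199931532107794273605284333428918544790

/-- the mask of the values of `c` -/
def msk (c : ℕ) : ℕ := Nat.land (Nat.shiftRight tbl (Nat.mul 64 c)) 18446744073709551615

/-- the functional with the mask `r` vanishes on `S` -/
def zt (S : List ℕ) (r : ℕ) : Bool :=
  S.all fun c => Nat.beq (Nat.land (Nat.shiftRight ptb (Nat.land c r)) 1) 0

/-- the test at the leaves -/
def leaf (S : List ℕ) : Bool :=
  zt S 1 || zt S 2 || zt S 3 || zt S 4 || zt S 5 || zt S 8 || zt S 9 ||
  ((zt S 6 || zt S 7) && (zt S 10 || zt S 11)) ||
  ((zt S 16 || zt S 17) &&
    (((zt S 32 || zt S 33 || zt S 36 || zt S 37) && (zt S 64 || zt S 65 || zt S 66 || zt S 67)) ||
     ((zt S 40 || zt S 41 || zt S 44 || zt S 45) && (zt S 72 || zt S 73 || zt S 74 || zt S 75))))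

/-- the ends of the parts -/
def bp : ℕ → ℕ
  | 0 => 0
  | 1 => 5
  | 2 => 13
  | 3 => 27
  | 4 => 53
  | 5 => 80
  | 6 => 118
  | 7 => 170
  | 8 => 217
  | 9 => 301
  | _ => 374

end Pool.Agent.H89M6.CAk
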