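import Pool.Agent.H89M6.CAd

set_option autoImplicit false
set_option maxRecDepth 100000

namespace Pool.Agent.H89M6.CAk

open Pool.Agent.H89M6

theorem part5 : part5 msk leaf (bp 5) (bp 6) = true := by decide +kernel

end Pool.Agent.H89M6.CAk
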