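import Pool.Agent.H89M6.CAp0
import Pool.Agent.H89M6.CAp1
import Pool.Agent.H89M6.CAp2
import Pool.Agent.H89M6.CAp3
import Pool.Agent.H89M6.CAp4
import Pool.Agent.H89M6.CAp5
import Pool.Agent.H89M6.CAp6
import Pool.Agent.H89M6.CAp7
import Pool.Agent.H89M6.CAp8
import Pool.Agent.H89M6.CAp9

set_option autoImplicit false
set_option maxRecDepth 100000

/-!
Project M6, stub CA: the search (helper97).
-/

namespace Pool.Agent.H89M6.CAk

open Pool.Agent.H89M6

theorem len : Nat.ble (fr msk 5 7 [0] (msk 0)).length 374 = true := by decide +kernel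

theorem search : chk msk leaf 7 [0] (msk 0) = true := by
  have hl := len
  rw [Nat.ble_eq] at hl
  refine chk_parts5 msk leaf bp 10 rfl hl fun i hi => ?_
  interval_cases i
  · exact part0
  · exact part1
  · exact part2
  · exact part3
  · exact part4
  · exact part5
  · exact part6
  · exact part7
  · exact part8
  · exact part9

end Pool.Agent.H89M6.CAk
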