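import Pool.Agent.H89M6.Split

set_option autoImplicit false
set_option maxRecDepth 100000

/-!
The search for `DC`: definitions.
-/

namespace Pool.Agent.H89M6.DC

open Pool.Agent.H89M6

/-- parity of the number of bits of a number below 128 -/
def par (x : ℕ) : Bool := Nat.testBit 199931532107794273605284333428918544790 x

/-- the values of a word -/
def mk (c : ℕ) : ℕ :=
  Nat.lor (Nat.shiftLeft 1 (Nat.land c 85)) <| Nat.lor (Nat.shiftLeft 1 (Nat.land c 102)) <|
  Nat.lor (Nat.shiftLeft 1 (Nat.land c 51)) <| Nat.lor (Nat.shiftLeft 1 (Nat.land c 120)) <|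
  Nat.lor (Nat.shiftLeft 1 (Nat.land c 45)) <| Nat.lor (Nat.shiftLeft 1 (Nat.land c 30)) <|
  Nat.shiftLeft 1 (Nat.land c 75)

/-- a coordinate which vanishes -/
def lfa (S : List ℕ) : Bool := ! Nat.beq (S.foldl Nat.lor 0) 127

/-- a relation -/
def lfb (S : List ℕ) : Bool := (List.range 127).any fun r =>
  [85, 102, 51, 120, 45, 30, 75].all fun i => S.all fun c =>
    ! par (Nat.land (Nat.land c (Nat.add r 1)) i)

/-- the condition at the end -/
def lf (S : List ℕ) : Bool := lfa S || lfb S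

/-- the ends of the parts -/
def bp : ℕ → ℕ
  | 0 => 0
  | 1 => 1
  | 2 => 3
  | 3 => 5
  | 4 => 7
  | 5 => 9
  | 6 => 11
  | 7 => 13
  | 8 => 15
  | 9 => 17
  | 10 => 23
  | 11 => 29
  | 12 => 35
  | 13 => 41
  | 14 => 47
  | 15 => 53
  | 16 => 59
  | 17 => 65
  | 18 => 71
  | 19 => 77
  | 20 => 83
  | 21 => 89
  | 22 => 95
  | 23 => 111
  | 24 => 122
  | 25 => 136
  | 26 => 149
  | 27 => 159
  | 28 => 176
  | 29 => 182
  | 30 => 200
  | 31 => 209
  | 32 => 221
  | 33 => 246
  | 34 => 260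
  | 35 => 274
  | 36 => 304
  | 37 => 312
  | 38 => 326
  | 39 => 351
  | _ => 374

end Pool.Agent.H89M6.DC
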