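import Pool.Agent.H89M6.Split
import Pool.Agent.H89M6.DCd

set_option autoImplicit false
set_option maxRecDepth 100000

/-!
The search for `CA`: definitions.
-/

namespace Pool.Agent.H89M6.CX

open Pool.Agent.H89M6

/-- the values of a word -/
def mk (c : ℕ) : ℕ := Nat.mod (Nat.shiftRight 6923905515414117748577471722842931772571118274835487183301778371317496542589864153738269027239816847033057248208834466105758379608808032749106703151634215326097201995300192687860366566406799178149466652503600539359172466743704126083368512003053196328251712040080042189289359926368223542316775937042595369573158215659356929214264518221398356523997104404665124658516392578915442214368007834811940549781169641489028859589601113323478664639203675054117623828631842245886684107171028620084354470420039922633769078909961986501151769016072219796498087181079453998907729860211875232996162466995483493767255291945096828458867008573458916048385507929012672125609406724596220706129247171658496198353069428551797951424783473032239065188058975548470690674221283467624003150752746205649216696660813727252778864976209832518167109543585901924149171695562947052896576187676162162828354855100691048689150602037136657789674597947370691013010015312700799444726239909023776882380338878420182830415048929327820663742018899581743174225663956329851376567485052329546027920068975959647585172561693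3366271542109287387616260466036749103817692081502963185815966169368741825474016217579593487616622181666906745553590248114147651360345087103555546130953124265188791432257168880425474569394364907425785900173585542389231819071020656330376979332515598084818463378707147518662644259290368448089816844461624299563684037268342507302314042485885272344992043095458843551478320824090571087685155151699706309314772278708754749279218534010361162367006930213584004150155220036493099949523285213064311066821129881238048870588997999077169582516599220896642977863785563903450292380702329263452620356889481042754445948683483219215470195405044225853154154052960190076619509738221038570201700800744684250038221319249777897454447419618653542812731612758662033171878724514349553677727771341001822245442677919932476778060305517108408407532836595173611245702001019011279209872151124484974997050765507151136094334658448068906334489489094822377291051302371364130809108051100316453135722297828781967772918279587700353131600487517894375415317035928952251131062809953840828063398575593298776391606039230225681880844336751484870349405808804892595217128897370205133380837515490142240924452558878119950183465040650749357896524707466406682304294367505995505302787805219782474118184688729681985708749043427858484976019198267057636586591443003933099898266212875624741345494879627246718958156367216466872915547159580780781371393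 (Nat.mul 64 c)) 18446744073709551616

/-- the functional with mask `m` vanishes -/
def vz (m : ℕ) (S : List ℕ) : Bool := S.all fun c => ! DC.par (Nat.land c m)

/-- the last case -/
def lu (S : List ℕ) : Bool := (vz 16 S || vz 17 S) &&
  (((vz 32 S || vz 33 S || vz 36 S || vz 37 S) && (vz 64 S || vz 65 S || vz 66 S || vz 67 S)) ||
  ((vz 40 S || vz 41 S || vz 44 S || vz 45 S) && (vz 72 S || vz 73 S || vz 74 S || vz 75 S)))

/-- the condition at the end -/
def lf (S : List ℕ) : Bool := vz 1 S || vz 2 S || vz 3 S || vz 4 S || vz 5 S || vz 8 S || vz 9 S ||
  ((vz 6 S || vz 7 S) && (vz 10 S || vz 11 S)) || lu S

/-- the ends of the parts -/
def bp : ℕ → ℕ
  | 0 => 0
  | 1 => 1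
  | 2 => 3
  | 3 => 5
  | 4 => 7
  | 5 => 9
  | 6 => 11
  | 7 => 13
  | 8 => 15
  | 9 => 17
  | 10 => 23
  | 11 => 30
  | 12 => 38
  | 13 => 45
  | 14 => 53
  | 15 => 61
  | 16 => 69
  | 17 => 78
  | 18 => 86
  | 19 => 93
  | 20 => 108
  | 21 => 121
  | 22 => 145
  | 23 => 155
  | 24 => 176
  | 25 => 184
  | 26 => 206
  | 27 => 215
  | 28 => 240
  | 29 => 260
  | 30 => 285
  | 31 => 310
  | 32 => 334
  | _ => 374

end Pool.Agent.H89M6.CX
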