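import Pool.Agent.H89M6.CX

set_option autoImplicit false
set_option maxRecDepth 100000

namespace Pool.Agent.H89M6.CX

open Pool.Agent.H89M6

theorem part7 : part5 mk lf (bp 7) (bp 8) = true := by decide +kernel

theorem part8 : part5 mk lf (bp 8) (bp 9) = true := by decide +kernel

theorem part9 : part5 mk lf (bp 9) (bp 10) = true := by decide +kernel

end Pool.Agent.H89M6.CX
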