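import Pool.Agent.H89M6.CX

set_option autoImplicit false
set_option maxRecDepth 100000

namespace Pool.Agent.H89M6.CX

open Pool.Agent.H89M6

theorem part17 : part5 mk lf (bp 17) (bp 18) = true := by decide +kernel

theorem part18 : part5 mk lf (bp 18) (bp 19) = true := by decide +kernel

theorem part19 : part5 mk lf (bp 19) (bp 20) = true := by decide +kernel

end Pool.Agent.H89M6.CX
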