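import Pool.Agent.H89M6.CX

set_option autoImplicit false
set_option maxRecDepth 100000

namespace Pool.Agent.H89M6.CX

open Pool.Agent.H89M6

theorem part30 : part5 mk lf (bp 30) (bp 31) = true := by decide +kernel

theorem part31 : part5 mk lf (bp 31) (bp 32) = true := by decide +kernel

theorem part32 : part5 mk lf (bp 32) (bp 33) = true := by decide +kernel

end Pool.Agent.H89M6.CX
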