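import Pool.Agent.H89M6.CXp0
import Pool.Agent.H89M6.CXp1
import Pool.Agent.H89M6.CXp2
import Pool.Agent.H89M6.CXp3
import Pool.Agent.H89M6.CXp4
import Pool.Agent.H89M6.CXp5
import Pool.Agent.H89M6.CXp6
import Pool.Agent.H89M6.CXp7
import Pool.Agent.H89M6.CXp8
import Pool.Agent.H89M6.CXp9

set_option autoImplicit false
set_option maxRecDepth 100000

/-!
The search for `CA`.
-/

namespace Pool.Agent.H89M6.CX

open Pool.Agent.H89M6

theorem len : Nat.ble (fr mk 5 7 [0] (mk 0)).length 374 = true := by decide +kernel

theorem search : chk mk lf 7 [0] (mk 0) = true := by
  have hl := len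
  rw [Nat.ble_eq] at hl
  refine chk_parts5 mk lf bp 33 rfl hl fun i hi => ?_
  interval_cases i
  · exact part0
  · exact part1
  · exact part2
  · exact part3
  · exact part4
  · exact part5'
  · exact part6
  · exact part7
  · exact part8
  · exact part9
  · exact part10
  · exact part11
  · exact part12
  · exact part13
  · exact part14
  · exact part15
  · exact part16
  · exact part17
  · exact part18
  · exact part19
  · exact part20
  · exact part21
  · exact part22
  · exact part23
  · exact part24
  · exact part25
  · exact part26
  · exact part27
  · exact part28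
  · exact part29
  · exact part30
  · exact part31
  · exact part32

end Pool.Agent.H89M6.CX
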