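import Pool.Agent.H89M6.DC
import Pool.Agent.H89M6.CXk

set_option autoImplicit false

/-! At most 34 values of seven functionals. -/

namespace Pool.Agent.H89M6.CX

open Module Pool.Agent.W622.ETG Pool.Agent.H89M5 Pool.Agent.H89M6

/-- the number of a value -/
def vn (c : ℕ) (a b d : Bool) : ℕ := Nat.ofBits ![(a && c.testBit 0) ^^ (d && c.testBit 1),
  (a && c.testBit 0) ^^ (b && c.testBit 2), (a && c.testBit 0) ^^ ((b ^^ d) && c.testBit 3),
  d && c.testBit 0, b && c.testBit 0,
  ((a && c.testBit 4) ^^ (b && c.testBit 5)) ^^ (d && c.testBit 6)]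

theorem mk_eq : ∀ c < 128, mk c = (1 <<< vn c false false false) ||| ((1 <<< vn c false false true) |||
    ((1 <<< vn c false true false) ||| ((1 <<< vn c false true true) |||
    ((1 <<< vn c true false false) ||| ((1 <<< vn c true false true) |||
    ((1 <<< vn c true true false) ||| (1 <<< vn c true true true))))))) := by
  decide +kernel

theorem mk_bit {c v : ℕ} (hc : c < 128) (h : (mk c).testBit v = true) :
    ∃ a b d : Bool, vn c a b d = v := by
  have h1 : ∀ n, (1 <<< n).testBit v = decide (n = v) := by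
    intro n
    rw [Nat.one_shiftLeft, Nat.testBit_two_pow]
  rw [mk_eq c hc] at h
  simp only [Nat.testBit_or, h1, Bool.or_eq_true, decide_eq_true_eq] at h
  rcases h with h | h | h | h | h | h | h | h
  · exact ⟨_, _, _, h⟩
  · exact ⟨_, _, _, h⟩
  · exact ⟨_, _, _, h⟩
  · exact ⟨_, _, _, h⟩
  · exact ⟨_, _, _, h⟩
  · exact ⟨_, _, _, h⟩
  · exact ⟨_, _, _, h⟩
  · exact ⟨_, _, _, h⟩

/-- an element of `F_2` -/
def tz (b : Bool) : ZMod 2 := if b = true then 1 else 0

/-- the number of a 6-tuple -/
def Ph (p : ZMod 2 × ZMod 2 × ZMod 2 × ZMod 2 × ZMod 2 × ZMod 2) : ℕ :=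
  Nat.ofBits ![decide (p.1 = 1), decide (p.2.1 = 1), decide (p.2.2.1 = 1), decide (p.2.2.2.1 = 1),
    decide (p.2.2.2.2.1 = 1), decide (p.2.2.2.2.2 = 1)]

section
variable {V : Type} [AddCommGroup V] [Module (ZMod 2) V]

theorem ph_eq (φ : Fin 7 → Dl V) (z : V) (a b d : Bool) :
    Ph (tz a * φ 0 z + tz d * φ 1 z, tz a * φ 0 z + tz b * φ 2 z,
      tz a * φ 0 z + (tz b + tz d) * φ 3 z, tz d * φ 0 z, tz b * φ 0 z,
      tz a * φ 4 z + tz b * φ 5 z + tz d * φ 6 z) = vn (enc φ z) a b d := by
  have e0' : (enc φ z).testBit 0 = decide (φ 0 z = 1) := enc_bit φ z 0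
  have e1' : (enc φ z).testBit 1 = decide (φ 1 z = 1) := enc_bit φ z 1
  have e2' : (enc φ z).testBit 2 = decide (φ 2 z = 1) := enc_bit φ z 2
  have e3' : (enc φ z).testBit 3 = decide (φ 3 z = 1) := enc_bit φ z 3
  have e4' : (enc φ z).testBit 4 = decide (φ 4 z = 1) := enc_bit φ z 4
  have e5' : (enc φ z).testBit 5 = decide (φ 5 z = 1) := enc_bit φ z 5
  have e6' : (enc φ z).testBit 6 = decide (φ 6 z = 1) := enc_bit φ z 6
  have k0 : ∀ (a d : Bool) (u0 u1 : ZMod 2), decide (tz a * u0 + tz d * u1 = 1) =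
      ((a && decide (u0 = 1)) ^^ (d && decide (u1 = 1))) := by decide
  have k1 : ∀ (a b : Bool) (u0 u2 : ZMod 2), decide (tz a * u0 + tz b * u2 = 1) =
      ((a && decide (u0 = 1)) ^^ (b && decide (u2 = 1))) := by decide
  have k2 : ∀ (a b d : Bool) (u0 u3 : ZMod 2), decide (tz a * u0 + (tz b + tz d) * u3 = 1) =
      ((a && decide (u0 = 1)) ^^ ((b ^^ d) && decide (u3 = 1))) := by decide
  have k3 : ∀ (d : Bool) (u0 : ZMod 2), decide (tz d * u0 = 1) = (d && decide (u0 = 1)) := by
    decide
  have k5 : ∀ (a b d : Bool) (u4 u5 u6 : ZMod 2), decide (tz a * u4 + tz b * u5 + tz d * u6 = 1) =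
      (((a && decide (u4 = 1)) ^^ (b && decide (u5 = 1))) ^^ (d && decide (u6 = 1))) := by
    decide +kernel
  unfold Ph vn
  congr 1
  funext i
  fin_cases i
  · show decide (tz a * φ 0 z + tz d * φ 1 z = 1) =
      ((a && (enc φ z).testBit 0) ^^ (d && (enc φ z).testBit 1))
    rw [e0', e1']
    exact k0 a d _ _
  · show decide (tz a * φ 0 z + tz b * φ 2 z = 1) =
      ((a && (enc φ z).testBit 0) ^^ (b && (enc φ z).testBit 2))
    rw [e0', e2']
    exact k1 a b _ _
  · show decide (tz a * φ 0 z + (tz b + tz d) * φ 3 z = 1) =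
      ((a && (enc φ z).testBit 0) ^^ ((b ^^ d) && (enc φ z).testBit 3))
    rw [e0', e3']
    exact k2 a b d _ _
  · show decide (tz d * φ 0 z = 1) = (d && (enc φ z).testBit 0)
    rw [e0']
    exact k3 d _
  · show decide (tz b * φ 0 z = 1) = (b && (enc φ z).testBit 0)
    rw [e0']
    exact k3 b _
  · show decide (tz a * φ 4 z + tz b * φ 5 z + tz d * φ 6 z = 1) =
      (((a && (enc φ z).testBit 4) ^^ (b && (enc φ z).testBit 5)) ^^ (d && (enc φ z).testBit 6))
    rw [e4', e5', e6']
    exact k5 a b d _ _ _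

theorem vz_spec (φ : Fin 7 → Dl V) {S : List ℕ} (hS : ∀ c, c ∈ S ↔ Cd φ c) (m : ℕ)
    (h : vz m S = true) :
    ∑ i : Fin 7, (if m.testBit i = true then (1 : ZMod 2) else 0) • φ i = 0 := by
  ext z
  rw [LinearMap.sum_apply, LinearMap.zero_apply]
  rw [vz, List.all_eq_true] at h
  have h3 := h _ ((hS _).2 ⟨z, rfl⟩)
  have h4 : DC.par (enc φ z &&& m) = false := by simpa using h3
  rw [DC.par_eq _ (lt_of_le_of_lt Nat.and_le_left (enc_lt _ _)), decide_eq_false_iff_not] at h4
  have h5 : ∀ u : ZMod 2, u ≠ 1 → u = 0 := by decide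
  refine Eq.trans ?_ (h5 _ h4)
  refine Finset.sum_congr rfl fun i _ => ?_
  rw [Nat.testBit_and, enc_bit, LinearMap.smul_apply, smul_eq_mul]
  generalize m.testBit i = b
  generalize φ i z = u
  revert b u
  decide

theorem mask_bit : ∀ a0 a1 a2 a3 a4 a5 a6 : Bool, ∀ i : Fin 7,
    Nat.testBit (a0.toNat + 2 * a1.toNat + 4 * a2.toNat + 8 * a3.toNat + 16 * a4.toNat +
      32 * a5.toNat + 64 * a6.toNat) i = ![a0, a1, a2, a3, a4, a5, a6] i := by
  decide +kernel

theorem vz7 {h x0 x1 x2 wa w0 w1 : Dl V} {S : List ℕ}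
    (hS : ∀ c, c ∈ S ↔ Cd ![h, x0, x1, x2, wa, w0, w1] c) (m : ℕ) (hv : vz m S = true)
    (a0 a1 a2 a3 a4 a5 a6 : Bool) (hm : a0.toNat + 2 * a1.toNat + 4 * a2.toNat + 8 * a3.toNat +
      16 * a4.toNat + 32 * a5.toNat + 64 * a6.toNat = m) :
    tz a0 • h + tz a1 • x0 + tz a2 • x1 + tz a3 • x2 + tz a4 • wa + tz a5 • w0 + tz a6 • w1 = 0 := by
  have h1 := vz_spec _ hS m hv
  rw [Fin.sum_univ_seven, ← hm] at h1
  simp only [mask_bit] at h1
  exact h1

end

theorem tz_f : tz false = 0 := rfl
theorem tz_t : tz true = 1 := rfl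

theorem t : S_CA := by
  intro hE V _ _ _ h x0 x1 x2 wa w0 w1 h34
  obtain ⟨S, hS, hlf⟩ := hE mk lf search (Cd ![h, x0, x1, x2, wa, w0, w1]) (cd_zero _) (cd_xor _)
    (cd_lt _) _ _ Ph (Set.toFinite _) h34 (by
    rintro _ ⟨z, rfl⟩ v hv
    obtain ⟨a, b, d, rfl⟩ := mk_bit (enc_lt _ _) hv
    exact ⟨_, ⟨tz a, tz b, tz d, z, rfl⟩, ph_eq ![h, x0, x1, x2, wa, w0, w1] z a b d⟩)
  have K := fun m hv => vz7 hS m hv
  have e : ∀ {u v : Dl V}, u + v = 0 → u = v := fun h => Pool.Agent.H89FL.aez.1 h
  rw [lf] at hlf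
  simp only [Bool.or_eq_true, Bool.and_eq_true] at hlf
  rcases hlf with (((((((h1 | h1) | h1) | h1) | h1) | h1) | h1) | ⟨h1, h2⟩) | h1
  · left
    have := K 1 h1 true false false false false false false rfl
    simpa [tz] using this
  · right; left
    refine ⟨0, Or.inl ?_⟩
    have := K 2 h1 false true false false false false false rfl
    simpa [tz] using this
  · right; left
    refine ⟨1, Or.inl ?_⟩
    have := K 3 h1 true true false false false false false rfl
    rw [add_comm]
    simpa [tz] using this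
  · right; left
    refine ⟨0, Or.inr (Or.inl ?_)⟩
    have := K 4 h1 false false true false false false false rfl
    simpa [tz] using this
  · right; left
    refine ⟨1, Or.inr (Or.inl ?_)⟩
    have := K 5 h1 true false true false false false false rfl
    rw [add_comm]
    simpa [tz] using this
  · right; left
    refine ⟨0, Or.inr (Or.inr ?_)⟩
    have := K 8 h1 false false false true false false false rfl
    simpa [tz] using this
  · right; left
    refine ⟨1, Or.inr (Or.inr ?_)⟩
    have := K 9 h1 true false false true false false false rfl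
    rw [add_comm]
    simpa [tz] using this
  · right; right; left
    obtain ⟨s, hs⟩ : ∃ s : ZMod 2, x0 + x1 + s • h = 0 := by
      rcases h1 with h1 | h1
      · refine ⟨0, ?_⟩
        have := K 6 h1 false true true false false false false rfl
        simpa [tz] using this
      · refine ⟨1, ?_⟩
        have := K 7 h1 true true true false false false false rfl
        rw [add_comm, ← add_assoc]
        simpa [tz] using this
    obtain ⟨t, ht⟩ : ∃ t : ZMod 2, x0 + x2 + t • h = 0 := by
      rcases h2 with h1 | h1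
      · refine ⟨0, ?_⟩
        have := K 10 h1 false true false true false false false rfl
        simpa [tz] using this
      · refine ⟨1, ?_⟩
        have := K 11 h1 true true false true false false false rfl
        rw [add_comm, ← add_assoc]
        simpa [tz] using this
    exact ⟨s, t, hs, ht⟩
  · right; right; right
    rw [lu] at h1
    simp only [Bool.or_eq_true, Bool.and_eq_true] at h1
    obtain ⟨h1, h2⟩ := h1
    obtain ⟨α, hα⟩ : ∃ α : ZMod 2, wa = α • h := by
      rcases h1 with h1 | h1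
      · refine ⟨0, ?_⟩
        have := K 16 h1 false false false false true false false rfl
        simpa [tz] using this
      · refine ⟨1, ?_⟩
        have := K 17 h1 true false false false true false false rfl
        rw [one_smul]
        refine (e ?_).symm
        simpa [tz] using this
    have key0 : ∀ a0 a2 a3 : Bool, vz (a0.toNat + 2 * false.toNat + 4 * a2.toNat + 8 * a3.toNat +
        16 * false.toNat + 32 * true.toNat + 64 * false.toNat) S = true →
        w0 = tz a0 • h + tz a2 • x1 + tz a3 • x2 := by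
      intro a0 a2 a3 hv
      have := K _ hv a0 false a2 a3 false true false rfl
      rw [tz_f, tz_t] at this
      simp only [zero_smul, one_smul, add_zero] at this
      exact (e this).symm
    have key1 : ∀ a0 a1 a3 : Bool, vz (a0.toNat + 2 * a1.toNat + 4 * false.toNat + 8 * a3.toNat +
        16 * false.toNat + 32 * false.toNat + 64 * true.toNat) S = true →
        w1 = tz a0 • h + tz a1 • x0 + tz a3 • x2 := by
      intro a0 a1 a3 hv
      have := K _ hv a0 a1 false a3 false false true rfl
      rw [tz_f, tz_t] at this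
      simp only [zero_smul, one_smul, add_zero] at this
      exact (e this).symm
    rcases h2 with ⟨g0, g1⟩ | ⟨g0, g1⟩
    · obtain ⟨β, c1, hb⟩ : ∃ β c1 : ZMod 2, w0 = β • h + c1 • x1 + (0 : ZMod 2) • x2 := by
        rcases g0 with ((g | g) | g) | g
        · exact ⟨_, _, key0 false false false g⟩
        · exact ⟨_, _, key0 true false false g⟩
        · exact ⟨_, _, key0 false true false g⟩
        · exact ⟨_, _, key0 true true false g⟩
      obtain ⟨δ, c0, hd⟩ : ∃ δ c0 : ZMod 2, w1 = δ • h + c0 • x0 + (0 : ZMod 2) • x2 := by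
        rcases g1 with ((g | g) | g) | g
        · exact ⟨_, _, key1 false false false g⟩
        · exact ⟨_, _, key1 true false false g⟩
        · exact ⟨_, _, key1 false true false g⟩
        · exact ⟨_, _, key1 true true false g⟩
      exact ⟨α, β, δ, c0, c1, 0, hα, hb, hd⟩
    · obtain ⟨β, c1, hb⟩ : ∃ β c1 : ZMod 2, w0 = β • h + c1 • x1 + (1 : ZMod 2) • x2 := by
        rcases g0 with ((g | g) | g) | g
        · exact ⟨_, _, key0 false false true g⟩
        · exact ⟨_, _, key0 true false true g⟩
        · exact ⟨_, _, key0 false true true g⟩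
        · exact ⟨_, _, key0 true true true g⟩
      obtain ⟨δ, c0, hd⟩ : ∃ δ c0 : ZMod 2, w1 = δ • h + c0 • x0 + (1 : ZMod 2) • x2 := by
        rcases g1 with ((g | g) | g) | g
        · exact ⟨_, _, key1 false false true g⟩
        · exact ⟨_, _, key1 true false true g⟩
        · exact ⟨_, _, key1 false true true g⟩
        · exact ⟨_, _, key1 true true true g⟩
      exact ⟨α, β, δ, c0, c1, 1, hα, hb, hd⟩

end Pool.Agent.H89M6.CX
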