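import Pool.Agent.H89M6.CY

set_option autoImplicit false
set_option maxRecDepth 100000

namespace Pool.Agent.H89M6.CY

open Pool.Agent.H89M6

theorem part4 : part5 mk lf (bp 4) (bp 5) = true := by decide +kernel

theorem part5' : part5 mk lf (bp 5) (bp 6) = true := by decide +kernel

theorem part6 : part5 mk lf (bp 6) (bp 7) = true := by decide +kernel

end Pool.Agent.H89M6.CY
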