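import Pool.Agent.H89M6.CY

set_option autoImplicit false
set_option maxRecDepth 100000

namespace Pool.Agent.H89M6.CY

open Pool.Agent.H89M6

theorem part10 : part5 mk lf (bp 10) (bp 11) = true := by decide +kernel

theorem part11 : part5 mk lf (bp 11) (bp 12) = true := by decide +kernel

theorem part12 : part5 mk lf (bp 12) (bp 13) = true := by decide +kernel

theorem part13 : part5 mk lf (bp 13) (bp 14) = true := by decide +kernel

end Pool.Agent.H89M6.CY
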