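import Pool.Agent.H89M6.CY

set_option autoImplicit false
set_option maxRecDepth 100000

namespace Pool.Agent.H89M6.CY

open Pool.Agent.H89M6

theorem part14 : part5 mk lf (bp 14) (bp 15) = true := by decide +kernel

theorem part15 : part5 mk lf (bp 15) (bp 16) = true := by decide +kernel

theorem part16 : part5 mk lf (bp 16) (bp 17) = true := by decide +kernel

end Pool.Agent.H89M6.CY
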