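import Pool.Agent.H89M6.CY

set_option autoImplicit false
set_option maxRecDepth 100000

namespace Pool.Agent.H89M6.CY

open Pool.Agent.H89M6

theorem part20 : part5 mk lf (bp 20) (bp 21) = true := by decide +kernel

theorem part21 : part5 mk lf (bp 21) (bp 22) = true := by decide +kernel

theorem part22 : part5 mk lf (bp 22) (bp 23) = true := by decide +kernel

theorem part23 : part5 mk lf (bp 23) (bp 24) = true := by decide +kernel

end Pool.Agent.H89M6.CY
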