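import Pool.Agent.H89M6.DC
import Pool.Agent.H89M6.CYk

set_option autoImplicit false

/-! At most 34 values of seven functionals (second type). -/

namespace Pool.Agent.H89M6.CY

open Module Pool.Agent.W622.ETG Pool.Agent.H89M5 Pool.Agent.H89M6
open Pool.Agent.H89M6.DC (pt pt_ne pt_inj pt_surj sum7)

/-- the number of a value -/
def vn (c : ℕ) (a b d : Bool) : ℕ := Nat.ofBits ![a && c.testBit 2, b && c.testBit 1,
  (a ^^ b) && c.testBit 3, d && c.testBit 0, (a ^^ d) && (c.testBit 1 ^^ c.testBit 3),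
  (b ^^ d) && (c.testBit 2 ^^ c.testBit 3), (a ^^ (b ^^ d)) && (c.testBit 1 ^^ c.testBit 2),
  ((a && c.testBit 4) ^^ (b && c.testBit 5)) ^^ (d && c.testBit 6)]

theorem mk_eq : ∀ c < 128, mk c = (1 <<< vn c false false false) ||| ((1 <<< vn c false false true) |||
    ((1 <<< vn c false true false) ||| ((1 <<< vn c false true true) |||
    ((1 <<< vn c true false false) ||| ((1 <<< vn c true false true) |||
    ((1 <<< vn c true true false) ||| (1 <<< vn c true true true))))))) := by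
  decide +kernel

theorem mk_bit {c v : ℕ} (hc : c < 128) (h : (mk c).testBit v = true) :
    ∃ a b d : Bool, vn c a b d = v := by
  have h1 : ∀ n, (1 <<< n).testBit v = decide (n = v) := by
    intro n
    rw [Nat.one_shiftLeft, Nat.testBit_two_pow]
  rw [mk_eq c hc] at h
  simp only [Nat.testBit_or, h1, Bool.or_eq_true, decide_eq_true_eq] at h
  rcases h with h | h | h | h | h | h | h | h
  · exact ⟨_, _, _, h⟩
  · exact ⟨_, _, _, h⟩
  · exact ⟨_, _, _, h⟩
  · exact ⟨_, _, _, h⟩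
  · exact ⟨_, _, _, h⟩
  · exact ⟨_, _, _, h⟩
  · exact ⟨_, _, _, h⟩
  · exact ⟨_, _, _, h⟩

/-- an element of `F_2` -/
def tz (b : Bool) : ZMod 2 := if b = true then 1 else 0

/-- the number of a value -/
def Ph (p : (P3 → ZMod 2) × ZMod 2) : ℕ :=
  Nat.ofBits ![decide (p.1 (1, 0, 0) = 1), decide (p.1 (0, 1, 0) = 1), decide (p.1 (1, 1, 0) = 1),
    decide (p.1 (0, 0, 1) = 1), decide (p.1 (1, 0, 1) = 1), decide (p.1 (0, 1, 1) = 1),
    decide (p.1 (1, 1, 1) = 1), decide (p.2 = 1)]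

/-- the masks of the seven functionals -/
def ym : Fin 7 → ℕ := ![4, 2, 8, 1, 10, 12, 6]

/-- the coordinates of a point -/
def cd (j : Fin 3) (l : P3) : ZMod 2 := ![l.1, l.2.1, l.2.2] j

/-- one term -/
def tm (j : Fin 3) (r : ℕ) (i : Fin 7) : ℕ := if r.testBit i = true ∧ cd j (pt i) = 1 then ym i else 0

/-- the mask of a combination -/
def sp (j : Fin 3) (r : ℕ) : ℕ := tm j r 0 ^^^ (tm j r 1 ^^^ (tm j r 2 ^^^ (tm j r 3 ^^^
  (tm j r 4 ^^^ (tm j r 5 ^^^ tm j r 6)))))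

theorem lo_spec : ∀ p ∈ lo, p.1 < 128 ∧ DC.par p.1 = true ∧ p.2.1 = sp 0 p.1 ∧ p.2.2.1 = sp 1 p.1 ∧
    p.2.2.2 = sp 2 p.1 := by
  decide +kernel

theorem lw_spec : ∀ p ∈ lw, p.1 < 128 ∧ p.2.1 = 16 ^^^ sp 0 p.1 ∧ p.2.2.1 = 32 ^^^ sp 1 p.1 ∧
    p.2.2.2 = 64 ^^^ sp 2 p.1 := by
  decide +kernel

section
variable {V : Type} [AddCommGroup V] [Module (ZMod 2) V]

/-- the functional of a mask -/
def ev (φ : Fin 7 → Dl V) (m : ℕ) : Dl V :=
  ∑ i : Fin 7, (if m.testBit i = true then (1 : ZMod 2) else 0) • φ i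

theorem ev_zero (φ : Fin 7 → Dl V) : ev φ 0 = 0 := by
  simp [ev]

theorem ev_xor (φ : Fin 7 → Dl V) (m m' : ℕ) : ev φ (m ^^^ m') = ev φ m + ev φ m' := by
  rw [ev, ev, ev, ← Finset.sum_add_distrib]
  refine Finset.sum_congr rfl fun i _ => ?_
  rw [← add_smul, Nat.testBit_xor]
  congr 1
  generalize m.testBit i = u
  generalize m'.testBit i = v
  revert u v
  decide

theorem vz_spec (φ : Fin 7 → Dl V) {S : List ℕ} (hS : ∀ c, c ∈ S ↔ Cd φ c) (m : ℕ)
    (h : vz m S = true) : ev φ m = 0 := by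
  rw [ev]
  ext z
  rw [LinearMap.sum_apply, LinearMap.zero_apply]
  rw [vz, List.all_eq_true] at h
  have h3 := h _ ((hS _).2 ⟨z, rfl⟩)
  have h4 : DC.par (enc φ z &&& m) = false := by simpa using h3
  rw [DC.par_eq _ (lt_of_le_of_lt Nat.and_le_left (enc_lt _ _)), decide_eq_false_iff_not] at h4
  have h5 : ∀ u : ZMod 2, u ≠ 1 → u = 0 := by decide
  refine Eq.trans ?_ (h5 _ h4)
  refine Finset.sum_congr rfl fun i _ => ?_
  rw [Nat.testBit_and, enc_bit, LinearMap.smul_apply, smul_eq_mul]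
  generalize m.testBit i = b
  generalize φ i z = u
  revert b u
  decide

/-- the seven functionals -/
def fs (Y w : P3 → Dl V) : Fin 7 → Dl V := ![Y (0, 0, 1), Y (0, 1, 0), Y (1, 0, 0), Y (1, 1, 0),
  w (1, 0, 0), w (0, 1, 0), w (0, 0, 1)]

theorem ev7 (φ : Fin 7 → Dl V) (m : ℕ) (a0 a1 a2 a3 a4 a5 a6 : Bool)
    (h : ∀ i : Fin 7, m.testBit i = ![a0, a1, a2, a3, a4, a5, a6] i) :
    ev φ m = tz a0 • φ 0 + tz a1 • φ 1 + tz a2 • φ 2 + tz a3 • φ 3 + tz a4 • φ 4 + tz a5 • φ 5 +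
      tz a6 • φ 6 := by
  rw [ev, Fin.sum_univ_seven]
  simp only [h]
  rfl

variable (Y w : P3 → Dl V)

theorem ev_ym (h6 : Y (0, 1, 1) = Y (1, 0, 0) + Y (1, 1, 0))
    (h5 : Y (1, 0, 1) = Y (0, 1, 0) + Y (1, 1, 0))
    (h7 : Y (1, 1, 1) = Y (0, 1, 0) + Y (1, 0, 0)) (i : Fin 7) : ev (fs Y w) (ym i) = Y (pt i) := by
  fin_cases i
  · show ev (fs Y w) 4 = Y (1, 0, 0)
    rw [ev7 _ _ false false true false false false false (by decide)]
    simp [tz, fs]
  · show ev (fs Y w) 2 = Y (0, 1, 0)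
    rw [ev7 _ _ false true false false false false false (by decide)]
    simp [tz, fs]
  · show ev (fs Y w) 8 = Y (1, 1, 0)
    rw [ev7 _ _ false false false true false false false (by decide)]
    simp [tz, fs]
  · show ev (fs Y w) 1 = Y (0, 0, 1)
    rw [ev7 _ _ true false false false false false false (by decide)]
    simp [tz, fs]
  · show ev (fs Y w) 10 = Y (1, 0, 1)
    rw [ev7 _ _ false true false true false false false (by decide), h5]
    simp [tz, fs]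
  · show ev (fs Y w) 12 = Y (0, 1, 1)
    rw [ev7 _ _ false false true true false false false (by decide), h6]
    simp [tz, fs]
  · show ev (fs Y w) 6 = Y (1, 1, 1)
    rw [ev7 _ _ false true true false false false false (by decide), h7]
    simp [tz, fs]

theorem ev_tm (hy : ∀ i, ev (fs Y w) (ym i) = Y (pt i)) (j : Fin 3) (r : ℕ) (i : Fin 7) :
    ev (fs Y w) (tm j r i) =
      ((if r.testBit i = true then (1 : ZMod 2) else 0) * cd j (pt i)) • Y (pt i) := by
  rw [tm]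
  by_cases h1 : r.testBit i = true
  · by_cases h2 : cd j (pt i) = 1
    · rw [if_pos ⟨h1, h2⟩, if_pos h1, h2, one_mul, one_smul, hy]
    · have h3 : cd j (pt i) = 0 := by
        generalize cd j (pt i) = u at h2
        revert h2; revert u; decide
      rw [if_neg (fun h => h2 h.2), h3, mul_zero, zero_smul, ev_zero]
  · rw [if_neg (fun h => h1 h.1), if_neg h1, zero_mul, zero_smul, ev_zero]

theorem ev_sp (hy : ∀ i, ev (fs Y w) (ym i) = Y (pt i)) (j : Fin 3) (r : ℕ) :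
    ev (fs Y w) (sp j r) = ∑ i : Fin 7,
      ((if r.testBit i = true then (1 : ZMod 2) else 0) * cd j (pt i)) • Y (pt i) := by
  rw [sp, ev_xor, ev_xor, ev_xor, ev_xor, ev_xor, ev_xor, Fin.sum_univ_seven]
  simp only [ev_tm Y w hy]
  simp only [add_assoc]

/-- the coefficients of a mask -/
def cf (r : ℕ) : P3 → ZMod 2 := fun l => if ∃ i : Fin 7, pt i = l ∧ r.testBit i = true then 1 else 0

theorem cf_pt (r : ℕ) (i : Fin 7) : cf r (pt i) = if r.testBit i = true then (1 : ZMod 2) else 0 := by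
  show (if ∃ j : Fin 7, pt j = pt i ∧ r.testBit j = true then (1 : ZMod 2) else 0) = _
  have : (∃ j : Fin 7, pt j = pt i ∧ r.testBit j = true) ↔ r.testBit i = true := by
    constructor
    · rintro ⟨j, h1, h2⟩
      rw [← pt_inj h1]; exact h2
    · intro h1; exact ⟨i, rfl, h1⟩
  simp only [this]

theorem cf_zero (r : ℕ) : cf r 0 = 0 := by
  show (if ∃ j : Fin 7, pt j = 0 ∧ r.testBit j = true then (1 : ZMod 2) else 0) = _
  rw [if_neg]
  rintro ⟨j, h1, -⟩
  exact pt_ne j h1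

theorem cf_comb (hy : ∀ i, ev (fs Y w) (ym i) = Y (pt i)) (r : ℕ) (e : P3) :
    ∑ l, (cf r l * dt l e) • Y l = e.1 • ev (fs Y w) (sp 0 r) + e.2.1 • ev (fs Y w) (sp 1 r) +
      e.2.2 • ev (fs Y w) (sp 2 r) := by
  rw [sum7, cf_zero, zero_mul, zero_smul, zero_add, ev_sp Y w hy, ev_sp Y w hy, ev_sp Y w hy,
    Finset.smul_sum, Finset.smul_sum, Finset.smul_sum, ← Finset.sum_add_distrib,
    ← Finset.sum_add_distrib]
  refine Finset.sum_congr rfl fun i _ => ?_
  rw [cf_pt, smul_smul, smul_smul, smul_smul, ← add_smul, ← add_smul]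
  congr 1
  have h1 : ∀ l : P3, dt l e = l.1 * e.1 + l.2.1 * e.2.1 + l.2.2 * e.2.2 := by
    revert e; decide
  rw [h1]
  show _ * _ = e.1 * (_ * (pt i).1) + e.2.1 * (_ * (pt i).2.1) + e.2.2 * (_ * (pt i).2.2)
  ring

/-- a point -/
def eb (a b d : Bool) : P3 := (tz a, tz b, tz d)

theorem ph_eq (h6 : Y (0, 1, 1) = Y (1, 0, 0) + Y (1, 1, 0))
    (h5 : Y (1, 0, 1) = Y (0, 1, 0) + Y (1, 1, 0))
    (h7 : Y (1, 1, 1) = Y (0, 1, 0) + Y (1, 0, 0))
    (hw : ∀ e : P3, w e = e.1 • w (1, 0, 0) + e.2.1 • w (0, 1, 0) + e.2.2 • w (0, 0, 1))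
    (z : V) (a b d : Bool) :
    Ph (fun l => dt l (eb a b d) * Y l z, w (eb a b d) z) = vn (enc (fs Y w) z) a b d := by
  have e0' : (enc (fs Y w) z).testBit 0 = decide (Y (0, 0, 1) z = 1) := enc_bit (fs Y w) z 0
  have e1' : (enc (fs Y w) z).testBit 1 = decide (Y (0, 1, 0) z = 1) := enc_bit (fs Y w) z 1
  have e2' : (enc (fs Y w) z).testBit 2 = decide (Y (1, 0, 0) z = 1) := enc_bit (fs Y w) z 2
  have e3' : (enc (fs Y w) z).testBit 3 = decide (Y (1, 1, 0) z = 1) := enc_bit (fs Y w) z 3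
  have e4' : (enc (fs Y w) z).testBit 4 = decide (w (1, 0, 0) z = 1) := enc_bit (fs Y w) z 4
  have e5' : (enc (fs Y w) z).testBit 5 = decide (w (0, 1, 0) z = 1) := enc_bit (fs Y w) z 5
  have e6' : (enc (fs Y w) z).testBit 6 = decide (w (0, 0, 1) z = 1) := enc_bit (fs Y w) z 6
  have k0 : ∀ (a b d : Bool) (u2 : ZMod 2), decide (dt (1, 0, 0) (eb a b d) * u2 = 1) =
      (a && decide (u2 = 1)) := by decide
  have k1 : ∀ (a b d : Bool) (u1 : ZMod 2), decide (dt (0, 1, 0) (eb a b d) * u1 = 1) =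
      (b && decide (u1 = 1)) := by decide
  have k2 : ∀ (a b d : Bool) (u3 : ZMod 2), decide (dt (1, 1, 0) (eb a b d) * u3 = 1) =
      ((a ^^ b) && decide (u3 = 1)) := by decide
  have k3 : ∀ (a b d : Bool) (u0 : ZMod 2), decide (dt (0, 0, 1) (eb a b d) * u0 = 1) =
      (d && decide (u0 = 1)) := by decide
  have k4 : ∀ (a b d : Bool) (u1 u3 : ZMod 2), decide (dt (1, 0, 1) (eb a b d) * (u1 + u3) = 1) =
      ((a ^^ d) && (decide (u1 = 1) ^^ decide (u3 = 1))) := by decide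
  have k5 : ∀ (a b d : Bool) (u2 u3 : ZMod 2), decide (dt (0, 1, 1) (eb a b d) * (u2 + u3) = 1) =
      ((b ^^ d) && (decide (u2 = 1) ^^ decide (u3 = 1))) := by decide
  have k6 : ∀ (a b d : Bool) (u1 u2 : ZMod 2), decide (dt (1, 1, 1) (eb a b d) * (u1 + u2) = 1) =
      ((a ^^ (b ^^ d)) && (decide (u1 = 1) ^^ decide (u2 = 1))) := by decide
  have k7 : ∀ (a b d : Bool) (u4 u5 u6 : ZMod 2), decide ((eb a b d).1 * u4 + (eb a b d).2.1 * u5 +
      (eb a b d).2.2 * u6 = 1) = (((a && decide (u4 = 1)) ^^ (b && decide (u5 = 1))) ^^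
      (d && decide (u6 = 1))) := by decide +kernel
  unfold Ph vn
  congr 1
  funext i
  fin_cases i
  · show decide (dt (1, 0, 0) (eb a b d) * Y (1, 0, 0) z = 1) = (a && (enc (fs Y w) z).testBit 2)
    rw [e2']
    exact k0 a b d _
  · show decide (dt (0, 1, 0) (eb a b d) * Y (0, 1, 0) z = 1) = (b && (enc (fs Y w) z).testBit 1)
    rw [e1']
    exact k1 a b d _
  · show decide (dt (1, 1, 0) (eb a b d) * Y (1, 1, 0) z = 1) =
      ((a ^^ b) && (enc (fs Y w) z).testBit 3)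
    rw [e3']
    exact k2 a b d _
  · show decide (dt (0, 0, 1) (eb a b d) * Y (0, 0, 1) z = 1) = (d && (enc (fs Y w) z).testBit 0)
    rw [e0']
    exact k3 a b d _
  · show decide (dt (1, 0, 1) (eb a b d) * Y (1, 0, 1) z = 1) =
      ((a ^^ d) && ((enc (fs Y w) z).testBit 1 ^^ (enc (fs Y w) z).testBit 3))
    rw [e1', e3', h5]
    exact k4 a b d _ _
  · show decide (dt (0, 1, 1) (eb a b d) * Y (0, 1, 1) z = 1) =
      ((b ^^ d) && ((enc (fs Y w) z).testBit 2 ^^ (enc (fs Y w) z).testBit 3))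
    rw [e2', e3', h6]
    exact k5 a b d _ _
  · show decide (dt (1, 1, 1) (eb a b d) * Y (1, 1, 1) z = 1) =
      ((a ^^ (b ^^ d)) && ((enc (fs Y w) z).testBit 1 ^^ (enc (fs Y w) z).testBit 2))
    rw [e1', e2', h7]
    exact k6 a b d _ _
  · show decide (w (eb a b d) z = 1) = (((a && (enc (fs Y w) z).testBit 4) ^^
      (b && (enc (fs Y w) z).testBit 5)) ^^ (d && (enc (fs Y w) z).testBit 6))
    rw [e4', e5', e6', hw (eb a b d)]
    exact k7 a b d _ _ _

end

theorem t : S_CB := by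
  intro hE V _ _ _ Y w h6 h5 h7 hw h34
  have hw0 : w 0 = 0 := by
    have := hw 0 0
    rw [add_zero] at this
    exact left_eq_add.1 this
  have hwe : ∀ e : P3, w e = e.1 • w (1, 0, 0) + e.2.1 • w (0, 1, 0) + e.2.2 • w (0, 0, 1) := by
    intro e
    have hd : ∀ e : P3, e = 0 ∨ e = (1, 0, 0) ∨ e = (0, 1, 0) ∨ e = (0, 0, 1) ∨
        e = (1, 0, 0) + (0, 1, 0) ∨ e = (1, 0, 0) + (0, 0, 1) ∨ e = (0, 1, 0) + (0, 0, 1) ∨
        e = ((1, 0, 0) + (0, 1, 0)) + (0, 0, 1) := by decide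
    rcases hd e with rfl | rfl | rfl | rfl | rfl | rfl | rfl | rfl
    · simp [hw0]
    · simp
    · simp
    · simp
    · rw [hw]; simp
    · rw [hw]; simp
    · rw [hw]; simp
    · rw [hw, hw]; simp
  have hy := ev_ym Y w h6 h5 h7
  obtain ⟨S, hS, hlf⟩ := hE mk lf search (Cd (fs Y w)) (cd_zero _) (cd_xor _)
    (cd_lt _) _ (cvals Y w) Ph (Set.toFinite _) h34 (by
    rintro _ ⟨z, rfl⟩ v hv
    obtain ⟨a, b, d, rfl⟩ := mk_bit (enc_lt _ _) hv
    exact ⟨_, ⟨eb a b d, z, rfl⟩, ph_eq Y w h6 h5 h7 hwe z a b d⟩)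
  have K := vz_spec (fs Y w) hS
  have hne : ∀ i, pt i ≠ 0 := pt_ne
  have K7 : ∀ i : Fin 7, vz (ym i) S = true → ∃ n ≠ 0, Y n = 0 := by
    intro i hi
    refine ⟨pt i, pt_ne i, ?_⟩
    rw [← hy i]
    exact K _ hi
  rw [lf] at hlf
  simp only [Bool.or_eq_true, List.any_eq_true] at hlf
  rcases hlf with (((((((h1 | h1) | h1) | h1) | h1) | h1) | h1) | ⟨p, hp, h1⟩) | ⟨p, hp, h1⟩
  · exact Or.inl (K7 3 h1)
  · exact Or.inl (K7 1 h1)
  · exact Or.inl (K7 0 h1)
  · exact Or.inl (K7 2 h1)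
  · exact Or.inl (K7 5 h1)
  · exact Or.inl (K7 4 h1)
  · exact Or.inl (K7 6 h1)
  · right; right
    obtain ⟨-, q0, q1, q2⟩ := lw_spec p hp
    rw [vt, Bool.and_eq_true, Bool.and_eq_true] at h1
    obtain ⟨g0, g1, g2⟩ := h1
    have r0 := K _ g0
    have r1 := K _ g1
    have r2 := K _ g2
    rw [q0, ev_xor] at r0
    rw [q1, ev_xor] at r1
    rw [q2, ev_xor] at r2
    have s0 : ev (fs Y w) 16 = w (1, 0, 0) := by
      rw [ev7 _ _ false false false false true false false (by decide)]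
      simp [tz, fs]
    have s1 : ev (fs Y w) 32 = w (0, 1, 0) := by
      rw [ev7 _ _ false false false false false true false (by decide)]
      simp [tz, fs]
    have s2 : ev (fs Y w) 64 = w (0, 0, 1) := by
      rw [ev7 _ _ false false false false false false true (by decide)]
      simp [tz, fs]
    rw [s0] at r0
    rw [s1] at r1
    rw [s2] at r2
    refine ⟨cf p.1, fun a => ?_⟩
    have e : ∀ {u v : Dl V}, u + v = 0 → u = v := fun h => Pool.Agent.H89FL.aez.1 h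
    rw [cf_comb Y w hy p.1 a, hwe a, e r0, e r1, e r2]
  · right; left
    obtain ⟨ql, qp, q0, q1, q2⟩ := lo_spec p hp
    rw [vt, Bool.and_eq_true, Bool.and_eq_true] at h1
    obtain ⟨g0, g1, g2⟩ := h1
    have r0 := K _ g0
    have r1 := K _ g1
    have r2 := K _ g2
    rw [q0] at r0
    rw [q1] at r1
    rw [q2] at r2
    refine ⟨cf p.1, cf_zero _, ?_, fun a => ?_⟩
    · rw [sum7, cf_zero, zero_add]
      simp only [cf_pt]
      rw [DC.par_eq _ ql, decide_eq_true_eq] at qp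
      exact qp
    · rw [cf_comb Y w hy p.1 a, r0, r1, r2, smul_zero, smul_zero, smul_zero, add_zero, add_zero]

end Pool.Agent.H89M6.CY
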