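import Pool.Agent.H89M6.Stm
import Pool.Agent.H89M5.AL
import Pool.Agent.H89M5.NF

set_option autoImplicit false
set_option linter.unusedSectionVars false

namespace Pool.Agent.H89M6.DA

open Module Pool.Agent.W622.ETG Pool.Agent.H89M5 Pool.Agent.H89M5.NF

theorem dt_smul_right (l e : P3) (c : ZMod 2) : dt l (c • e) = c * dt l e := by
  simp only [dt, Prod.smul_fst, Prod.smul_snd, smul_eq_mul]
  ring

section
variable {V : Type} [AddCommGroup V] [Module (ZMod 2) V]

theorem sum_ind (y : P3 → Dl V) (e k : P3) (a : ZMod 2) :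
    ∑ l, ((if l = k then a else 0) * dt l e) • y l = (a * dt k e) • y k := by
  rw [Finset.sum_eq_single k]
  · rw [if_pos rfl]
  · intro l _ hl
    rw [if_neg hl, zero_mul, zero_smul]
  · intro h
    exact absurd (Finset.mem_univ _) h

theorem coef3 : ∀ π ρ s t : ZMod 2, ρ + (π + ρ) = π ∧
    (π + ρ) * t + (s + t) * π + t * ρ = π * s := by decide

theorem coef4 : ∀ ε π ρ α β δ : ZMod 2,
    (α + β + δ) * ε + β * (ε + π) + δ * (ε + ρ) = ε * α + π * β + ρ * δ := by decide

end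

theorem t : S_DA := by
  classical
  intro hENG hVAL hCA V _ _ _ A v0 v1 v2 y hC h34 e0 he0 hR ω hω
  have hy : ∀ l m : P3, dt l e0 = 1 → dt m e0 = 1 → y l = y m :=
    Pool.Agent.H89M5.AL.t V y e0 hR
  obtain ⟨e1, e2, l0, l1, l2, a00, a01, a02, a10, a11, a12, a20, a21, a22, hexp⟩ := basis e0 he0
  have n0 : l0 ≠ 0 := ne_of_dt a00
  have n1 : l1 ≠ 0 := ne_of_dt a11
  have n2 : l2 ≠ 0 := ne_of_dt a22
  have n12 : l1 + l2 ≠ 0 := ne_of_dt (e := e1) (by rw [dt_add_left, a11, a21, add_zero])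
  have m01 : dt (l0 + l1) e0 = 1 := by rw [dt_add_left, a00, a10, add_zero]
  have m02 : dt (l0 + l2) e0 = 1 := by rw [dt_add_left, a00, a20, add_zero]
  have y01 : y (l0 + l1) = y l0 := hy _ _ m01 a00
  have y02 : y (l0 + l2) = y l0 := hy _ _ m02 a00
  obtain ⟨G0, G0A, hG0⟩ := hC.mem l0 (l0 + l2) n0 (ne_of_dt m02)
  obtain ⟨G1, G1A, hG1⟩ := hC.mem l0 (l0 + l1) n0 (ne_of_dt m01)
  have G0v : ∀ e, G0 (io v0 v1 v2 e) = dt l2 e • y l0 := by
    intro e
    rw [hG0, y02, ← add_smul, dt_add_left, ← add_assoc, vadd, zero_add]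
  have G1v : ∀ e, G1 (io v0 v1 v2 e) = dt l1 e • y l0 := by
    intro e
    rw [hG1, y01, ← add_smul, dt_add_left, ← add_assoc, vadd, zero_add]
  -- nothing is a single term
  have hbad : ∀ l : P3, l ≠ 0 → ∀ η ∈ A, ¬ ∀ e, η (io v0 v1 v2 e) = dt l e • y l := by
    intro l hl η hη h
    obtain ⟨e, he⟩ := hC.bad l hl η hη
    exact he (h e)
  have hne : ∀ l : P3, l ≠ 0 → y l ≠ 0 := by
    intro l hl h
    exact hbad l hl 0 A.zero_mem fun e => by rw [h, smul_zero, LinearMap.zero_apply]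
  have hcard : {p : ZMod 2 × ZMod 2 × ZMod 2 × ZMod 2 × ZMod 2 × ZMod 2 |
      ∃ (ε π ρ : ZMod 2) (z : V),
      p = (ε * y l0 z + ρ * y l2 z, ε * y l0 z + π * y l1 z, ε * y l0 z + (π + ρ) * y (l1 + l2) z,
        ρ * y l0 z, π * y l0 z,
        ε * ω (io v0 v1 v2 e0) z + π * ω (io v0 v1 v2 e1) z + ρ * ω (io v0 v1 v2 e2) z)}.ncard
      ≤ 34 := by
    refine le_trans ?_ ((hVAL V A v0 v1 v2 y hC ω hω).trans h34)
    let Ψ : ((P3 → ZMod 2) × ZMod 2) → ZMod 2 × ZMod 2 × ZMod 2 × ZMod 2 × ZMod 2 × ZMod 2 :=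
      fun q => (q.1 l0 + q.1 l2, q.1 l0 + q.1 l1, q.1 l0 + q.1 (l1 + l2), q.1 l0 + q.1 (l0 + l2),
        q.1 l0 + q.1 (l0 + l1), q.2)
    refine le_trans (Set.ncard_le_ncard
      (t := Ψ '' cvals y (fun e => ω (io v0 v1 v2 e))) ?_ (Set.toFinite _))
      (Set.ncard_image_le (Set.toFinite _))
    rintro p ⟨ε, π, ρ, z, rfl⟩
    have d0 : dt l0 (ε • e0 + π • e1 + ρ • e2) = ε := by
      rw [dt_add_right, dt_add_right, dt_smul_right, dt_smul_right, dt_smul_right, a00, a01, a02]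
      ring
    have d1 : dt l1 (ε • e0 + π • e1 + ρ • e2) = π := by
      rw [dt_add_right, dt_add_right, dt_smul_right, dt_smul_right, dt_smul_right, a10, a11, a12]
      ring
    have d2 : dt l2 (ε • e0 + π • e1 + ρ • e2) = ρ := by
      rw [dt_add_right, dt_add_right, dt_smul_right, dt_smul_right, dt_smul_right, a20, a21, a22]
      ring
    refine ⟨_, ⟨ε • e0 + π • e1 + ρ • e2, z, rfl⟩, ?_⟩
    have hfin : ∀ a b c : ZMod 2, a * b + (a + c) * b = c * b := by decide
    simp only [Ψ, dt_add_left, d0, d1, d2, y01, y02, hfin]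
    refine Prod.ext rfl (Prod.ext rfl (Prod.ext rfl (Prod.ext rfl (Prod.ext rfl ?_))))
    change ω (io v0 v1 v2 (ε • e0 + π • e1 + ρ • e2)) z = _
    rw [io_add, io_add, io_smul, io_smul, io_smul, map_add, map_add, map_smul, map_smul, map_smul]
    simp [LinearMap.add_apply, LinearMap.smul_apply, smul_eq_mul]
  -- second case
  have case2 : ∀ (l : P3) (s : ZMod 2), l ≠ 0 → dt l e0 = 0 → y l + s • y l0 = 0 → False := by
    intro l s hl hle h
    have h01 : ∀ s : ZMod 2, s = 0 ∨ s = 1 := by decide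
    rcases h01 s with rfl | rfl
    · rw [zero_smul, add_zero] at h
      exact hne l hl h
    · rw [one_smul] at h
      have h1 : y l = y l0 := Pool.Agent.H89FL.aez.1 h
      have h2 : dt (l0 + l) e0 = 1 := by rw [dt_add_left, a00, hle, add_zero]
      have h3 : y (l0 + l) = y l0 := hy _ _ h2 a00
      obtain ⟨η, hη, he⟩ := hC.mem l0 l n0 hl
      refine hbad (l0 + l) (ne_of_dt h2) η hη fun e => ?_
      rw [he, h1, h3, dt_add_left, add_smul]
  rcases hCA hENG V (y l0) (y l2) (y l1) (y (l1 + l2)) (ω (io v0 v1 v2 e0)) (ω (io v0 v1 v2 e1))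
    (ω (io v0 v1 v2 e2)) hcard with h | ⟨s, h | h | h⟩ | ⟨s, t, ha, hb⟩ |
      ⟨α, β, δ, c0, c1, c2, hwa, hw0, hw1⟩
  · exact (hne l0 n0 h).elim
  · exact (case2 l2 s n2 a20 h).elim
  · exact (case2 l1 s n1 a10 h).elim
  · exact (case2 (l1 + l2) s n12 (by rw [dt_add_left, a10, a20, add_zero]) h).elim
  · exfalso
    obtain ⟨F, FA, hF⟩ := hC.mem l2 (l1 + l2) n2 n12
    have hx1 : y l1 = y l2 + s • y l0 := by
      have : y l1 + (y l2 + s • y l0) = 0 := by rw [← ha]; abel
      exact Pool.Agent.H89FL.aez.1 this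
    have hx2 : y (l1 + l2) = y l2 + t • y l0 := by
      have : y (l1 + l2) + (y l2 + t • y l0) = 0 := by rw [← hb]; abel
      exact Pool.Agent.H89FL.aez.1 this
    refine hbad l1 n1 (F + (s + t) • G1 + t • G0)
      (A.add_mem (A.add_mem FA (A.smul_mem _ G1A)) (A.smul_mem _ G0A)) fun e => ?_
    rw [LinearMap.add_apply, LinearMap.add_apply, LinearMap.smul_apply, LinearMap.smul_apply, hF,
      G0v, G1v, dt_add_left, hx1, hx2]
    obtain ⟨k1, k2⟩ := coef3 (dt l1 e) (dt l2 e) s t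
    have g1 : dt l2 e • y l2 + (dt l1 e + dt l2 e) • (y l2 + t • y l0) +
        (s + t) • dt l1 e • y l0 + t • dt l2 e • y l0 =
        (dt l2 e + (dt l1 e + dt l2 e)) • y l2 +
          ((dt l1 e + dt l2 e) * t + (s + t) * dt l1 e + t * dt l2 e) • y l0 := by
      module
    rw [g1, k1, k2]
    module
  · refine ⟨fun l => (if l = l0 then α + β + δ else 0) + (if l = l0 + l1 then β else 0) +
      (if l = l0 + l2 then δ else 0) + (if l = l1 then c1 else 0) +
      (if l = l1 + l2 then c2 else 0) + (if l = l2 then c0 else 0), fun e => ?_⟩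
    have g1 : ∀ l : P3, (((if l = l0 then α + β + δ else 0) + (if l = l0 + l1 then β else 0) +
      (if l = l0 + l2 then δ else 0) + (if l = l1 then c1 else 0) +
      (if l = l1 + l2 then c2 else 0) + (if l = l2 then c0 else 0)) * dt l e) • y l =
        ((if l = l0 then α + β + δ else 0) * dt l e) • y l +
        ((if l = l0 + l1 then β else 0) * dt l e) • y l +
        ((if l = l0 + l2 then δ else 0) * dt l e) • y l +
        ((if l = l1 then c1 else 0) * dt l e) • y l +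
        ((if l = l1 + l2 then c2 else 0) * dt l e) • y l +
        ((if l = l2 then c0 else 0) * dt l e) • y l := by
      intro l
      module
    simp only [g1, Finset.sum_add_distrib, sum_ind]
    rw [y01, y02, dt_add_left, dt_add_left, dt_add_left]
    conv_lhs => rw [hexp e]
    rw [io_add, io_add, io_smul, io_smul, io_smul, map_add, map_add, map_smul, map_smul, map_smul,
      hwa, hw0, hw1]
    have k := coef4 (dt l0 e) (dt l1 e) (dt l2 e) α β δ
    have g2 : dt l1 e • (β • y l0 + c1 • y l1 + c2 • y (l1 + l2)) +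
        dt l2 e • (δ • y l0 + c0 • y l2 + c2 • y (l1 + l2)) + dt l0 e • α • y l0 =
        (dt l0 e * α + dt l1 e * β + dt l2 e * δ) • y l0 + (c1 * dt l1 e) • y l1 +
          (c2 * (dt l1 e + dt l2 e)) • y (l1 + l2) + (c0 * dt l2 e) • y l2 := by
      module
    rw [g2, ← k]
    module

end Pool.Agent.H89M6.DA
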