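import Pool.Agent.H89M6.Stm
import Pool.Agent.H89M5.BETA

set_option autoImplicit false
set_option linter.unusedSectionVars false

/-!
Project M6, stub DB: a relation of the second type, by transport to CB.
-/

namespace Pool.Agent.H89M6.DB

open Module Pool.Agent.W622.ETG Pool.Agent.H89M5 Pool.Agent.H89M5.BETA

/-- the point with the coordinates `b` -/
def pt (e1 e2 e3 b : P3) : P3 := b.1 • e1 + b.2.1 • e2 + b.2.2 • e3

theorem dt_pt (l e1 e2 e3 b : P3) : dt l (pt e1 e2 e3 b) = b.1 * dt l e1 + b.2.1 * dt l e2 +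
    b.2.2 * dt l e3 := by
  obtain ⟨a1, a2, a3⟩ := l
  obtain ⟨b1, b2, b3⟩ := b
  obtain ⟨x1, x2, x3⟩ := e1
  obtain ⟨y1, y2, y3⟩ := e2
  obtain ⟨z1, z2, z3⟩ := e3
  simp only [dt, pt, Prod.fst_add, Prod.snd_add, Prod.smul_fst, Prod.smul_snd, smul_eq_mul]
  ring

theorem dt_ph (l1 l2 l0 s e : P3) : dt (ph l1 l2 l0 s) e = s.1 * dt l1 e + s.2.1 * dt l2 e +
    s.2.2 * dt l0 e := by
  obtain ⟨a1, a2, a3⟩ := s
  obtain ⟨b1, b2, b3⟩ := e
  obtain ⟨x1, x2, x3⟩ := l1
  obtain ⟨y1, y2, y3⟩ := l2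
  obtain ⟨z1, z2, z3⟩ := l0
  simp only [dt, ph, Prod.fst_add, Prod.snd_add, Prod.smul_fst, Prod.smul_snd, smul_eq_mul]
  ring

theorem dt_ext {e e' : P3} (h : ∀ l, dt l e = dt l e') : e = e' := by
  have h1 := h (1, 0, 0)
  have h2 := h (0, 1, 0)
  have h3 := h (0, 0, 1)
  simp only [dt, one_mul, zero_mul, add_zero, zero_add] at h1 h2 h3
  exact Prod.ext h1 (Prod.ext h2 h3)

/-- relations with an odd number of terms are impossible -/
theorem odd_rel {V : Type} [AddCommGroup V] [Module (ZMod 2) V] {A : Fam V} {v0 v1 v2 : V}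
    {y : P3 → Dl V} (hC : Cf A v0 v1 v2 y) (c : P3 → ZMod 2) (h0 : c 0 = 0) (h : ∑ l, c l = 1)
    (hR : Rl y c) : False := by
  have hm : ((1, 0, 0) : P3) ≠ 0 := by decide
  have hex : ∀ l : P3, ∃ ω ∈ A, l ≠ 0 → ∀ e, ω (io v0 v1 v2 e) =
      dt l e • y l + dt (1, 0, 0) e • y (1, 0, 0) := by
    intro l
    by_cases hl : l = 0
    · exact ⟨0, A.zero_mem, fun h => absurd hl h⟩
    · obtain ⟨ω, h1, h2⟩ := hC.mem l (1, 0, 0) hl hm
      exact ⟨ω, h1, fun _ => h2⟩
  choose w hwA hw using hex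
  obtain ⟨e, he⟩ := hC.bad (1, 0, 0) hm (∑ l, c l • w l)
    (A.sum_mem fun l _ => A.smul_mem _ (hwA l))
  apply he
  rw [LinearMap.sum_apply]
  have h1 : ∀ l ∈ (Finset.univ : Finset P3), (c l • w l) (io v0 v1 v2 e) =
      (c l * dt l e) • y l + c l • (dt (1, 0, 0) e • y (1, 0, 0)) := by
    intro l _
    by_cases hl : l = 0
    · rw [hl, h0, zero_smul, zero_mul, zero_smul, zero_smul, LinearMap.zero_apply, add_zero]
    · rw [LinearMap.smul_apply, hw l hl e, smul_add, smul_smul]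
  rw [Finset.sum_congr rfl h1, Finset.sum_add_distrib, hR e, ← Finset.sum_smul, h, one_smul,
    zero_add]

theorem t : S_DB := by
  intro hENG hVAL hCB V _ _ _ A v0 v1 v2 y hC h34 c hc0 hR l0 hl0 hc ω hω
  obtain ⟨l1, l2, e1, e2, e3, hB⟩ := bs l0 hl0
  have d1 : ∀ s, dt (ph l1 l2 l0 s) e1 = s.1 := fun s => congrArg Prod.fst (hB.co s)
  have d2 : ∀ s, dt (ph l1 l2 l0 s) e2 = s.2.1 := fun s => congrArg (fun z => z.2.1) (hB.co s)
  have d3 : ∀ s, dt (ph l1 l2 l0 s) e3 = s.2.2 := fun s => congrArg (fun z => z.2.2) (hB.co s)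
  have p0 : ph l1 l2 l0 0 = 0 := by simp [ph]
  have pl0 : ph l1 l2 l0 (0, 0, 1) = l0 := by simp [ph]
  have pinj : Function.Injective (ph l1 l2 l0) := Function.LeftInverse.injective hB.co
  have pne : ∀ s : P3, s ≠ 0 → ph l1 l2 l0 s ≠ 0 := fun s hs h => hs (pinj (h.trans p0.symm))
  have hcp : ∀ s, c (ph l1 l2 l0 s) = gam s := by
    intro s
    unfold gam
    split_ifs with h1 h2
    · rw [h1, p0, hc0]
    · rw [h2, pl0, hc l0 hl0, if_pos rfl]
    · rw [hc _ (pne s h1), if_neg]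
      intro h3
      exact h2 (pinj (h3.trans pl0.symm))
  have dpp : ∀ s b, dt (ph l1 l2 l0 s) (pt e1 e2 e3 b) = dt s b := by
    intro s b
    rw [dt_pt, d1, d2, d3]
    unfold dt
    ring
  -- coordinates of the points
  have hpt : ∀ e : P3, pt e1 e2 e3 (dt l1 e, dt l2 e, dt l0 e) = e := by
    intro e
    apply dt_ext
    intro l
    rw [← hB.oc l, dpp, dt_ph]
    rfl
  set Y : P3 → Dl V := fun s => y (ph l1 l2 l0 s) with hY
  have hYne : ∀ s : P3, s ≠ 0 → Y s ≠ 0 := by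
    intro s hs h0
    obtain ⟨e, he⟩ := hC.bad _ (pne s hs) 0 A.zero_mem
    apply he
    change (0 : Frm V) (io v0 v1 v2 e) = dt (ph l1 l2 l0 s) e • Y s
    rw [h0, smul_zero]
    rfl
  have rel : ∀ (c' : P3 → ZMod 2) (g : P3 → ZMod 2), (∀ s, c' (ph l1 l2 l0 s) = g s) →
      ∀ e, ∑ l, (c' l * dt l e) • y l = ∑ s, (g s * dt (ph l1 l2 l0 s) e) • Y s := by
    intro c' g hg e
    rw [sumE hB]
    exact Finset.sum_congr rfl fun s _ => by rw [hg s]
  have R1 : Y (1, 0, 0) + (Y (1, 0, 1) + (Y (1, 1, 0) + Y (1, 1, 1))) = 0 := by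
    have := hR e1
    rw [rel c gam hcp e1, sumP3] at this
    simp only [d1] at this
    have q1 : gam (1, 0, 0) = 1 := by decide
    have q2 : gam (1, 0, 1) = 1 := by decide
    have q3 : gam (1, 1, 0) = 1 := by decide
    have q4 : gam (1, 1, 1) = 1 := by decide
    rw [q1, q2, q3, q4] at this
    simpa using this
  have R2 : Y (0, 1, 0) + (Y (0, 1, 1) + (Y (1, 1, 0) + Y (1, 1, 1))) = 0 := by
    have := hR e2
    rw [rel c gam hcp e2, sumP3] at this
    simp only [d2] at this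
    have q1 : gam (0, 1, 0) = 1 := by decide
    have q2 : gam (0, 1, 1) = 1 := by decide
    have q3 : gam (1, 1, 0) = 1 := by decide
    have q4 : gam (1, 1, 1) = 1 := by decide
    rw [q1, q2, q3, q4] at this
    simpa using this
  have R3 : Y (0, 1, 1) + (Y (1, 0, 1) + Y (1, 1, 1)) = 0 := by
    have := hR e3
    rw [rel c gam hcp e3, sumP3] at this
    simp only [d3] at this
    have q0 : gam (0, 0, 1) = 0 := by decide
    have q2 : gam (0, 1, 1) = 1 := by decide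
    have q3 : gam (1, 0, 1) = 1 := by decide
    have q4 : gam (1, 1, 1) = 1 := by decide
    rw [q0, q2, q3, q4] at this
    simpa using this
  have y101 : Y (1, 0, 1) = Y (0, 1, 0) + Y (1, 1, 0) := by
    have a1 := sum_even (Y (0, 1, 0))
    have a2 := sum_even (Y (0, 1, 1))
    have a4 := sum_even (Y (1, 1, 0))
    have a5 := sum_even (Y (1, 1, 1))
    linear_combination (norm := module) R2 + R3 - a2 - a5 - a1 - a4
  have y011 : Y (0, 1, 1) = Y (1, 0, 0) + Y (1, 1, 0) := by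
    have a1 := sum_even (Y (1, 0, 0))
    have a2 := sum_even (Y (1, 0, 1))
    have a4 := sum_even (Y (1, 1, 0))
    have a5 := sum_even (Y (1, 1, 1))
    linear_combination (norm := module) R1 + R3 - a2 - a5 - a1 - a4
  have y111 : Y (1, 1, 1) = Y (0, 1, 0) + Y (1, 0, 0) := by
    have a1 := sum_even (Y (0, 1, 0))
    have a2 := sum_even (Y (1, 0, 0))
    have a4 := sum_even (Y (1, 1, 0))
    linear_combination (norm := module) R1 - y101 - a1 - a2 - a4
  -- the values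
  set W : P3 → Dl V := fun b => ω (io v0 v1 v2 (pt e1 e2 e3 b)) with hW
  have hWadd : ∀ a b, W (a + b) = W a + W b := by
    intro a b
    have h1 : io v0 v1 v2 (pt e1 e2 e3 (a + b)) =
        io v0 v1 v2 (pt e1 e2 e3 a) + io v0 v1 v2 (pt e1 e2 e3 b) := by
      have h2 : pt e1 e2 e3 (a + b) = pt e1 e2 e3 a + pt e1 e2 e3 b := by
        unfold pt
        rw [Prod.fst_add, Prod.snd_add, Prod.fst_add, Prod.snd_add]
        module
      rw [h2]
      unfold io
      rw [Prod.fst_add, Prod.snd_add, Prod.fst_add, Prod.snd_add]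
      module
    change ω (io v0 v1 v2 (pt e1 e2 e3 (a + b))) = _
    rw [h1, map_add]
  have hcard : (cvals Y W).ncard ≤ 34 := by
    have h1 := (hVAL V A v0 v1 v2 y hC ω hω).trans h34
    refine le_trans ?_ h1
    have h2 : cvals Y W ⊆ (fun p : (P3 → ZMod 2) × ZMod 2 =>
        ((fun s => p.1 (ph l1 l2 l0 s), p.2) : (P3 → ZMod 2) × ZMod 2)) ''
          cvals y (fun e => ω (io v0 v1 v2 e)) := by
      rintro _ ⟨b, z, rfl⟩
      refine ⟨_, ⟨pt e1 e2 e3 b, z, rfl⟩, ?_⟩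
      refine Prod.ext ?_ rfl
      funext s
      change dt (ph l1 l2 l0 s) (pt e1 e2 e3 b) * y (ph l1 l2 l0 s) z = dt s b * Y s z
      rw [dpp]
    exact (Set.ncard_le_ncard h2 (Set.toFinite _)).trans (Set.ncard_image_le (Set.toFinite _))
  rcases hCB hENG V Y W y011 y101 y111 hWadd hcard with ⟨n, hn, h1⟩ | ⟨r, hr0, hr1, hr2⟩ | ⟨d, hd⟩
  · exact absurd h1 (hYne n hn)
  · exfalso
    have hcr : ∀ s, r (cr e1 e2 e3 (ph l1 l2 l0 s)) = r s := by
      intro s
      rw [hB.co]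
    refine odd_rel hC (fun l => r (cr e1 e2 e3 l)) ?_ ?_ ?_
    · have := hcr 0
      rw [p0] at this
      exact this.trans hr0
    · rw [sumE hB]
      rw [← hr1]
      exact Finset.sum_congr rfl fun s _ => hcr s
    · intro e
      rw [rel _ r hcr e, ← hr2 (dt l1 e, dt l2 e, dt l0 e)]
      refine Finset.sum_congr rfl fun s _ => ?_
      rw [← dpp s (dt l1 e, dt l2 e, dt l0 e), hpt e]
  · have hcr : ∀ s, d (cr e1 e2 e3 (ph l1 l2 l0 s)) = d s := by
      intro s
      rw [hB.co]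
    refine ⟨fun l => d (cr e1 e2 e3 l), fun e => ?_⟩
    rw [rel _ d hcr e]
    have h1 := hd (dt l1 e, dt l2 e, dt l0 e)
    have h2 : W (dt l1 e, dt l2 e, dt l0 e) = ω (io v0 v1 v2 e) := by
      change ω (io v0 v1 v2 (pt e1 e2 e3 (dt l1 e, dt l2 e, dt l0 e))) = _
      rw [hpt e]
    rw [← h2, h1]
    refine Finset.sum_congr rfl fun s _ => ?_
    rw [← dpp s (dt l1 e, dt l2 e, dt l0 e), hpt e]

end Pool.Agent.H89M6.DB
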