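import Pool.Agent.H89M6.DCd

set_option autoImplicit false
set_option maxRecDepth 100000

namespace Pool.Agent.H89M6.DC

open Pool.Agent.H89M6

theorem part37 : part5 mk lf (bp 37) (bp 38) = true := by decide +kernel

theorem part38 : part5 mk lf (bp 38) (bp 39) = true := by decide +kernel

theorem part39 : part5 mk lf (bp 39) (bp 40) = true := by decide +kernel

end Pool.Agent.H89M6.DC
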