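import Pool.Agent.H89M6.DCd

set_option autoImplicit false
set_option maxRecDepth 100000

namespace Pool.Agent.H89M6.DC

open Pool.Agent.H89M6

theorem part24 : part5 mk lf (bp 24) (bp 25) = true := by decide +kernel

theorem part25 : part5 mk lf (bp 25) (bp 26) = true := by decide +kernel

theorem part26 : part5 mk lf (bp 26) (bp 27) = true := by decide +kernel

end Pool.Agent.H89M6.DC
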