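import Pool.Agent.H89M6.DCd

set_option autoImplicit false
set_option maxRecDepth 100000

namespace Pool.Agent.H89M6.DC

open Pool.Agent.H89M6

theorem part27 : part5 mk lf (bp 27) (bp 28) = true := by decide +kernel

theorem part28 : part5 mk lf (bp 28) (bp 29) = true := by decide +kernel

theorem part29 : part5 mk lf (bp 29) (bp 30) = true := by decide +kernel

end Pool.Agent.H89M6.DC
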