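import Pool.Agent.H89M6.Enc
import Pool.Agent.H89M6.DCk

set_option autoImplicit false

/-! At most 34 values imply a relation. -/

namespace Pool.Agent.H89M6.DC

open Module Pool.Agent.W622.ETG Pool.Agent.H89M5 Pool.Agent.H89M6

/-- the nonzero points -/
def pt : Fin 7 → P3 := ![(1, 0, 0), (0, 1, 0), (1, 1, 0), (0, 0, 1), (1, 0, 1), (0, 1, 1), (1, 1, 1)]

theorem pt_ne (i : Fin 7) : pt i ≠ 0 := by
  revert i; decide

theorem pt_inj : Function.Injective pt := by
  intro i j; revert i j; decide

theorem pt_surj (l : P3) (h : l ≠ 0) : ∃ i, pt i = l := by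
  revert l; decide

theorem sum7 {M : Type} [AddCommMonoid M] (f : P3 → M) : ∑ l, f l = f 0 + ∑ i : Fin 7, f (pt i) := by
  have h : (Finset.univ : Finset P3) = insert 0 (Finset.univ.image pt) := by decide
  rw [h, Finset.sum_insert (by decide), Finset.sum_image (fun i _ j _ hij => pt_inj hij)]

/-- the masks -/
def ms : Fin 7 → ℕ := ![85, 102, 51, 120, 45, 30, 75]

/-- the points of the masks -/
theorem ms_pt : ∀ g : Fin 7, ∀ i : Fin 7, (ms g).testBit i = decide (dt (pt i) (pt g) = 1) := by
  decide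

theorem par_eq : ∀ x < 128, par x = decide (∑ i : Fin 7, (if x.testBit i = true then (1 : ZMod 2)
    else 0) = 1) := by
  decide +kernel

section
variable {V : Type} [AddCommGroup V] [Module (ZMod 2) V]

/-- the functionals -/
def fi (y : P3 → Dl V) : Fin 7 → Dl V := fun i => y (pt i)

/-- the number of a value -/
def Ph (x : (P3 → ZMod 2) × ZMod 2) : ℕ := Nat.ofBits fun i : Fin 7 => decide (x.1 (pt i) = 1)

theorem ph_eq (y : P3 → Dl V) (z : V) (g : Fin 7) (b : ZMod 2) :
    Ph (fun l => dt l (pt g) * y l z, b) = enc (fi y) z &&& ms g := by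
  apply Nat.eq_of_testBit_eq
  intro i
  rw [Nat.testBit_and]
  by_cases h : i < 7
  · have h1 : (Ph (fun l => dt l (pt g) * y l z, b)).testBit i =
        decide (dt (pt ⟨i, h⟩) (pt g) * y (pt ⟨i, h⟩) z = 1) :=
      Nat.testBit_ofBits_lt _ _ h
    rw [h1, enc_bit (fi y) z ⟨i, h⟩, ms_pt g ⟨i, h⟩]
    show _ = (decide (y (pt ⟨i, h⟩) z = 1) && _)
    generalize dt (pt ⟨i, h⟩) (pt g) = u
    generalize y (pt ⟨i, h⟩) z = v
    revert u v
    decide
  · have h1 : (Ph (fun l => dt l (pt g) * y l z, b)).testBit i = false :=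
      Nat.testBit_ofBits_ge _ _ (by omega)
    rw [h1, enc_bit_ge (fi y) z (by omega)]
    rfl

theorem mk_bit {c v : ℕ} (h : (mk c).testBit v = true) : ∃ g : Fin 7, v = c &&& ms g := by
  have h1 : ∀ n, (Nat.shiftLeft 1 n).testBit v = decide (n = v) := by
    intro n
    show (1 <<< n).testBit v = _
    rw [Nat.one_shiftLeft, Nat.testBit_two_pow]
  have h2 : ∀ a b : ℕ, (Nat.lor a b).testBit v = (a.testBit v || b.testBit v) := fun a b =>
    Nat.testBit_or a b v
  unfold mk at h
  rw [h2, h2, h2, h2, h2, h2, h1, h1, h1, h1, h1, h1, h1] at h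
  simp only [Bool.or_eq_true, decide_eq_true_eq] at h
  rcases h with h | h | h | h | h | h | h
  · exact ⟨0, h.symm⟩
  · exact ⟨1, h.symm⟩
  · exact ⟨2, h.symm⟩
  · exact ⟨3, h.symm⟩
  · exact ⟨4, h.symm⟩
  · exact ⟨5, h.symm⟩
  · exact ⟨6, h.symm⟩

/-- a relation from a mask -/
theorem rel_of (y : P3 → Dl V) (r : ℕ) (hr : r < 128) (h0 : r ≠ 0)
    (h : ∀ g : Fin 7, ∀ z : V, ∑ i : Fin 7, (if r.testBit i = true then (1 : ZMod 2) else 0) *
      (dt (pt i) (pt g) * y (pt i) z) = 0) :
    ∃ c : P3 → ZMod 2, c 0 = 0 ∧ c ≠ 0 ∧ Rl y c := by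
  classical
  let c : P3 → ZMod 2 := fun l => if ∃ i : Fin 7, pt i = l ∧ r.testBit i = true then 1 else 0
  have hc : ∀ i : Fin 7, c (pt i) = if r.testBit i = true then (1 : ZMod 2) else 0 := by
    intro i
    show (if ∃ j : Fin 7, pt j = pt i ∧ r.testBit j = true then (1 : ZMod 2) else 0) = _
    congr 1
    apply propext
    constructor
    · rintro ⟨j, h1, h2⟩
      rw [← pt_inj h1]; exact h2
    · intro h1; exact ⟨i, rfl, h1⟩
  have hc0 : c 0 = 0 := by
    show (if ∃ j : Fin 7, pt j = 0 ∧ r.testBit j = true then (1 : ZMod 2) else 0) = _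
    rw [if_neg]
    rintro ⟨j, h1, -⟩
    exact pt_ne j h1
  refine ⟨c, hc0, ?_, ?_⟩
  · intro hcz
    apply h0
    apply Nat.eq_of_testBit_eq
    intro i
    rw [Nat.zero_testBit]
    by_cases hi : i < 7
    · have h1 := hc ⟨i, hi⟩
      rw [hcz] at h1
      by_contra h2
      rw [Bool.not_eq_false] at h2
      rw [if_pos h2] at h1
      exact absurd (show (0 : ZMod 2) = 1 from h1) (by decide)
    · exact Nat.testBit_lt_two_pow (lt_of_lt_of_le hr (by
        calc 128 = 2 ^ 7 := by norm_num
          _ ≤ 2 ^ i := Nat.pow_le_pow_right (by norm_num) (by omega)))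
  · intro e
    rw [sum7, hc0, zero_mul, zero_smul, zero_add]
    by_cases he : e = 0
    · subst he
      have h1 : ∀ l : P3, dt l 0 = 0 := by decide
      simp [h1]
    · obtain ⟨g, rfl⟩ := pt_surj e he
      ext z
      rw [LinearMap.zero_apply, LinearMap.sum_apply, ← h g z]
      refine Finset.sum_congr rfl fun i _ => ?_
      rw [LinearMap.smul_apply, hc, smul_eq_mul, mul_assoc]

end

theorem t : S_DC := by
  intro hE hV V _ _ _ A v0 v1 v2 y hy h34
  have hX := (hV V A v0 v1 v2 y hy 0 A.zero_mem).trans h34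
  obtain ⟨S, hS, hlf⟩ := hE mk lf search (Cd (fi y)) (cd_zero _) (cd_xor _) (cd_lt _) _
    (cvals y (fun e => (0 : Frm V) (io v0 v1 v2 e))) Ph (Set.toFinite _) hX (by
    rintro _ ⟨z, rfl⟩ v hv
    obtain ⟨g, rfl⟩ := mk_bit hv
    exact ⟨_, ⟨pt g, z, rfl⟩, ph_eq y z g _⟩)
  have hmem : ∀ z : V, enc (fi y) z ∈ S := fun z => (hS _).2 ⟨z, rfl⟩
  rw [lf, Bool.or_eq_true] at hlf
  rcases hlf with h | h
  · -- a coordinate vanishes
    have h1 : S.foldl Nat.lor 0 ≠ 127 := by
      intro h2
      rw [lfa, h2] at h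
      exact absurd h (by decide)
    have hor : ∀ (T : List ℕ) (u j : ℕ), (T.foldl Nat.lor u).testBit j = true ↔
        (u.testBit j = true ∨ ∃ c ∈ T, c.testBit j = true) := by
      intro T
      induction T with
      | nil => intro u j; simp
      | cons c T ih =>
        intro u j
        rw [List.foldl_cons, ih]
        have : (Nat.lor u c).testBit j = (u.testBit j || c.testBit j) := Nat.testBit_or u c j
        rw [this, Bool.or_eq_true]
        constructor
        · rintro ((h1 | h1) | ⟨c', h1, h2⟩)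
          · exact Or.inl h1
          · exact Or.inr ⟨c, List.mem_cons_self, h1⟩
          · exact Or.inr ⟨c', List.mem_cons_of_mem _ h1, h2⟩
        · rintro (h1 | ⟨c', h1, h2⟩)
          · exact Or.inl (Or.inl h1)
          · rcases List.mem_cons.1 h1 with rfl | h1
            · exact Or.inl (Or.inr h2)
            · exact Or.inr ⟨c', h1, h2⟩
    have h2 : ∃ i : Fin 7, ∀ z : V, y (pt i) z = 0 := by
      by_contra hcon
      push Not at hcon
      apply h1
      apply Nat.eq_of_testBit_eq
      intro j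
      by_cases hj : j < 7
      · obtain ⟨z, hz⟩ := hcon ⟨j, hj⟩
        have e1 : (127 : ℕ).testBit j = true := by
          interval_cases j <;> decide
        rw [e1, hor]
        refine Or.inr ⟨_, hmem z, ?_⟩
        rw [enc_bit (fi y) z ⟨j, hj⟩, decide_eq_true_eq]
        show y (pt ⟨j, hj⟩) z = 1
        generalize y (pt ⟨j, hj⟩) z = u at hz
        revert hz; revert u; decide
      · have e1 : (127 : ℕ).testBit j = false := Nat.testBit_lt_two_pow (by
          calc 127 < 2 ^ 7 := by norm_num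
            _ ≤ 2 ^ j := Nat.pow_le_pow_right (by norm_num) (by omega))
        rw [e1]
        by_contra hcon2
        rw [Bool.not_eq_false, hor] at hcon2
        rcases hcon2 with h3 | ⟨c, h3, h4⟩
        · simp at h3
        · obtain ⟨z, rfl⟩ := (hS c).1 h3
          rw [enc_bit_ge (fi y) z (by omega)] at h4
          exact absurd h4 (by decide)
    obtain ⟨i, hi⟩ := h2
    refine rel_of y (2 ^ (i : ℕ)) ?_ (by positivity) fun g z => ?_
    · calc 2 ^ (i : ℕ) < 2 ^ 7 := Nat.pow_lt_pow_right (by norm_num) i.2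
        _ = 128 := by norm_num
    · refine Finset.sum_eq_zero fun j _ => ?_
      rw [Nat.testBit_two_pow]
      by_cases hij : (i : ℕ) = j
      · have : i = j := Fin.ext hij
        rw [← this, hi, mul_zero, mul_zero]
      · simp [hij]
  · rw [lfb, List.any_eq_true] at h
    obtain ⟨r', hr', h1⟩ := h
    rw [List.mem_range] at hr'
    rw [List.all_eq_true] at h1
    refine rel_of y (r' + 1) (by omega) (by omega) fun g z => ?_
    have h2 := h1 (ms g) (by fin_cases g <;> decide)
    rw [List.all_eq_true] at h2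
    have h3 := h2 _ (hmem z)
    have h4 : par (enc (fi y) z &&& (r' + 1) &&& ms g) = false := by
      simpa using h3
    rw [par_eq _ (lt_of_le_of_lt (Nat.and_le_left.trans Nat.and_le_left) (enc_lt _ _)),
      decide_eq_false_iff_not] at h4
    have h5 : ∀ u : ZMod 2, u ≠ 1 → u = 0 := by decide
    refine Eq.trans ?_ (h5 _ h4)
    refine Finset.sum_congr rfl fun i _ => ?_
    rw [Nat.testBit_and, Nat.testBit_and, enc_bit, ms_pt]
    show _ = if (decide (y (pt i) z = 1) && (r' + 1).testBit i && decide (dt (pt i) (pt g) = 1)) = true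
      then (1 : ZMod 2) else 0
    generalize (r' + 1).testBit i = b
    generalize y (pt i) z = u
    generalize dt (pt i) (pt g) = v
    revert b u v
    decide

end Pool.Agent.H89M6.DC
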