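import Pool.Agent.H89M6.DCd

set_option autoImplicit false
set_option maxRecDepth 100000

namespace Pool.Agent.H89M6.DC

open Pool.Agent.H89M6

theorem part0 : part5 mk lf (bp 0) (bp 1) = true := by decide +kernel

theorem part1 : part5 mk lf (bp 1) (bp 2) = true := by decide +kernel

theorem part2 : part5 mk lf (bp 2) (bp 3) = true := by decide +kernel

theorem part3 : part5 mk lf (bp 3) (bp 4) = true := by decide +kernel

end Pool.Agent.H89M6.DC
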