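import Pool.Agent.H89M6.Stm
import Pool.Agent.H89M5.REL

/-!
# DIM: the restrictions have dimension at most five
-/

set_option autoImplicit false

namespace Pool.Agent.H89M6.DIM

open Module Pool.Agent.W622.ETG Pool.Agent.H89M5 Pool.Agent.H89M5.REL

theorem t : Pool.Agent.H89M6.S_DIM := by
  intro V _ _ _ A v0 v1 v2 y hC c hc0 hcne hRl hcomb
  classical
  by_contra hcon
  have hcon' : 6 ≤ finrank (ZMod 2) (A.map (rE v0 v1 v2)) := by omega
  obtain ⟨m, hm⟩ : ∃ m, c m ≠ 0 := by
    by_contra h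
    push Not at h
    exact hcne (funext h)
  have hm0 : m ≠ 0 := by
    rintro rfl
    exact hm hc0
  have hm1 : c m = 1 := by
    have : ∀ x : ZMod 2, x ≠ 0 → x = 1 := by decide
    exact this _ hm
  let s : Finset P3 := Finset.univ.filter (fun l => l ≠ 0 ∧ l ≠ m)
  have hs : s.card = 6 := by
    have : ∀ m : P3, m ≠ 0 →
        (Finset.univ.filter (fun l : P3 => l ≠ 0 ∧ l ≠ m)).card = 6 := by decide
    exact this m hm0
  let U : Submodule (ZMod 2) (Dl V × Dl V × Dl V) :=
    Submodule.span (ZMod 2) ((s.image (TT y) : Finset _) : Set (Dl V × Dl V × Dl V))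
  have hU6 : finrank (ZMod 2) U ≤ 6 :=
    (finrank_span_finset_le_card (s.image (TT y))).trans (Finset.card_image_le.trans hs.le)
  have hT0 : TT y 0 = 0 := by
    simp [TT]
  -- the relation for `TT`
  have hsum : ∑ l : P3, c l • TT y l = 0 := by
    have h1 := hRl (1, 0, 0)
    have h2 := hRl (0, 1, 0)
    have h3 := hRl (0, 0, 1)
    simp only [dt, mul_one, mul_zero, add_zero, zero_add] at h1 h2 h3
    refine Prod.ext ?_ (Prod.ext ?_ ?_)
    · rw [Prod.fst_sum]
      rw [show (0 : Dl V × Dl V × Dl V).1 = 0 from rfl, ← h1]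
      exact Finset.sum_congr rfl fun l _ => by simp [TT, mul_smul]
    · rw [Prod.snd_sum, Prod.fst_sum]
      rw [show (0 : Dl V × Dl V × Dl V).2.1 = 0 from rfl, ← h2]
      exact Finset.sum_congr rfl fun l _ => by simp [TT, mul_smul]
    · rw [Prod.snd_sum, Prod.snd_sum]
      rw [show (0 : Dl V × Dl V × Dl V).2.2 = 0 from rfl, ← h3]
      exact Finset.sum_congr rfl fun l _ => by simp [TT, mul_smul]
  have hT' : ∀ l, l ≠ m → TT y l ∈ U := by
    intro l hl
    by_cases h0 : l = 0
    · rw [h0, hT0]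
      exact U.zero_mem
    · refine Submodule.subset_span ?_
      rw [Finset.coe_image]
      exact ⟨l, by simp [s, h0, hl], rfl⟩
  have hTm : TT y m ∈ U := by
    rw [← Finset.add_sum_erase Finset.univ _ (Finset.mem_univ m), hm1, one_smul] at hsum
    rw [eq_neg_of_add_eq_zero_left hsum]
    refine U.neg_mem (Submodule.sum_mem _ fun l hl => U.smul_mem _ (hT' l ?_))
    exact (Finset.mem_erase.1 hl).1
  have hT : ∀ l, TT y l ∈ U := fun l => by
    by_cases h : l = m
    · rw [h]; exact hTm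
    · exact hT' l h
  have hMU : A.map (rE v0 v1 v2) ≤ U := by
    rintro _ ⟨ω, hω, rfl⟩
    obtain ⟨d, hd⟩ := hcomb ω hω
    have h1 := hd (1, 0, 0)
    have h2 := hd (0, 1, 0)
    have h3 := hd (0, 0, 1)
    rw [io1] at h1
    rw [io2] at h2
    rw [io3] at h3
    have h4 : rE v0 v1 v2 ω = ∑ l : P3, d l • TT y l := by
      have : rE v0 v1 v2 ω = (ω v0, ω v1, ω v2) := rfl
      rw [this, h1, h2, h3]
      simp only [dt, mul_one, mul_zero, add_zero, zero_add]
      refine Prod.ext ?_ (Prod.ext ?_ ?_)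
      · rw [Prod.fst_sum]
        change (∑ x : P3, (d x * x.1) • y x) = _
        exact Finset.sum_congr rfl fun l _ => by simp [TT, mul_smul]
      · rw [Prod.snd_sum, Prod.fst_sum]
        change (∑ x : P3, (d x * x.2.1) • y x) = _
        exact Finset.sum_congr rfl fun l _ => by simp [TT, mul_smul]
      · rw [Prod.snd_sum, Prod.snd_sum]
        change (∑ x : P3, (d x * x.2.2) • y x) = _
        exact Finset.sum_congr rfl fun l _ => by simp [TT, mul_smul]
    rw [h4]
    exact Submodule.sum_mem _ fun l _ => U.smul_mem _ (hT l)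
  have : FiniteDimensional (ZMod 2) U := FiniteDimensional.span_finset _ _
  have heq : A.map (rE v0 v1 v2) = U :=
    Submodule.eq_of_le_of_finrank_le hMU (hU6.trans hcon')
  have hmem : TT y (1, 0, 0) ∈ A.map (rE v0 v1 v2) := heq ▸ hT _
  obtain ⟨ω, hω, hr⟩ := hmem
  obtain ⟨e, he⟩ := hC.bad (1, 0, 0) (by decide) ω hω
  apply he
  have hr' : (ω v0, ω v1, ω v2) = TT y (1, 0, 0) := hr
  have h1 : ω v0 = y (1, 0, 0) := by simpa [TT] using congrArg Prod.fst hr'
  have h2 : ω v1 = 0 := by simpa [TT] using congrArg (fun z => z.2.1) hr'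
  have h3 : ω v2 = 0 := by simpa [TT] using congrArg (fun z => z.2.2) hr'
  simp [io, dt, h1, h2, h3]

end Pool.Agent.H89M6.DIM
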