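import Mathlib

set_option autoImplicit false

/-!
A search through the subgroups of `F_2^7`.
-/

namespace Pool.Agent.H89M6

/-- the number of the bits of `U` at the places `r, r + 6, …, r + 252`, modulo 63 -/
def gr (U r : ℕ) : ℕ := Nat.mod (Nat.land (Nat.shiftRight U r) 7351878681734361614194983175154787800207618074008924700917941841772262199361) 63

/-- `U` has at least 35 bits -/
def gf (U : ℕ) : Bool :=
  Nat.ble 35 (Nat.add (Nat.add (gr U 0) (gr U 1)) (Nat.add (Nat.add (gr U 2) (gr U 3))
    (Nat.add (gr U 4) (gr U 5))))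

/-- union of the masks -/
def um (msk : ℕ → ℕ) : List ℕ → ℕ → ℕ
  | [], U => U
  | s :: S, U => um msk S (Nat.lor U (msk s))

/-- the search -/
def chk (msk : ℕ → ℕ) (leaf : List ℕ → Bool) : ℕ → List ℕ → ℕ → Bool
  | 0, S, U => gf U || leaf S
  | n + 1, S, U => gf U || (chk msk leaf n S U &&
      (List.range (2 ^ (6 - n))).all fun j =>
        (! S.all fun s => Nat.ble (Nat.add (2 ^ (6 - n)) j) (Nat.xor (Nat.add (2 ^ (6 - n)) j) s)) ||
        chk msk leaf n (S ++ S.map (fun s => Nat.xor (Nat.add (2 ^ (6 - n)) j) s))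
          (um msk (S.map (fun s => Nat.xor (Nat.add (2 ^ (6 - n)) j) s)) U))

end Pool.Agent.H89M6
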