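import Pool.Agent.H89M6.Stm

set_option autoImplicit false

namespace Pool.Agent.H89M6.ENG

open Pool.Agent.H89M6

theorem mod_le : ∀ (k n : ℕ), n < 64 ^ k → (∀ j, n.testBit j = true → 6 ∣ j) →
    n % 63 ≤ ∑ i ∈ Finset.range k, (n.testBit (6 * i)).toNat := by
  intro k
  induction k with
  | zero =>
    intro n hn _
    have : n = 0 := by simpa using hn
    simp [this]
  | succ k ih =>
    intro n hn hb
    have hsh : ∀ j, (n / 64).testBit j = n.testBit (j + 6) := by
      intro j
      have : n / 64 = n >>> 6 := by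
        rw [Nat.shiftRight_eq_div_pow]
      rw [this, Nat.testBit_shiftRight, Nat.add_comm]
    have h1 := ih (n / 64) (by
      rw [pow_succ] at hn
      exact Nat.div_lt_of_lt_mul (by rw [Nat.mul_comm]; exact hn)) (by
      intro j hj
      rw [hsh] at hj
      have := hb _ hj
      omega)
    have h2 : n % 64 = (n.testBit 0).toNat := by
      apply Nat.eq_of_testBit_eq
      intro j
      have e : (64 : ℕ) = 2 ^ 6 := by norm_num
      rw [e, Nat.testBit_mod_two_pow]
      by_cases hj : j = 0
      · subst hj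
        cases n.testBit 0 <;> rfl
      · have h3 : ((n.testBit 0).toNat).testBit j = false := by
          have hle : (n.testBit 0).toNat ≤ 1 := Bool.toNat_le _
          exact Nat.testBit_lt_two_pow (lt_of_le_of_lt hle (Nat.one_lt_two_pow hj))
        rw [h3]
        by_cases hj6 : j < 6
        · have h4 : n.testBit j = false := by
            by_contra hcon
            rw [Bool.not_eq_false] at hcon
            have := hb _ hcon
            omega
          rw [h4, Bool.and_false]
        · simp [hj6]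
    rw [Finset.sum_range_succ']
    have h5 : ∑ i ∈ Finset.range k, (n.testBit (6 * (i + 1))).toNat =
        ∑ i ∈ Finset.range k, ((n / 64).testBit (6 * i)).toNat := by
      refine Finset.sum_congr rfl fun i _ => ?_
      rw [hsh]
      congr 2
    rw [h5]
    have h6 : n % 63 ≤ n % 64 + (n / 64) % 63 := by omega
    have h7 : (n.testBit (6 * 0)).toNat = n % 64 := by rw [h2]
    omega

theorem mask_lt : (7351878681734361614194983175154787800207618074008924700917941841772262199361 : ℕ) <
    64 ^ 43 := by norm_num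

theorem mask_bit : ∀ j < 258, Nat.testBit
    7351878681734361614194983175154787800207618074008924700917941841772262199361 j = true →
    6 ∣ j := by decide +kernel

theorem gr_le (U r : ℕ) : gr U r ≤ ∑ i ∈ Finset.range 43, (U.testBit (6 * i + r)).toNat := by
  set M : ℕ := 7351878681734361614194983175154787800207618074008924700917941841772262199361 with hM
  have h1 : gr U r = ((U >>> r) &&& M) % 63 := rfl
  have hlt : (U >>> r) &&& M < 64 ^ 43 := lt_of_le_of_lt Nat.and_le_right mask_lt
  rw [h1]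
  refine (mod_le 43 _ hlt ?_).trans (Finset.sum_le_sum fun i _ => ?_)
  · intro j hj
    rw [Nat.testBit_and, Bool.and_eq_true] at hj
    refine mask_bit j ?_ hj.2
    by_contra hcon
    have : M < 2 ^ j := lt_of_lt_of_le mask_lt (by
      calc (64 : ℕ) ^ 43 = 2 ^ 258 := by
            rw [show (64 : ℕ) = 2 ^ 6 by norm_num, ← pow_mul]
        _ ≤ 2 ^ j := Nat.pow_le_pow_right (by norm_num) (by omega))
    have h3 := Nat.testBit_lt_two_pow this
    rw [h3] at hj
    exact absurd hj.2 (by decide)
  · rw [Nat.testBit_and, Nat.testBit_shiftRight, Nat.add_comm r]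
    cases U.testBit (6 * i + r) <;> cases M.testBit (6 * i) <;> decide

theorem gf_spec (U : ℕ) (h : gf U = true) : ∃ T : Finset ℕ, T.card = 35 ∧
    ∀ v ∈ T, U.testBit v = true := by
  classical
  have h1 : 35 ≤ (gr U 0 + gr U 1) + ((gr U 2 + gr U 3) + (gr U 4 + gr U 5)) := by
    have : Nat.ble 35 ((gr U 0 + gr U 1) + ((gr U 2 + gr U 3) + (gr U 4 + gr U 5))) = true := h
    rwa [Nat.ble_eq] at this
  let T0 : Finset (ℕ × ℕ) := (Finset.range 6 ×ˢ Finset.range 43).filter
    (fun p => U.testBit (6 * p.2 + p.1) = true)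
  have hc : T0.card = ∑ r ∈ Finset.range 6, ∑ i ∈ Finset.range 43,
      (U.testBit (6 * i + r)).toNat := by
    rw [Finset.card_filter, Finset.sum_product]
    refine Finset.sum_congr rfl fun r _ => Finset.sum_congr rfl fun i _ => ?_
    cases U.testBit (6 * i + r) <;> rfl
  have h2 : 35 ≤ T0.card := by
    rw [hc]
    have e6 : ∀ f : ℕ → ℕ, ∑ r ∈ Finset.range 6, f r =
        (f 0 + f 1) + ((f 2 + f 3) + (f 4 + f 5)) := by
      intro f
      simp only [Finset.sum_range_succ, Finset.sum_range_zero]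
      ring
    rw [e6]
    have g0 := gr_le U 0
    have g1 := gr_le U 1
    have g2 := gr_le U 2
    have g3 := gr_le U 3
    have g4 := gr_le U 4
    have g5 := gr_le U 5
    omega
  have hinj : Set.InjOn (fun p : ℕ × ℕ => 6 * p.2 + p.1) T0 := by
    rintro ⟨a, b⟩ hab ⟨c, d⟩ hcd heq
    have e1 := (Finset.mem_product.1 (Finset.mem_filter.1 hab).1).1
    have e2 := (Finset.mem_product.1 (Finset.mem_filter.1 hcd).1).1
    rw [Finset.mem_range] at e1 e2
    have heq' : 6 * b + a = 6 * d + c := heq
    have e1' : a < 6 := e1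
    have e2' : c < 6 := e2
    have : a = c ∧ b = d := by omega
    rw [this.1, this.2]
  have h3 : 35 ≤ (T0.image (fun p : ℕ × ℕ => 6 * p.2 + p.1)).card := by
    rwa [Finset.card_image_of_injOn hinj]
  obtain ⟨T, hT, hT'⟩ := Finset.exists_subset_card_eq h3
  refine ⟨T, hT', fun v hv => ?_⟩
  obtain ⟨p, hp, rfl⟩ := Finset.mem_image.1 (hT hv)
  exact (Finset.mem_filter.1 hp).2

theorem um_spec (msk : ℕ → ℕ) : ∀ (S : List ℕ) (U v : ℕ), (um msk S U).testBit v = true →
    U.testBit v = true ∨ ∃ s ∈ S, (msk s).testBit v = true := by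
  intro S
  induction S with
  | nil => intro U v h; exact Or.inl h
  | cons s S ih =>
    intro U v h
    rcases ih _ _ h with h1 | ⟨s', h1, h2⟩
    · have h3 : (U ||| msk s).testBit v = true := h1
      rw [Nat.testBit_or, Bool.or_eq_true] at h3
      rcases h3 with h3 | h3
      · exact Or.inl h3
      · exact Or.inr ⟨s, List.mem_cons_self, h3⟩
    · exact Or.inr ⟨s', List.mem_cons_of_mem _ h1, h2⟩

theorem xor_lt {i a w : ℕ} (h1 : 2 ^ i ≤ w) (h2 : w < 2 ^ (i + 1)) (h3 : 2 ^ i ≤ a)
    (h4 : a < 2 ^ (i + 1)) : a ^^^ w < 2 ^ i := by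
  apply Nat.lt_pow_two_of_testBit
  intro j hj
  rw [Nat.testBit_xor]
  have key : ∀ b, 2 ^ i ≤ b → b < 2 ^ (i + 1) → b.testBit j = decide (j = i) := by
    intro b hb hb'
    by_cases hji : j = i
    · subst hji
      have : b / 2 ^ j = 1 := by
        apply Nat.div_eq_of_lt_le
        · omega
        · rw [pow_succ] at hb'; omega
      rw [Nat.testBit_eq_decide_div_mod_eq, this]
      simp
    · have : b < 2 ^ j := lt_of_lt_of_le hb' (Nat.pow_le_pow_right (by norm_num) (by omega))
      rw [Nat.testBit_lt_two_pow this]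
      simp [hji]
  rw [key a h3 h4, key w h1 h2]
  simp

theorem xor_ge {i a w : ℕ} (h1 : 2 ^ i ≤ w) (h2 : w < 2 ^ (i + 1)) (h3 : a < 2 ^ i) :
    2 ^ i ≤ w ^^^ a ∧ w ^^^ a < 2 ^ (i + 1) := by
  constructor
  · by_contra hcon
    push Not at hcon
    have h4 := Nat.xor_lt_two_pow hcon h3
    rw [Nat.xor_assoc, Nat.xor_self, Nat.xor_zero] at h4
    omega
  · exact Nat.xor_lt_two_pow h2 (lt_of_lt_of_le h3 (Nat.pow_le_pow_right (by norm_num) (by omega)))

section
variable (msk : ℕ → ℕ) (leaf : List ℕ → Bool) (C : ℕ → Prop)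

theorem main (hC : ∀ a b, C a → C b → C (a ^^^ b)) (h128 : ∀ a, C a → a < 128) :
    ∀ n, n ≤ 7 → ∀ S U, (∀ c, c ∈ S ↔ C c ∧ c < 2 ^ (7 - n)) →
    (∀ v, U.testBit v = true → ∃ s, C s ∧ (msk s).testBit v = true) →
    chk msk leaf n S U = true →
    (∃ T : Finset ℕ, T.card = 35 ∧ ∀ v ∈ T, ∃ s, C s ∧ (msk s).testBit v = true) ∨
      ∃ S : List ℕ, (∀ c, c ∈ S ↔ C c) ∧ leaf S = true := by
  intro n
  have hge : ∀ U, (∀ v, U.testBit v = true → ∃ s, C s ∧ (msk s).testBit v = true) →
      gf U = true →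
      (∃ T : Finset ℕ, T.card = 35 ∧ ∀ v ∈ T, ∃ s, C s ∧ (msk s).testBit v = true) := by
    intro U hU h
    obtain ⟨T, h1, h2⟩ := gf_spec _ h
    exact ⟨T, h1, fun v hv => hU v (h2 v hv)⟩
  induction n with
  | zero =>
    intro _ S U hS hU h
    rw [chk, Bool.or_eq_true] at h
    rcases h with h | h
    · exact Or.inl (hge U hU h)
    · refine Or.inr ⟨S, fun c => ?_, h⟩
      rw [hS]
      exact ⟨fun h => h.1, fun h => ⟨h, h128 _ h⟩⟩
  | succ n ih =>
    intro hn S U hS hU h
    rw [chk, Bool.or_eq_true, Bool.and_eq_true] at h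
    rcases h with h | ⟨h1, h2⟩
    · exact Or.inl (hge U hU h)
    have e1 : 7 - (n + 1) = 6 - n := by omega
    have e2 : 7 - n = (6 - n) + 1 := by omega
    rw [e1] at hS
    by_cases hex : ∃ c, C c ∧ 2 ^ (6 - n) ≤ c ∧ c < 2 ^ (7 - n)
    · classical
      let w := Nat.find hex
      obtain ⟨w1, w2, w3⟩ := Nat.find_spec hex
      have wmin : ∀ c, C c → 2 ^ (6 - n) ≤ c → c < 2 ^ (7 - n) → w ≤ c :=
        fun c h4 h5 h6 => Nat.find_min' hex ⟨h4, h5, h6⟩
      have w1' : C w := w1
      have w2' : 2 ^ (6 - n) ≤ w := w2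
      have w3' : w < 2 ^ ((6 - n) + 1) := by rw [← e2]; exact w3
      rw [List.all_eq_true] at h2
      have h3 := h2 (w - 2 ^ (6 - n)) (by
        rw [List.mem_range]
        rw [pow_succ] at w3'
        omega)
      have e3 : Nat.add (2 ^ (6 - n)) (w - 2 ^ (6 - n)) = w := by
        show 2 ^ (6 - n) + (w - 2 ^ (6 - n)) = w
        omega
      rw [e3] at h3
      have hfil : (S.all fun s => Nat.ble w (Nat.xor w s)) = true := by
        rw [List.all_eq_true]
        intro s hs
        obtain ⟨s1, s2⟩ := (hS s).1 hs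
        have := xor_ge w2' w3' s2
        rw [Nat.ble_eq]
        exact wmin _ (hC _ _ w1' s1) this.1 (by rw [e2]; exact this.2)
      rw [hfil] at h3
      have h4 : chk msk leaf n (S ++ S.map (fun s => Nat.xor w s))
          (um msk (S.map (fun s => Nat.xor w s)) U) = true := by simpa using h3
      refine ih (by omega) _ _ ?_ ?_ h4
      · intro c
        rw [List.mem_append, List.mem_map, hS]
        constructor
        · rintro (⟨h5, h6⟩ | ⟨s, h5, rfl⟩)
          · refine ⟨h5, lt_of_lt_of_le h6 (Nat.pow_le_pow_right (by norm_num) (by omega))⟩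
          · obtain ⟨s1, s2⟩ := (hS s).1 h5
            refine ⟨hC _ _ w1' s1, ?_⟩
            rw [e2]
            exact (xor_ge w2' w3' s2).2
        · rintro ⟨h5, h6⟩
          by_cases h7 : c < 2 ^ (6 - n)
          · exact Or.inl ⟨h5, h7⟩
          · push Not at h7
            refine Or.inr ⟨c ^^^ w, ?_, ?_⟩
            · rw [hS]
              refine ⟨hC _ _ h5 w1', ?_⟩
              rw [e2] at h6
              exact xor_lt w2' w3' h7 h6
            · show w ^^^ (c ^^^ w) = c
              rw [Nat.xor_comm c w, ← Nat.xor_assoc, Nat.xor_self, Nat.zero_xor]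
      · intro v hv
        rcases um_spec msk _ _ _ hv with h5 | ⟨s, h5, h6⟩
        · exact hU v h5
        · obtain ⟨s', h7, rfl⟩ := List.mem_map.1 h5
          exact ⟨_, hC _ _ w1' ((hS s').1 h7).1, h6⟩
    · refine ih (by omega) S U ?_ hU h1
      intro c
      rw [hS]
      constructor
      · rintro ⟨h5, h6⟩
        exact ⟨h5, lt_of_lt_of_le h6 (Nat.pow_le_pow_right (by norm_num) (by omega))⟩
      · rintro ⟨h5, h6⟩
        refine ⟨h5, ?_⟩
        by_contra h7
        push Not at h7
        exact hex ⟨c, h5, h7, h6⟩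

end

theorem t : S_ENG := by
  intro msk leaf hchk C h0 hC h128 α X Φ hX h34 hval
  rcases main msk leaf C hC h128 7 le_rfl [0] (msk 0) (by
    intro c
    rw [List.mem_singleton]
    constructor
    · rintro rfl; exact ⟨h0, by norm_num⟩
    · rintro ⟨-, h2⟩
      simpa using h2) (fun v hv => ⟨0, h0, hv⟩) hchk with ⟨T, h1, h2⟩ | h
  · exfalso
    have h3 : (T : Set ℕ) ⊆ Φ '' X := by
      intro v hv
      obtain ⟨s, h4, h5⟩ := h2 v hv
      obtain ⟨x, h6, h7⟩ := hval s h4 v h5
      exact ⟨x, h6, h7⟩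
    have h4 := Set.ncard_le_ncard h3 (hX.image Φ)
    have h5 := Set.ncard_image_le (f := Φ) hX
    rw [Set.ncard_coe_finset, h1] at h4
    omega
  · exact h

end Pool.Agent.H89M6.ENG
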