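import Pool.Agent.H89M6.Main
import Pool.Agent.H89FL.Field

set_option autoImplicit false
set_option linter.unusedSectionVars false

/-! Fields with at most 34 quaternion algebras. -/

namespace Pool.Agent.H89M6

open Pool.Agent.H315R3.ETC Pool.Agent.TH188.ET Pool.Agent.W622.ETG Pool.Agent.H89FL
open Pool.Agent.H89M5 (P3 io)

theorem zcase (c : ZMod 2) : c = 0 ∨ c = 1 := by revert c; decide

/-- the main theorem -/
theorem field34 (hCA : S_CA) (hCB : S_CB) {F : Type*} [Field F] (h2 : (2 : F) ≠ 0)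
    (hfin : FinSq F) (h : ∀ w x y z : Fˣ, ∃ l : Fin 34 → Fˣ × Fˣ,
      ∀ g ∈ Subgroup.closure {w, x, y, z}, ∀ b : Fˣ, ∃ i, QIso g b (l i).1 (l i).2) :
    ∃ S : QData, Elem S ∧ IsStructureOf F S := by
  obtain ⟨S, hS, hSfin, hSq⟩ := exists_structure h2 hfin
  refine ⟨S, ?_, hS⟩
  obtain ⟨φ, hs, hk, hn, h0, hq⟩ := hS
  have hs' := hs
  choose r hr using hs'
  obtain ⟨H, hφ⟩ := sys h2 hSq hSfin φ hk hq h0 r hr
  let _ : Module (ZMod 2) (Additive S.G) := AddCommGroup.zmodModule (n := 2) (by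
    intro x
    rw [two_smul]
    exact hSq.exp2 x.toMul)
  have hfinV : Finite (Additive S.G) := H.fin
  refine elem_of_hered H (hered6 hCA hCB (fam_efam H _) (linked_fam H (linkedG_bot H)) ?_)
  intro v0 v1 v2 v3
  obtain ⟨l, hl⟩ := h (r v0.toMul) (r v1.toMul) (r v2.toMul) (r v3.toMul)
  set W : Subgroup Fˣ := Subgroup.closure {r v0.toMul, r v1.toMul, r v2.toMul, r v3.toMul} with hW
  have m0 : ∀ c : ZMod 2, ∃ g ∈ W, φ g = (c • v0).toMul := by
    intro c
    rcases zcase c with rfl | rfl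
    · exact ⟨1, W.one_mem, by rw [zero_smul, map_one]; rfl⟩
    · exact ⟨r v0.toMul, Subgroup.subset_closure (by simp), by rw [hr, one_smul]⟩
  have m1 : ∀ c : ZMod 2, ∃ g ∈ W, φ g = (c • v1).toMul := by
    intro c
    rcases zcase c with rfl | rfl
    · exact ⟨1, W.one_mem, by rw [zero_smul, map_one]; rfl⟩
    · exact ⟨r v1.toMul, Subgroup.subset_closure (by simp), by rw [hr, one_smul]⟩
  have m2 : ∀ c : ZMod 2, ∃ g ∈ W, φ g = (c • v2).toMul := by
    intro c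
    rcases zcase c with rfl | rfl
    · exact ⟨1, W.one_mem, by rw [zero_smul, map_one]; rfl⟩
    · exact ⟨r v2.toMul, Subgroup.subset_closure (by simp), by rw [hr, one_smul]⟩
  have m3 : ∀ c : ZMod 2, ∃ g ∈ W, φ g = (c • v3).toMul := by
    intro c
    rcases zcase c with rfl | rfl
    · exact ⟨1, W.one_mem, by rw [zero_smul, map_one]; rfl⟩
    · exact ⟨r v3.toMul, Subgroup.subset_closure (by simp), by rw [hr, one_smul]⟩
  have hsub : vals4 (fam H (⊥ : AddSubgroup (K2 F))) v0 v1 v2 v3 ⊆ Set.range (fun i : Fin 34 =>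
      fun ω : fam H (⊥ : AddSubgroup (K2 F)) =>
        ω.1 (Additive.ofMul (φ (l i).1)) (Additive.ofMul (φ (l i).2))) := by
    rintro _ ⟨u, c, z, rfl⟩
    obtain ⟨g0, hg0, e0⟩ := m0 u.1
    obtain ⟨g1, hg1, e1⟩ := m1 u.2.1
    obtain ⟨g2, hg2, e2⟩ := m2 u.2.2
    obtain ⟨g3, hg3, e3⟩ := m3 c
    have hg : g0 * g1 * g2 * g3 ∈ W := W.mul_mem (W.mul_mem (W.mul_mem hg0 hg1) hg2) hg3
    have eg : φ (g0 * g1 * g2 * g3) = (io v0 v1 v2 u + c • v3).toMul := by
      rw [map_mul, map_mul, map_mul, e0, e1, e2, e3]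
      rfl
    obtain ⟨i, hi⟩ := hl _ hg (r z.toMul)
    refine ⟨i, ?_⟩
    funext ω
    have h3 : S.q (φ (g0 * g1 * g2 * g3)) (φ (r z.toMul)) = S.q (φ (l i).1) (φ (l i).2) :=
      (hq _ _ _ _).2 hi
    rw [eg, hr] at h3
    have h4 : sy (F := F) (r (io v0 v1 v2 u + c • v3).toMul) (r z.toMul) +
        sy (F := F) (r (φ (l i).1)) (r (φ (l i).2)) ∈ (⊥ : AddSubgroup (K2 F)) := by
      rw [AddSubgroup.mem_bot]
      exact H.eqz.2 ((H.iff _ _ _ _).2 h3)
    exact (eq_of_mem H h4 ω.2).symm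
  refine (Set.ncard_le_ncard hsub (Set.finite_range _)).trans ?_
  rw [← Set.image_univ]
  refine (Set.ncard_image_le Set.finite_univ).trans ?_
  rw [Set.ncard_univ, Nat.card_eq_fintype_card, Fintype.card_fin]

end Pool.Agent.H89M6
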