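import Pool.Agent.H89M6.Fin
import Pool.Agent.H89M5.Field

set_option autoImplicit false
set_option linter.unusedSectionVars false

/-! Fields with at most 34 symbols modulo a subgroup. -/

namespace Pool.Agent.H89M6

open Pool.Agent.H315R3.ETC Pool.Agent.TH188.ET Pool.Agent.W622.ETG Pool.Agent.H89FL
open Pool.Agent.H89M5 (P3 io elem_fam structure_mod)

universe u v

section
variable {S : QData} {B : Type v} [AddCommGroup B] {β : S.G → S.G → B}
variable [Module (ZMod 2) (Additive S.G)]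

theorem hered34 (H : Sys S β) {C : AddSubgroup B} (hL : LinkedG β C)
    (h : ∀ w x y z : S.G, ∃ l : Fin 34 → S.G × S.G,
      ∀ g ∈ Subgroup.closure {w, x, y, z}, ∀ b : S.G, ∃ i, β g b + β (l i).1 (l i).2 ∈ C) :
    Hered (fam H C) := by
  have hfinV : Finite (Additive S.G) := H.fin
  refine hered6 CX.t CY.t (fam_efam H C) (linked_fam H hL) ?_
  intro v0 v1 v2 v3
  obtain ⟨l, hl⟩ := h v0.toMul v1.toMul v2.toMul v3.toMul
  set W : Subgroup S.G := Subgroup.closure {v0.toMul, v1.toMul, v2.toMul, v3.toMul} with hW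
  have m : ∀ (v : Additive S.G), v.toMul ∈ W → ∀ c : ZMod 2, (c • v).toMul ∈ W := by
    intro v hv c
    rcases zcase c with rfl | rfl
    · rw [zero_smul]; exact W.one_mem
    · rw [one_smul]; exact hv
  have m0 := m v0 (Subgroup.subset_closure (by simp))
  have m1 := m v1 (Subgroup.subset_closure (by simp))
  have m2 := m v2 (Subgroup.subset_closure (by simp))
  have m3 := m v3 (Subgroup.subset_closure (by simp))
  have hsub : vals4 (fam H C) v0 v1 v2 v3 ⊆ Set.range (fun i : Fin 34 =>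
      fun ω : fam H C => ω.1 (Additive.ofMul (l i).1) (Additive.ofMul (l i).2)) := by
    rintro _ ⟨u, c, z, rfl⟩
    have hg : (io v0 v1 v2 u + c • v3).toMul ∈ W :=
      W.mul_mem (W.mul_mem (W.mul_mem (m0 u.1) (m1 u.2.1)) (m2 u.2.2)) (m3 c)
    obtain ⟨i, hi⟩ := hl _ hg z.toMul
    refine ⟨i, ?_⟩
    funext ω
    exact (eq_of_mem H hi ω.2).symm
  refine (Set.ncard_le_ncard hsub (Set.finite_range _)).trans ?_
  rw [← Set.image_univ]
  refine (Set.ncard_image_le Set.finite_univ).trans ?_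
  rw [Set.ncard_univ, Nat.card_eq_fintype_card, Fintype.card_fin]

end

/-- the main theorem -/
theorem field34C {F : Type*} [Field F] (h2 : (2 : F) ≠ 0) (hfin : FinSq F) :
    (∀ (k : ℕ) (C : ℕ → AddSubgroup (K2 F)), LinkedChain F k C →
      (∀ w x y z : Fˣ, ∃ l : Fin 34 → Fˣ × Fˣ, ∀ g ∈ Subgroup.closure {w, x, y, z}, ∀ b : Fˣ,
        ∃ i, sy g b - sy (l i).1 (l i).2 ∈ C k) →
      ∃ S : QData, Elem S ∧ IsStructureOf F S) ∧
    (∀ C : AddSubgroup (K2 F), LinkedMod F C →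
      (∀ w x y z : Fˣ, ∃ l : Fin 34 → Fˣ × Fˣ, ∀ g ∈ Subgroup.closure {w, x, y, z}, ∀ b : Fˣ,
        ∃ i, sy g b - sy (l i).1 (l i).2 ∈ C) →
      ElementaryMod F C) := by
  obtain ⟨S, hS, hSfin, hSq⟩ := exists_structure h2 hfin
  have hS' := hS
  obtain ⟨φ, hs, hk, hn, h0, hq⟩ := hS'
  have hs' := hs
  choose r hr using hs'
  obtain ⟨H, hφ⟩ := sys h2 hSq hSfin φ hk hq h0 r hr
  let _ : Module (ZMod 2) (Additive S.G) := AddCommGroup.zmodModule (n := 2) (by
    intro x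
    rw [two_smul]
    exact hSq.exp2 x.toMul)
  have hL := fun C => linkedMod_iff (F := F) φ r hr hφ C
  have hcond : ∀ C : AddSubgroup (K2 F),
      (∀ w x y z : Fˣ, ∃ l : Fin 34 → Fˣ × Fˣ, ∀ g ∈ Subgroup.closure {w, x, y, z}, ∀ b : Fˣ,
        ∃ i, sy g b - sy (l i).1 (l i).2 ∈ C) →
      ∀ w x y z : S.G, ∃ l : Fin 34 → S.G × S.G,
        ∀ g ∈ Subgroup.closure {w, x, y, z}, ∀ b : S.G,
          ∃ i, sy (F := F) (r g) (r b) + sy (r (l i).1) (r (l i).2) ∈ C := by
    intro C hC w x y z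
    obtain ⟨l, hl⟩ := hC (r w) (r x) (r y) (r z)
    refine ⟨fun i => (φ (l i).1, φ (l i).2), ?_⟩
    intro g hg b
    have h1 : ({w, x, y, z} : Set S.G) = φ '' {r w, r x, r y, r z} := by
      simp only [Set.image_insert_eq, Set.image_singleton, hr]
    rw [h1, ← MonoidHom.map_closure] at hg
    obtain ⟨g', hg', rfl⟩ := hg
    obtain ⟨i, hi⟩ := hl g' hg' (r b)
    refine ⟨i, ?_⟩
    show sy (r (φ g')) (r b) + sy (r (φ (l i).1)) (r (φ (l i).2)) ∈ C
    rw [hφ (l i).1 (l i).2]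
    have h3 := hφ g' (r b)
    rw [hr] at h3
    rw [h3, ← sub_eq]
    exact hi
  refine ⟨?_, ?_⟩
  · intro k C hC h3
    have hC' : ChainG (fun g h => sy (F := F) (r g) (r h)) k C :=
      ⟨hC.zero, hC.index, fun i hi => (hL _).1 (hC.linked i hi)⟩
    exact ⟨S, elem_of_hered H (hered_chain H hC'
      (hered34 H (hC'.link k le_rfl) (hcond _ h3))), hS⟩
  · intro C hC h3
    exact ⟨_, elem_fam H (hered34 H ((hL _).1 hC) (hcond _ h3)),
      structure_mod φ hs hk hn r hφ H C⟩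

end Pool.Agent.H89M6
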