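import Pool.Agent.H89M6.Field
import Pool.Agent.H89M6.CXm
import Pool.Agent.H89M6.CYm

set_option autoImplicit false

/-! At most 34 quaternion algebras: the end of the proof. -/

namespace Pool.Agent.H89M6

open Pool.Agent.H315R3.ETC Pool.Agent.TH188.ET

/-- At most 34 quaternion algebras with a slot in the subgroup generated by any four elements imply
elementary type. -/
theorem elem34 {F : Type*} [Field F] (h2 : (2 : F) ≠ 0) (hfin : FinSq F)
    (h : ∀ w x y z : Fˣ, ∃ l : Fin 34 → Fˣ × Fˣ, ∀ g ∈ Subgroup.closure {w, x, y, z}, ∀ b : Fˣ,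
      ∃ i, QIso g b (l i).1 (l i).2) :
    ∃ S : QData, Elem S ∧ IsStructureOf F S :=
  field34 CX.t CY.t h2 hfin h

end Pool.Agent.H89M6
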