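import Pool.Agent.H89M6.Stm

set_option autoImplicit false
set_option linter.unusedSectionVars false

/-!
Project M6, stub N28 (helper73): a normal form has at least 28 values.
-/

namespace Pool.Agent.H89M6.N28

open Module Pool.Agent.W622.ETG Pool.Agent.H89M5

/-- the values at five members -/
def W (k s0 s1 s2 π ρ ε : ZMod 2) : ZMod 2 × ZMod 2 × ZMod 2 × ZMod 2 × ZMod 2 :=
  (ε * k + ρ * s0, ε * k + π * s1, ε * k + (π + ρ) * s2, ρ * k, π * k)

abbrev Q6 : Type := ZMod 2 × ZMod 2 × ZMod 2 × ZMod 2 × ZMod 2 × ZMod 2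

theorem D1 : ∀ α β c : ZMod 2, (α ≠ 0 ∨ β ≠ 0) → 28 ≤ (Finset.univ.image fun q : Q6 =>
    W q.1 q.2.1 q.2.2.1 (α * q.2.1 + β * q.2.2.1 + c * q.1) q.2.2.2.1 q.2.2.2.2.1 q.2.2.2.2.2).card := by
  decide +kernel

theorem D2 : ∀ c : ZMod 2, 28 ≤ (Finset.univ.image fun q : Q6 =>
    W q.1 q.2.1 (q.2.1 + c * q.1) q.2.2.1 q.2.2.2.1 q.2.2.2.2.1 q.2.2.2.2.2).card := by
  decide +kernel

theorem zc (c : ZMod 2) : c = 0 ∨ c = 1 := by
  revert c
  decide

section
variable {V : Type} [AddCommGroup V] [Module (ZMod 2) V]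

theorem surj {n : ℕ} (f : Fin n → Dl V) (hf : ∀ r : Fin n → ZMod 2, ∑ i, r i • f i = 0 → r = 0)
    (v : Fin n → ZMod 2) : ∃ z, ∀ i, f i z = v i := by
  have hr : LinearMap.range (LinearMap.pi f : V →ₗ[ZMod 2] (Fin n → ZMod 2)) = ⊤ := by
    by_contra h
    obtain ⟨g, hg0, hg⟩ := Submodule.exists_le_ker_of_lt_top _ (lt_top_iff_ne_top.2 h)
    have h1 : (fun i => g (Pi.single i 1)) = 0 := by
      apply hf
      ext z
      have h2 : g (fun i => f i z) = 0 := hg ⟨z, rfl⟩
      have h3 : (fun i => f i z) = ∑ i, (f i z) • (Pi.single i 1 : Fin n → ZMod 2) := by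
        funext j
        simp [Finset.sum_apply, Pi.single_apply]
      rw [h3, map_sum] at h2
      simp only [map_smul, smul_eq_mul] at h2
      rw [LinearMap.sum_apply, LinearMap.zero_apply, ← h2]
      refine Finset.sum_congr rfl fun i _ => ?_
      rw [LinearMap.smul_apply, smul_eq_mul, mul_comm]
    apply hg0
    refine LinearMap.pi_ext' fun i => ?_
    ext
    exact congrFun h1 i
  obtain ⟨z, hz⟩ := (LinearMap.range_eq_top.1 hr) v
  exact ⟨z, fun i => congrFun hz i⟩

variable {A : Fam V} {p : Fin 3 → V} {a : V} {h : Dl V} {x : Fin 3 → Dl V} {F G : Fin 3 → Frm V}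

/-- the evaluation at five members -/
def Psi (N : Nd A p a h x F G) (f : A → ZMod 2) : ZMod 2 × ZMod 2 × ZMod 2 × ZMod 2 × ZMod 2 :=
  (f ⟨F 0, N.memF 0⟩, f ⟨F 1, N.memF 1⟩, f ⟨F 2, N.memF 2⟩, f ⟨G 0, N.memG 0⟩, f ⟨G 1, N.memG 1⟩)

theorem psi_val (N : Nd A p a h x F G) (z : V) (π ρ ε : ZMod 2) :
    Psi N (fun ω => ω.1 (io (p 0) (p 1) a (π, ρ, ε)) z) = W (h z) (x 0 z) (x 1 z) (x 2 z) π ρ ε := by
  unfold Psi W io
  refine Prod.ext ?_ (Prod.ext ?_ (Prod.ext ?_ (Prod.ext ?_ ?_))) <;> simp [N.Fa, N.Ga, N.Fp, N.Gp] <;> ring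

theorem core [Finite V] (N : Nd A p a h x F G) (P : Q6 → ZMod 2 × ZMod 2 × ZMod 2 × ZMod 2 × ZMod 2)
    (hP : 28 ≤ (Finset.univ.image P).card)
    (hz : ∀ q, ∃ z, P q = W (h z) (x 0 z) (x 1 z) (x 2 z) q.2.2.2.1 q.2.2.2.2.1 q.2.2.2.2.2) :
    28 ≤ (vals A (p 0) (p 1) a).ncard := by
  have hfin : Finite A := by
    have : Finite (Dl V) := DFunLike.finite _
    have : Finite (Frm V) := DFunLike.finite _
    infer_instance
  have hvf : (vals A (p 0) (p 1) a).Finite := Set.toFinite _
  have hsub : ((Finset.univ.image P : Finset _) : Set (ZMod 2 × ZMod 2 × ZMod 2 × ZMod 2 × ZMod 2)) ⊆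
      Psi N '' vals A (p 0) (p 1) a := by
    intro w hw
    rw [Finset.mem_coe, Finset.mem_image] at hw
    obtain ⟨q, _, rfl⟩ := hw
    obtain ⟨z, hz⟩ := hz q
    refine ⟨fun ω => ω.1 (io (p 0) (p 1) a (q.2.2.2.1, q.2.2.2.2.1, q.2.2.2.2.2)) z, ⟨_, z, rfl⟩, ?_⟩
    rw [psi_val, hz]
  calc 28 ≤ (Finset.univ.image P).card := hP
    _ = ((Finset.univ.image P : Finset _) : Set (ZMod 2 × ZMod 2 × ZMod 2 × ZMod 2 × ZMod 2)).ncard :=
        (Set.ncard_coe_finset _).symm
    _ ≤ (Psi N '' vals A (p 0) (p 1) a).ncard := Set.ncard_le_ncard hsub (hvf.image _)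
    _ ≤ (vals A (p 0) (p 1) a).ncard := Set.ncard_image_le hvf

end

theorem t : S_N28 := by
  intro V _ _ _ A p a h x F G N h0
  have e2 : ∀ {v w : Dl V}, v + w = 0 → v = w := fun {v w} hvw => Pool.Agent.H89FL.aez.1 hvw
  have hx : ∀ (i : Fin 3) (c : ZMod 2), x i ≠ c • h := by
    intro i c hc
    exact N.x_ne i c (Pool.Agent.H89FL.aez.2 hc)
  have hi : ∀ s t : ZMod 2, ¬ (x 1 = x 0 + s • h ∧ x 2 = x 0 + t • h) := by
    rintro s t ⟨h1, h2⟩
    refine N.i2 s t ?_ ?_
    · rw [add_right_comm, Pool.Agent.H89FL.aez, h1]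
    · rw [add_right_comm, Pool.Agent.H89FL.aez, h2]
  by_cases hA : ∃ α β c : ZMod 2, (α ≠ 0 ∨ β ≠ 0) ∧ x 2 = α • x 0 + β • x 1 + c • h
  · obtain ⟨α, β, c, hab, h2⟩ := hA
    have hne : ∀ s : ZMod 2, x 1 ≠ x 0 + s • h := by
      intro s hs
      rcases zc α with rfl | rfl <;> rcases zc β with rfl | rfl
      · rcases hab with hh | hh <;> exact hh rfl
      · refine hi s (s + c) ⟨hs, ?_⟩
        rw [h2, hs, zero_smul, one_smul, zero_add, add_smul, add_assoc]
      · refine hi s c ⟨hs, ?_⟩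
        rw [h2, zero_smul, one_smul, add_zero]
      · refine hx 2 (s + c) ?_
        rw [h2, hs, one_smul, one_smul, ← add_assoc, Pool.Agent.H89FL.aez.2 rfl, zero_add, add_smul]
    have hind : ∀ r : Fin 3 → ZMod 2, ∑ i, r i • (![h, x 0, x 1] : Fin 3 → Dl V) i = 0 → r = 0 := by
      intro r hr
      rw [Fin.sum_univ_three] at hr
      simp only [Matrix.cons_val_zero, Matrix.cons_val_one, Matrix.cons_val] at hr
      rcases zc (r 1) with h1 | h1 <;> rcases zc (r 2) with h3 | h3 <;> rw [h1, h3] at hr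
      · rw [zero_smul, zero_smul, add_zero, add_zero] at hr
        rcases smul_eq_zero.1 hr with h4 | h4
        · funext i
          fin_cases i <;> assumption
        · exact absurd h4 h0
      · rw [zero_smul, one_smul, add_zero] at hr
        exact absurd (e2 hr).symm (hx 1 _)
      · rw [zero_smul, one_smul, add_zero] at hr
        exact absurd (e2 hr).symm (hx 0 _)
      · rw [one_smul, one_smul] at hr
        refine absurd ?_ (hne (r 0))
        rw [← e2 hr, add_comm]
    refine core N _ (D1 α β c hab) fun q => ?_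
    obtain ⟨z, hz⟩ := surj _ hind ![q.1, q.2.1, q.2.2.1]
    refine ⟨z, ?_⟩
    have z0 : h z = q.1 := hz 0
    have z1 : x 0 z = q.2.1 := hz 1
    have z2 : x 1 z = q.2.2.1 := hz 2
    have z3 : x 2 z = α * q.2.1 + β * q.2.2.1 + c * q.1 := by
      rw [h2, ← z0, ← z1, ← z2]
      rfl
    rw [z0, z1, z2, z3]
  · have hA' : ∀ α β c : ZMod 2, x 2 ≠ α • x 0 + β • x 1 + c • h := by
      intro α β c hc
      by_cases hab : α ≠ 0 ∨ β ≠ 0
      · exact hA ⟨α, β, c, hab, hc⟩
      · push Not at hab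
        rw [hab.1, hab.2, zero_smul, zero_smul, add_zero, zero_add] at hc
        exact hx 2 c hc
    by_cases hB : ∃ c : ZMod 2, x 1 = x 0 + c • h
    · obtain ⟨c, h1⟩ := hB
      have hind : ∀ r : Fin 3 → ZMod 2, ∑ i, r i • (![h, x 0, x 2] : Fin 3 → Dl V) i = 0 → r = 0 := by
        intro r hr
        rw [Fin.sum_univ_three] at hr
        simp only [Matrix.cons_val_zero, Matrix.cons_val_one, Matrix.cons_val] at hr
        rcases zc (r 2) with h3 | h3 <;> rw [h3] at hr
        · rw [zero_smul, add_zero] at hr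
          rcases zc (r 1) with h4 | h4 <;> rw [h4] at hr
          · rw [zero_smul, add_zero] at hr
            rcases smul_eq_zero.1 hr with h5 | h5
            · funext i
              fin_cases i <;> assumption
            · exact absurd h5 h0
          · rw [one_smul] at hr
            exact absurd (e2 hr).symm (hx 0 _)
        · rw [one_smul] at hr
          refine absurd ?_ (hA' (r 1) 0 (r 0))
          rw [← e2 hr, zero_smul, add_zero, add_comm]
      refine core N _ (D2 c) fun q => ?_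
      obtain ⟨z, hz⟩ := surj _ hind ![q.1, q.2.1, q.2.2.1]
      refine ⟨z, ?_⟩
      have z0 : h z = q.1 := hz 0
      have z1 : x 0 z = q.2.1 := hz 1
      have z2 : x 2 z = q.2.2.1 := hz 2
      have z3 : x 1 z = q.2.1 + c * q.1 := by
        rw [h1, ← z0, ← z1]
        rfl
      rw [z0, z1, z2, z3]
    · have hB' : ∀ c : ZMod 2, x 1 ≠ x 0 + c • h := fun c hc => hB ⟨c, hc⟩
      have hind : ∀ r : Fin 4 → ZMod 2, ∑ i, r i • (![h, x 0, x 1, x 2] : Fin 4 → Dl V) i = 0 → r = 0 := by
        intro r hr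
        rw [Fin.sum_univ_four] at hr
        simp only [Matrix.cons_val_zero, Matrix.cons_val_one, Matrix.cons_val] at hr
        rcases zc (r 3) with h3 | h3 <;> rw [h3] at hr
        · rw [zero_smul, add_zero] at hr
          rcases zc (r 2) with h5 | h5 <;> rw [h5] at hr
          · rw [zero_smul, add_zero] at hr
            rcases zc (r 1) with h4 | h4 <;> rw [h4] at hr
            · rw [zero_smul, add_zero] at hr
              rcases smul_eq_zero.1 hr with h6 | h6
              · funext i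
                fin_cases i <;> assumption
              · exact absurd h6 h0
            · rw [one_smul] at hr
              exact absurd (e2 hr).symm (hx 0 _)
          · rw [one_smul] at hr
            rcases zc (r 1) with h4 | h4 <;> rw [h4] at hr
            · rw [zero_smul, add_zero] at hr
              exact absurd (e2 hr).symm (hx 1 _)
            · rw [one_smul] at hr
              refine absurd ?_ (hB' (r 0))
              rw [← e2 hr, add_comm]
        · rw [one_smul] at hr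
          refine absurd ?_ (hA' (r 1) (r 2) (r 0))
          rw [← e2 hr]
          abel
      refine core N _ (D1 1 0 0 (Or.inl one_ne_zero)) fun q => ?_
      obtain ⟨z, hz⟩ := surj _ hind ![q.1, q.2.1, q.2.2.1, q.2.1]
      refine ⟨z, ?_⟩
      have z0 : h z = q.1 := hz 0
      have z1 : x 0 z = q.2.1 := hz 1
      have z2 : x 1 z = q.2.2.1 := hz 2
      have z3 : x 2 z = q.2.1 := hz 3
      rw [z0, z1, z2, z3]
      simp

end Pool.Agent.H89M6.N28
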