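import Pool.Agent.H89M6.Stm

/-!
# VAL: the values of a configuration
-/

set_option autoImplicit false

namespace Pool.Agent.H89M6.VAL

open Module Pool.Agent.W622.ETG Pool.Agent.H89M5

theorem t : Pool.Agent.H89M6.S_VAL := by
  intro V _ _ _ A v0 v1 v2 y hC ω hω
  classical
  have hdec : ∀ e e' : P3, ∃ l : P3, l ≠ 0 ∧ dt l e = 0 ∧ dt l e' = 0 := by
    unfold dt
    decide
  have key : ∀ (e : P3) (z : V) (e' : P3) (z' : V),
      (fun η : A => η.1 (io v0 v1 v2 e) z) = (fun η : A => η.1 (io v0 v1 v2 e') z') →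
      ((fun l => dt l e * y l z, ω (io v0 v1 v2 e) z) : (P3 → ZMod 2) × ZMod 2) =
        (fun l => dt l e' * y l z', ω (io v0 v1 v2 e') z') := by
    intro e z e' z' h
    refine Prod.ext ?_ (congrFun h ⟨ω, hω⟩)
    funext m
    change dt m e * y m z = dt m e' * y m z'
    by_cases hm : m = 0
    · subst hm
      simp [dt]
    · obtain ⟨l, hl, h1, h2⟩ := hdec e e'
      obtain ⟨η, hη, he⟩ := hC.mem l m hl hm
      have h3 := congrFun h ⟨η, hη⟩
      change η (io v0 v1 v2 e) z = η (io v0 v1 v2 e') z' at h3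
      rw [he e, he e', h1, h2] at h3
      simpa using h3
  let P : P3 × V → A → ZMod 2 := fun p ω => ω.1 (io v0 v1 v2 p.1) p.2
  let Z : P3 × V → (P3 → ZMod 2) × ZMod 2 := fun p =>
    (fun l => dt l p.1 * y l p.2, ω (io v0 v1 v2 p.1) p.2)
  have hv : vals A v0 v1 v2 = Set.range P := by
    ext f
    constructor
    · rintro ⟨e, z, rfl⟩
      exact ⟨(e, z), rfl⟩
    · rintro ⟨⟨e, z⟩, rfl⟩
      exact ⟨e, z, rfl⟩
  have hc : cvals y (fun e => ω (io v0 v1 v2 e)) = Set.range Z := by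
    ext f
    constructor
    · rintro ⟨e, z, rfl⟩
      exact ⟨(e, z), rfl⟩
    · rintro ⟨⟨e, z⟩, rfl⟩
      exact ⟨e, z, rfl⟩
  have hfin : (Set.range P).Finite := Set.finite_range P
  have himg : Set.range Z ⊆ (fun f => if h : ∃ p, P p = f then Z h.choose else 0) '' Set.range P := by
    rintro _ ⟨p, rfl⟩
    refine ⟨P p, ⟨p, rfl⟩, ?_⟩
    have h : ∃ q, P q = P p := ⟨p, rfl⟩
    simp only [dif_pos h]
    exact key _ _ _ _ h.choose_spec
  rw [hv, hc]
  exact (Set.ncard_le_ncard himg (hfin.image _)).trans (Set.ncard_image_le hfin)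

end Pool.Agent.H89M6.VAL
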