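import Pool.Agent.H89M6.Stm

set_option autoImplicit false
set_option linter.unusedSectionVars false
set_option linter.unusedSimpArgs false

/-!
Project M6, part ZERO (helper36).
-/

namespace Pool.Agent.H89M6.ZERO

open Module Pool.Agent.W622.ETG Pool.Agent.H89M5 Pool.Agent.H89FL

/-- the members vanish at the points with `h y = 1` -/
theorem key {V : Type} [AddCommGroup V] [Module (ZMod 2) V] [Finite V] {e : V} {A : Fam V}
    {p : Fin 3 → V} {a : V} {h : Dl V} {x : Fin 3 → Dl V} {F G : Fin 3 → Frm V}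
    (hN : 28 ≤ (vals A (p 0) (p 1) a).ncard) (hA : EFam e A) (N : Nd A p a h x F G)
    (h34 : ∀ v0 v1 v2 v3 : V, (vals4 A v0 v1 v2 v3).ncard ≤ 34) {ω : Frm V} (hω : ω ∈ A)
    (ha : ω a = 0) (hp : ∀ j, ω (p j) = 0) (y : V) (hy : h y = 1) : ω y = 0 := by
  have hfin : Finite A := fin_fam A
  by_contra hne
  obtain ⟨z0, hz0⟩ : ∃ z0, ω y z0 = 1 := by
    by_contra hcon
    push Not at hcon
    apply hne
    refine LinearMap.ext fun z => ?_
    rcases z01 (ω y z) with h1 | h1
    · exact h1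
    · exact absurd h1 (hcon z)
  have hio : ∀ q : P3, ω (io (p 0) (p 1) a q) = 0 := by
    intro q
    simp only [io, map_add, map_smul, ha, hp, smul_zero, add_zero]
  obtain ⟨g, hg⟩ : ∃ g : P3 → (A → ZMod 2), ∀ q η, g q η = η.1 y (z0 + io (p 0) (p 1) a q) :=
    ⟨fun q η => η.1 y (z0 + io (p 0) (p 1) a q), fun _ _ => rfl⟩
  have hexp : ∀ η ∈ A, ∀ q : P3, η y (z0 + io (p 0) (p 1) a q) =
      η y z0 + (q.1 * η (p 0) y + q.2.1 * η (p 1) y + q.2.2 * η a y) := by
    intro η hη q
    have h1 : η y (io (p 0) (p 1) a q) = η (io (p 0) (p 1) a q) y := (hA _ hη).symm _ _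
    rw [map_add, h1]
    simp only [io, map_add, map_smul, LinearMap.add_apply, LinearMap.smul_apply, smul_eq_mul]
  have hinj : Function.Injective g := by
    intro q q' hq
    have e1 := congrFun hq ⟨F 0, N.memF 0⟩
    have e2 := congrFun hq ⟨G 0, N.memG 0⟩
    have e3 := congrFun hq ⟨G 1, N.memG 1⟩
    rw [hg, hg, hexp _ (N.memF 0), hexp _ (N.memF 0), N.Fa, N.Fp, N.Fp, if_pos rfl,
      if_neg (by decide : (1 : Fin 3) ≠ 0), hy, LinearMap.zero_apply, add_right_inj] at e1
    rw [hg, hg, hexp _ (N.memG 0), hexp _ (N.memG 0), N.Ga, N.Gp, N.Gp, if_pos rfl,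
      if_neg (by decide : (1 : Fin 3) ≠ 0), hy, LinearMap.zero_apply, add_right_inj] at e2
    rw [hg, hg, hexp _ (N.memG 1), hexp _ (N.memG 1), N.Ga, N.Gp, N.Gp, if_pos rfl,
      if_neg (by decide : (0 : Fin 3) ≠ 1), hy, LinearMap.zero_apply, add_right_inj] at e3
    have e2' : q.2.1 = q'.2.1 := by simpa using e2
    have e3' : q.1 = q'.1 := by simpa using e3
    rw [e2'] at e1
    have e1' : q.2.2 = q'.2.2 := by simpa using e1
    exact Prod.ext e3' (Prod.ext e2' e1')
  have hsub : vals A (p 0) (p 1) a ∪ Set.range g ⊆ vals4 A (p 0) (p 1) a y := by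
    rintro f (⟨q, z, rfl⟩ | ⟨q, rfl⟩)
    · refine ⟨q, 0, z, ?_⟩
      funext η
      rw [zero_smul, add_zero]
    · refine ⟨0, 1, z0 + io (p 0) (p 1) a q, ?_⟩
      funext η
      rw [hg]
      have : io (p 0) (p 1) a 0 + (1 : ZMod 2) • y = y := by
        simp [io]
      rw [this]
  have hdis : Disjoint (vals A (p 0) (p 1) a) (Set.range g) := by
    rw [Set.disjoint_left]
    rintro f ⟨q, z, rfl⟩ ⟨q', hq'⟩
    have h1 := congrFun hq' ⟨ω, hω⟩
    rw [hg, hexp _ hω, hz0, ha, hp, hp] at h1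
    simp only [hio, LinearMap.zero_apply, mul_zero, add_zero] at h1
    exact absurd h1 (by decide)
  have hc : (Set.range g).ncard = 8 := by
    rw [← Set.image_univ, Set.ncard_image_of_injective _ hinj, Set.ncard_univ]
    simp [P3, Nat.card_eq_fintype_card]
  have h1 := Set.ncard_le_ncard hsub (Set.toFinite _)
  rw [Set.ncard_union_eq hdis (Set.toFinite _) (Set.toFinite _), hc] at h1
  have h2 := h34 (p 0) (p 1) a y
  omega

/-- **ZERO.** -/
theorem t : S_ZERO := by
  intro hN V _ _ _ e A p a h x F G hA N h0 h34 ω hω ha hp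
  have k : ∀ y : V, h y = 1 → ω y = 0 := fun y hy =>
    key (hN V A p a h x F G N h0) hA N h34 hω ha hp y hy
  obtain ⟨y0, hy0⟩ : ∃ y, h y = 1 := by
    by_contra hcon
    push Not at hcon
    apply h0
    refine LinearMap.ext fun y => ?_
    rcases z01 (h y) with h1 | h1
    · exact h1
    · exact absurd h1 (hcon y)
  refine LinearMap.ext fun y => ?_
  rcases z01 (h y) with h1 | h1
  · have h2 := k (y + y0) (by rw [map_add, h1, hy0, zero_add])
    rw [map_add, k y0 hy0, add_zero] at h2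
    exact h2
  · exact k y h1

end Pool.Agent.H89M6.ZERO
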