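import Pool.Agent.H89M6.EngProof
import Pool.Agent.H89M6.VAL
import Pool.Agent.H89M6.DC
import Pool.Agent.H89M6.DA
import Pool.Agent.H89M6.DB
import Pool.Agent.H89M6.DIM
import Pool.Agent.H89M6.N28
import Pool.Agent.H89M6.ZERO
import Pool.Agent.H89FL.Chain

set_option autoImplicit false
set_option linter.unusedSectionVars false

/-!
Linked families with at most 34 values.
-/

namespace Pool.Agent.H89M6

open Module Pool.Agent.W622.ETG Pool.Agent.H89FL Pool.Agent.H89M5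
open Pool.Agent.TH188.ETP (In PlaneAt linked_ann mem_list)

section
variable {V : Type} [AddCommGroup V] [Module (ZMod 2) V]
variable {e : V} {A : Fam V}

/-- at most 34 values with slots in any four-generated subgroup -/
def H34 (A : Fam V) : Prop := ∀ v0 v1 v2 v3 : V, (vals4 A v0 v1 v2 v3).ncard ≤ 34

theorem fin_fun [Finite V] (A : Fam V) : Finite (A → ZMod 2) := by
  have := fin_fam A
  infer_instance

theorem vals_le [Finite V] (v0 v1 v2 : V) :
    (vals A v0 v1 v2).ncard ≤ (vals4 A v0 v1 v2 0).ncard := by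
  have := fin_fun A
  refine Set.ncard_le_ncard ?_ (Set.toFinite _)
  rintro _ ⟨u, z, rfl⟩
  exact ⟨u, 0, z, by simp⟩

/-- the dimension at a configuration -/
theorem dim5 (hCA : S_CA) (hCB : S_CB) [Finite V] {v0 v1 v2 : V} {y : P3 → Dl V}
    (hy : Cf A v0 v1 v2 y) (h34 : (vals A v0 v1 v2).ncard ≤ 34) :
    finrank (ZMod 2) (A.map (rE v0 v1 v2)) ≤ 5 := by
  obtain ⟨c, c0, c1, c2⟩ := DC.t ENG.t VAL.t V A v0 v1 v2 y hy h34
  refine DIM.t V A v0 v1 v2 y hy c c0 c1 c2 ?_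
  rcases CLS.t V A v0 v1 v2 y hy c c0 c1 c2 with ⟨e0, h1, h2⟩ | ⟨l0, h1, h2⟩
  · have : (fun l => dt l e0) = c := funext fun l => (h2 l).symm
    exact DA.t ENG.t VAL.t hCA V A v0 v1 v2 y hy h34 e0 h1 (by rw [this]; exact c2)
  · exact DB.t ENG.t VAL.t hCB V A v0 v1 v2 y hy h34 c c0 c2 l0 h1 h2

/-- no bad planes -/
theorem plane6 (hCA : S_CA) (hCB : S_CB) [Finite V] (hA : EFam e A) (hL : Linked A)
    (h34 : H34 A) (hno : ∀ u : V, ∃ ω ∈ A, ω ≠ 0 ∧ ω u = 0) (v0 v1 v2 : V) :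
    PlaneAt A v0 v1 v2 := by
  intro h i0 i1 i2 i3
  by_contra hcon
  obtain ⟨y, hy⟩ := CF.t V A hL v0 v1 v2 h i0 i1 i2 i3 hcon
  have hr : finrank (ZMod 2) (A.map (rE v0 v1 v2)) ≤ 5 :=
    dim5 hCA hCB hy ((vals_le v0 v1 v2).trans (h34 _ _ _ _))
  obtain ⟨c, c0, c1, c2⟩ := REL.t V A v0 v1 v2 y hy hr
  obtain ⟨e0, he0, hre⟩ : ∃ e0 : P3, e0 ≠ 0 ∧ Rl y (fun l => dt l e0) := by
    rcases CLS.t V A v0 v1 v2 y hy c c0 c1 c2 with ⟨e0, h1, h2⟩ | ⟨l0, h1, h2⟩
    · refine ⟨e0, h1, ?_⟩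
      have : (fun l => dt l e0) = c := funext fun l => (h2 l).symm
      rw [this]; exact c2
    · exact BETA.t SP.t CLS.t V A v0 v1 v2 y hL hy hr c c0 c2 l0 h1 h2
  obtain ⟨p, a, h', x, F, G, N, hG, -, h0⟩ := NF.t SP.t V A v0 v1 v2 y hy hr e0 he0
    (AL.t V y e0 hre)
  refine Ns.no4 (e := e) ⟨N, hA, hL, h0, ?_, hno⟩
  intro ω hω
  obtain ⟨c, d, h1, h2⟩ := hG ω hω
  refine ⟨c, d, aez.1 (ZERO.t N28.t V e A p a h' x F G hA N h0 h34 _
    (A.add_mem hω (A.sum_mem fun i _ =>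
      A.add_mem (A.smul_mem _ (N.memF i)) (A.smul_mem _ (N.memG i)))) ?_ fun j => ?_)⟩
  · rw [LinearMap.add_apply, h1, vadd]
  · rw [LinearMap.add_apply, h2 j, vadd]

theorem H34.mono [Finite V] {B : Fam V} (h : H34 A) (hB : B ≤ A) : H34 B := by
  intro v0 v1 v2 v3
  have := fin_fun A
  have := fin_fun B
  refine le_trans ?_ (h v0 v1 v2 v3)
  have h1 : vals4 B v0 v1 v2 v3 ⊆
      (fun (f : A → ZMod 2) (ω : B) => f ⟨ω.1, hB ω.2⟩) '' vals4 A v0 v1 v2 v3 := by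
    rintro _ ⟨u, c, z, rfl⟩
    exact ⟨_, ⟨u, c, z, rfl⟩, rfl⟩
  exact (Set.ncard_le_ncard h1 (Set.toFinite _)).trans (Set.ncard_image_le (Set.toFinite _))

theorem linked_ann6 (hCA : S_CA) (hCB : S_CB) [Finite V] (hA : EFam e A) (hL : Linked A)
    (h34 : H34 A) (u : V) : Linked (res A (ann u)) := by
  by_cases hno : ∀ u : V, ∃ ω ∈ A, ω ≠ 0 ∧ ω u = 0
  · exact linked_ann hA hL (plane6 hCA hCB hA hL h34 hno) u
  · push Not at hno
    obtain ⟨w, hw⟩ := hno
    exact hered_slot hA hL (u := w) (fun ω hω h => by_contra fun h1 => hw ω hω h1 h) _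

theorem linked_list6 (hCA : S_CA) (hCB : S_CB) [Finite V] (l : List V) : ∀ A : Fam V, EFam e A →
    Linked A → H34 A → Linked (l.foldl (fun B u => res B (ann u)) A) := by
  induction l with
  | nil => intro A _ h _; exact h
  | cons u l ih =>
    intro A hA hL h34
    exact ih _ (hA.res _) (linked_ann6 hCA hCB hA hL h34 u) (h34.mono (res_le A _))

/-- linked families with at most 34 values are hereditarily linked -/
theorem hered6 (hCA : S_CA) (hCB : S_CB) [Finite V] (hA : EFam e A) (hL : Linked A)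
    (h34 : H34 A) : Hered A := by
  classical
  intro X
  have : Fintype V := Fintype.ofFinite V
  let l : List V := (Finset.univ.filter (fun b : V => ∀ g ∈ X, g b = 0)).toList
  have hl : ∀ b, b ∈ l ↔ ∀ g ∈ X, g b = 0 := by
    intro b
    simp [l]
  have h1 : l.foldl (fun B u => W622.ETC.res B (ann u)) A = W622.ETC.res A X := by
    ext ω
    rw [mem_list l A hA ω]
    constructor
    · rintro ⟨h1, h2⟩
      refine ⟨h1, fun y => mem_of_coann fun b hb => ?_⟩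
      rw [(hA ω h1).symm, h2 b ((hl b).2 hb)]
      rfl
    · rintro ⟨h1, h2⟩
      refine ⟨h1, fun u hu => ?_⟩
      ext y
      rw [(hA ω h1).symm]
      exact (hl u).1 hu _ (h2 y)
  rw [← h1]
  exact linked_list6 hCA hCB l A hA hL h34

end

end Pool.Agent.H89M6
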