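import Pool.Agent.H89M6.Eng

set_option autoImplicit false

/-!
Splitting of the search into parts.
-/

namespace Pool.Agent.H89M6

/-- the nodes of the search `k` levels further -/
def fr (msk : ℕ → ℕ) : ℕ → ℕ → List ℕ → ℕ → List (List ℕ × ℕ)
  | 0, _, S, U => [(S, U)]
  | _ + 1, 0, _, _ => []
  | k + 1, n + 1, S, U => fr msk k n S U ++ (List.range (2 ^ (6 - n))).flatMap fun j =>
      bif (S.all fun s => Nat.ble (Nat.add (2 ^ (6 - n)) j) (Nat.xor (Nat.add (2 ^ (6 - n)) j) s))
      then fr msk k n (S ++ S.map (fun s => Nat.xor (Nat.add (2 ^ (6 - n)) j) s))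
          (um msk (S.map (fun s => Nat.xor (Nat.add (2 ^ (6 - n)) j) s)) U)
      else []

theorem chk_of_fr (msk : ℕ → ℕ) (leaf : List ℕ → Bool) : ∀ (k n : ℕ), k ≤ n → ∀ (S : List ℕ)
    (U : ℕ), (∀ p ∈ fr msk k n S U, chk msk leaf (n - k) p.1 p.2 = true) →
    chk msk leaf n S U = true := by
  intro k
  induction k with
  | zero =>
    intro n _ S U h
    exact h (S, U) (by simp [fr])
  | succ k ih =>
    intro n hn S U h
    cases n with
    | zero => omega
    | succ n =>
      have e : n + 1 - (k + 1) = n - k := by omega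
      rw [e] at h
      rw [fr] at h
      rw [chk, Bool.or_eq_true, Bool.and_eq_true]
      refine Or.inr ⟨ih n (by omega) S U fun p hp => h p (List.mem_append_left _ hp), ?_⟩
      rw [List.all_eq_true]
      intro j hj
      rw [Bool.or_eq_true]
      by_cases hf : (S.all fun s => Nat.ble (Nat.add (2 ^ (6 - n)) j)
          (Nat.xor (Nat.add (2 ^ (6 - n)) j) s)) = true
      · refine Or.inr (ih n (by omega) _ _ fun p hp => h p (List.mem_append_right _ ?_))
        rw [List.mem_flatMap]
        refine ⟨j, hj, ?_⟩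
        rw [hf]
        exact hp
      · left
        rw [Bool.not_eq_true] at hf
        rw [hf]
        rfl

theorem all_of_parts {α : Type} (q : α → Bool) (m k : ℕ) (L : List α) (hL : L.length ≤ m * k)
    (hm : 0 < m) (h : ∀ i < k, ((L.drop (m * i)).take m).all q = true) : ∀ p ∈ L, q p = true := by
  intro p hp
  obtain ⟨n, hn, rfl⟩ := List.getElem_of_mem hp
  have h1 := h (n / m) (by
    rw [Nat.div_lt_iff_lt_mul hm]
    calc n < L.length := hn
      _ ≤ m * k := hL
      _ = k * m := Nat.mul_comm _ _)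
  rw [List.all_eq_true] at h1
  refine h1 _ ?_
  have h2 := Nat.div_add_mod n m
  have h3 := Nat.mod_lt n hm
  rw [List.mem_iff_getElem]
  refine ⟨n % m, ?_, ?_⟩
  · rw [List.length_take, List.length_drop]
    omega
  · rw [List.getElem_take, List.getElem_drop]
    congr 1

/-- the search in parts: `k` parts of `m` nodes each, four levels down -/
theorem chk_parts (msk : ℕ → ℕ) (leaf : List ℕ → Bool) (m k : ℕ)
    (hL : (fr msk 4 7 [0] (msk 0)).length ≤ m * k) (hm : 0 < m)
    (h : ∀ i < k, (((fr msk 4 7 [0] (msk 0)).drop (m * i)).take m).all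
      (fun p => chk msk leaf 3 p.1 p.2) = true) : chk msk leaf 7 [0] (msk 0) = true :=
  chk_of_fr msk leaf 4 7 (by norm_num) _ _
    (all_of_parts (fun p => chk msk leaf 3 p.1 p.2) m k _ hL hm h)

theorem all_of_parts' {α : Type} (q : α → Bool) (b : ℕ → ℕ) (k : ℕ) (L : List α) (h0 : b 0 = 0)
    (hL : L.length ≤ b k)
    (h : ∀ i < k, ((L.drop (b i)).take (b (i + 1) - b i)).all q = true) : ∀ p ∈ L, q p = true := by
  intro p hp
  obtain ⟨n, hn, rfl⟩ := List.getElem_of_mem hp
  have key : ∀ k, n < b k → ∃ i < k, b i ≤ n ∧ n < b (i + 1) := by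
    intro k
    induction k with
    | zero => intro h; omega
    | succ k ih =>
      intro h
      by_cases h1 : n < b k
      · obtain ⟨i, h2, h3⟩ := ih h1
        exact ⟨i, by omega, h3⟩
      · exact ⟨k, by omega, by omega, h⟩
  obtain ⟨i, hi, h1, h2⟩ := key k (by omega)
  have h3 := h i hi
  rw [List.all_eq_true] at h3
  refine h3 _ ?_
  rw [List.mem_iff_getElem]
  refine ⟨n - b i, ?_, ?_⟩
  · rw [List.length_take, List.length_drop]
    omega
  · rw [List.getElem_take, List.getElem_drop]
    congr 1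
    omega

/-- one part of the search: the nodes `a, …, c - 1` at depth five -/
def part5 (msk : ℕ → ℕ) (leaf : List ℕ → Bool) (a c : ℕ) : Bool :=
  (((fr msk 5 7 [0] (msk 0)).drop a).take (c - a)).all (fun p => chk msk leaf 2 p.1 p.2)

/-- the search in parts with ends `b 1, …, b k`, five levels down -/
theorem chk_parts5 (msk : ℕ → ℕ) (leaf : List ℕ → Bool) (b : ℕ → ℕ) (k : ℕ) (h0 : b 0 = 0)
    (hL : (fr msk 5 7 [0] (msk 0)).length ≤ b k)
    (h : ∀ i < k, part5 msk leaf (b i) (b (i + 1)) = true) :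
    chk msk leaf 7 [0] (msk 0) = true :=
  chk_of_fr msk leaf 5 7 (by norm_num) [0] (msk 0)
    (all_of_parts' (fun p : List ℕ × ℕ => chk msk leaf 2 p.1 p.2) b k _ h0 hL fun i hi => h i hi)

end Pool.Agent.H89M6
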