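import Pool.Agent.H89M5.Glob
import Pool.Agent.H89M6.Eng

set_option autoImplicit false
set_option linter.unusedSectionVars false

/-!
Project M6 (HARD problem MP_2429c0_al): fields with at most 34 quaternion algebras are of elementary
type.  Same language as `Pool/Agent/H89M5/Stm.lean` (read the definitions `P3, dt, Iv, io, rE, Cf, Rl,
Nd, Gen` there; `V` is a space over `F₂`, `Dl V` its dual, `Fam V` spaces of bilinear forms).
The theorems `Pool.Agent.H89M5.SP.t`, `CF.t`, `REL.t`, `CLS.t`, `AL.t`, `BETA.t`, `NF.t` are proved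
(files `Pool/Agent/H89M5/*.lean`) and may be used, and `Nd.x_ne`, `Nd.i2` (`H89M5/Loc.lean`).
-/

namespace Pool.Agent.H89M6

open Module Pool.Agent.W622.ETG Pool.Agent.H89M5

section
variable {V : Type} [AddCommGroup V] [Module (ZMod 2) V]

/-- the values (quaternion algebras) with slots in `⟨v0,v1,v2⟩` -/
def vals (A : Fam V) (v0 v1 v2 : V) : Set (A → ZMod 2) :=
  {f | ∃ (e : P3) (z : V), f = fun ω => ω.1 (io v0 v1 v2 e) z}

/-- the values with slots in `⟨v0,v1,v2,v3⟩` -/
def vals4 (A : Fam V) (v0 v1 v2 v3 : V) : Set (A → ZMod 2) :=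
  {f | ∃ (e : P3) (c : ZMod 2) (z : V), f = fun ω => ω.1 (io v0 v1 v2 e + c • v3) z}

/-- the values of a configuration, with those of a further function `w` -/
def cvals (y : P3 → Dl V) (w : P3 → Dl V) : Set ((P3 → ZMod 2) × ZMod 2) :=
  {p | ∃ (e : P3) (z : V), p = (fun l => dt l e * y l z, w e z)}

end

/-- **ENG** (helper89 proves it).  The engine.  `C` is a subgroup of `F_2^7`, whose elements are
written as numbers `< 128` in binary, addition is `xor`; every `c` with `C c` produces values: the bits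
of `msk c` (numbers `v`); `Φ` maps the actual values (a finite set `X` with at most 34 elements) to
numbers.  If the search `chk` succeeds, then `leaf` is true for (a list of) all the elements of `C`. -/
def S_ENG : Prop := ∀ (msk : ℕ → ℕ) (leaf : List ℕ → Bool), chk msk leaf 7 [0] (msk 0) = true →
  ∀ (C : ℕ → Prop), C 0 → (∀ a b, C a → C b → C (a ^^^ b)) → (∀ a, C a → a < 128) →
  ∀ (α : Type) (X : Set α) (Φ : α → ℕ), X.Finite → X.ncard ≤ 34 →
  (∀ c, C c → ∀ v, (msk c).testBit v = true → ∃ x ∈ X, Φ x = v) →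
  ∃ S : List ℕ, (∀ c, c ∈ S ↔ C c) ∧ leaf S = true

/-- **VAL**.  Proof: `Z e z := (fun l => dt l e * y l z, ω (io e) z)`.  The value
`fun η : A => η (io e) z` determines `Z e z`: if `η (io e) z = η (io e') z'` for all `η ∈ A`, take
`l ≠ 0` with `dt l e = dt l e' = 0` (`decide`); for `m ≠ 0` the member of `hy.mem l m` gives
`dt m e * y m z = dt m e' * y m z'` (for `m = 0` both are `0`), and `ω` itself the second component.
So `cvals` is the image of `vals A v0 v1 v2` (a finite set) under a map; `Set.ncard_image_le`. -/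
def S_VAL : Prop := ∀ (V : Type) [AddCommGroup V] [Module (ZMod 2) V] [Finite V] (A : Fam V)
  (v0 v1 v2 : V) (y : P3 → Dl V), Cf A v0 v1 v2 y → ∀ ω ∈ A,
  (cvals y (fun e => ω (io v0 v1 v2 e))).ncard ≤ (vals A v0 v1 v2).ncard

/-- **DC**.  At most 34 values imply a relation (see `Rl`).
Proof: engine with `C c := ∃ z, c = ∑_{l ≠ 0} 2^(n(l)-1) (y l z)`, `n(l) = l.1 + 2 l.2.1 + 4 l.2.2`,
`X = cvals y 0` (`VAL` with `ω = 0`), values of `c`: `c &&& I_g`, `g = 1..7`, with the masks `I_g = 85,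
102, 51, 120, 45, 30, 75` (`I_g` = the `l` with `dt l g = 1`); the search with
`msk c = ∑ 2^(c &&& I_g)` (an `or`) and `leaf S = ` (there is `r` in `1..127` such that for `g = 1..7` and
all `c ∈ S` the number `c &&& r &&& I_g` has even parity) succeeds (checked by computer; `decide +kernel`
takes about two minutes in this form: see the end of `Pool/Agent/H89M6/Eng.lean`).  `leaf` gives the
relation with coefficients `r`. -/
def S_DC : Prop := S_ENG → S_VAL → ∀ (V : Type) [AddCommGroup V] [Module (ZMod 2) V] [Finite V]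
  (A : Fam V) (v0 v1 v2 : V) (y : P3 → Dl V), Cf A v0 v1 v2 y → (vals A v0 v1 v2).ncard ≤ 34 →
  ∃ c : P3 → ZMod 2, c 0 = 0 ∧ c ≠ 0 ∧ Rl y c

/-- **CA**.  Seven functionals `h, x0, x1, x2, wa, w0, w1`; the values at `(ε, π, ρ)` and `z` are
`ε h + ρ x0, ε h + π x1, ε h + (π + ρ) x2, ρ h, π h, ε wa + π w0 + ρ w1` at `z`.  If there are at most
34 of them then one of the exceptional cases holds.
Proof: engine with `C c := ∃ z, c = h z + 2 x0 z + 4 x1 z + 8 x2 z + 16 wa z + 32 w0 z + 64 w1 z`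
(checked by computer: the search has 25478 nodes and succeeds, with `leaf` = the disjunction in the
conclusion, where `φ = 0` is tested on the elements of `S`; put the cheap tests first). -/
def S_CA : Prop := S_ENG → ∀ (V : Type) [AddCommGroup V] [Module (ZMod 2) V] [Finite V]
  (h x0 x1 x2 wa w0 w1 : Dl V),
  {p : ZMod 2 × ZMod 2 × ZMod 2 × ZMod 2 × ZMod 2 × ZMod 2 | ∃ (ε π ρ : ZMod 2) (z : V),
    p = (ε * h z + ρ * x0 z, ε * h z + π * x1 z, ε * h z + (π + ρ) * x2 z, ρ * h z, π * h z,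
      ε * wa z + π * w0 z + ρ * w1 z)}.ncard ≤ 34 →
  h = 0 ∨ (∃ s : ZMod 2, x0 + s • h = 0 ∨ x1 + s • h = 0 ∨ x2 + s • h = 0) ∨
  (∃ s t : ZMod 2, x0 + x1 + s • h = 0 ∧ x0 + x2 + t • h = 0) ∨
  ∃ α β δ c0 c1 c2 : ZMod 2, wa = α • h ∧ w0 = β • h + c1 • x1 + c2 • x2 ∧
    w1 = δ • h + c0 • x0 + c2 • x2

/-- **DA**.  In the situation of a relation of the first type (`y` is constant `= h` on
`{l | dt l e0 = 1}`, by `AL.t`) every member is on `⟨v0,v1,v2⟩` a combination of the `t_l`.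
Proof: choose (`decide`) a basis `e1, e2, e0` with dual basis `l1, l2, l0`, put `h = y l0`,
`x0 = y l2`, `x1 = y l1`, `x2 = y (l1 + l2)`, `wa = ω (io e0)`, `w0 = ω (io e1)`, `w1 = ω (io e2)`, so
that `e = ε e0 + π e1 + ρ e2` has `ω (io e) = ε wa + π w0 + ρ w1`.  The set in `CA` is the image of
`cvals y (ω ∘ io)` under a map (its components are sums of the `dt l e * y l z`:  `ε h + ρ x0` is the
sum for `l0` and `l2`, ..., `ρ h` the sum for `l0` and `l0 + l2`, `π h` the sum for `l0` and `l0 + l1`),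
so it has at most 34 elements by `VAL`.  The first three cases of `CA` contradict `Cf.bad`: `y l ≠ 0`;
`x_i = h` makes `t_{μ i} + t_{l0} + t_{l0+μ i} = 0` (three terms; a sum of two `t_l` is a member), and the
congruences give `t_{l1} + t_{l2} + t_{l1+l2} + (multiple of t_{l0} + t_{l0+l1}) + ... = 0`, an odd
number of terms (as in `Nd.x_ne`, `Nd.i2`; alternatively use `NF.t`-like members).  The last case gives
`d`: `d l0 = α + ...`: `wa = α h`, etc.: the form `E* ⊗ h + ⟨μ_i ⊗ x_i⟩` is spanned by the `t_l`. -/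
def S_DA : Prop := S_ENG → S_VAL → S_CA → ∀ (V : Type) [AddCommGroup V] [Module (ZMod 2) V]
  [Finite V] (A : Fam V) (v0 v1 v2 : V) (y : P3 → Dl V), Cf A v0 v1 v2 y →
  (vals A v0 v1 v2).ncard ≤ 34 → ∀ e0 : P3, e0 ≠ 0 → Rl y (fun l => dt l e0) → ∀ ω ∈ A,
  ∃ d : P3 → ZMod 2, ∀ e, ω (io v0 v1 v2 e) = ∑ l, (d l * dt l e) • y l

/-- **CB**.  Seven functionals `h, x1, x2, x3, w1, w2, w3`.  For `a = (a1, a2, a3)` the values at `a` and
`z` are `a3 h, a2 x1, a1 x2, (a1+a2) x3, (a2+a3) (x2+x3), (a1+a3) (x1+x3), (a1+a2+a3) (x1+x2)` and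
`a1 w1 + a2 w2 + a3 w3` at `z`.  If there are at most 34 of them then one of the exceptional cases
holds: one of the seven functionals `Y n` is `0`, or there is a relation between the
`t_n = n ⊗ Y n` with an odd number of terms, or `(w1,w2,w3)` is a combination of the `t_n`.
Here `n = 1..7` is `(n1, n2, n3)` in binary (`n1` lowest), `Y 4 = h, Y 2 = x1, Y 1 = x2, Y 3 = x3,
Y 6 = x2+x3, Y 5 = x1+x3, Y 7 = x1+x2`.
Proof: engine with `C c := ∃ z, c = h z + 2 x1 z + 4 x2 z + 8 x3 z + 16 w1 z + 32 w2 z + 64 w3 z`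
(checked by computer: 25083 nodes; `leaf` = the disjunction, coded as `1..127`; the eight
values are coded as the bits of a number `< 256`). -/
def S_CB : Prop := S_ENG → ∀ (V : Type) [AddCommGroup V] [Module (ZMod 2) V] [Finite V]
  (Y w : P3 → Dl V), Y (0, 1, 1) = Y (1, 0, 0) + Y (1, 1, 0) → Y (1, 0, 1) = Y (0, 1, 0) + Y (1, 1, 0) →
  Y (1, 1, 1) = Y (0, 1, 0) + Y (1, 0, 0) →
  (∀ a b, w (a + b) = w a + w b) → (cvals Y w).ncard ≤ 34 →
  (∃ n ≠ 0, Y n = 0) ∨ (∃ r : P3 → ZMod 2, r 0 = 0 ∧ ∑ n, r n = 1 ∧ Rl Y r) ∨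
  ∃ d : P3 → ZMod 2, ∀ a, w a = ∑ n, (d n * dt n a) • Y n

/-- **DB**.  The same for a relation of the second type.
Proof: choose (`decide`) a basis `e1, e2, e3` with dual basis `l1, l2, l0` as in `S_BETA`; transport
along the coordinates to `CB` (`Y (a1,a2,a3) = y (a1 l1 + a2 l2 + a3 l0)`, `w (b1,b2,b3) = ω (io (b1 e1 +
b2 e2 + b3 e3))`; the relation at `e1, e2, e3` gives the three equations as in `S_BETA`), `VAL` for the
count; `Y n = 0` and odd relations contradict `Cf.bad` (as in `S_CLS`: for every `c` with `c 0 = 0`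
there is `ω ∈ A` with `ω (io e) = ∑ (c l * dt l e) • y l + (∑ c l) • (dt m e • y m)`). -/
def S_DB : Prop := S_ENG → S_VAL → S_CB → ∀ (V : Type) [AddCommGroup V] [Module (ZMod 2) V]
  [Finite V] (A : Fam V) (v0 v1 v2 : V) (y : P3 → Dl V), Cf A v0 v1 v2 y →
  (vals A v0 v1 v2).ncard ≤ 34 → ∀ c : P3 → ZMod 2, c 0 = 0 → Rl y c →
  ∀ l0 : P3, l0 ≠ 0 → (∀ l, l ≠ 0 → c l = if l = l0 then 0 else 1) → ∀ ω ∈ A,
  ∃ d : P3 → ZMod 2, ∀ e, ω (io v0 v1 v2 e) = ∑ l, (d l * dt l e) • y l

/-- **DIM**.  Let `c` be a nontrivial relation and let all members be combinations of the `t_l` on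
`⟨v0,v1,v2⟩`.  Then the restrictions have dimension at most five.
Proof: `T l = (dt l e1 • y l, dt l e2 • y l, dt l e3 • y l)` with the unit vectors `e1 = (1,0,0)`,
... (as in `REL`).  `A.map (rE v0 v1 v2) ≤ U = span {T l | l ≠ 0}` and `finrank U ≤ 6` by the relation
(seven dependent generators).  If the dimension is at least six they are equal, so `T (1,0,0)` is the
restriction of a member, against `Cf.bad`. -/
def S_DIM : Prop := ∀ (V : Type) [AddCommGroup V] [Module (ZMod 2) V] [Finite V] (A : Fam V)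
  (v0 v1 v2 : V) (y : P3 → Dl V), Cf A v0 v1 v2 y → ∀ c : P3 → ZMod 2, c 0 = 0 → c ≠ 0 → Rl y c →
  (∀ ω ∈ A, ∃ d : P3 → ZMod 2, ∀ e, ω (io v0 v1 v2 e) = ∑ l, (d l * dt l e) • y l) →
  finrank (ZMod 2) (A.map (rE v0 v1 v2)) ≤ 5

/-- **N28**.  A normal form has at least 28 values.  (Recall `Nd.x_ne`: `x i + c • h ≠ 0`, and
`Nd.i2`: the three `x i` are not all congruent modulo `h`.)
Proof: for the point `g = ε a + p` of `⟨p 0, p 1, a⟩` (`p ∈ {0, p 0, p 1, p 2}`) the values of
`G 0, G 1, G 2, F 0, F 1, F 2` at `(g, z)` are `G_i = [p ∉ {0, p i}] h z`,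
`F_i = ε h z + [p ∉ {0, p i}] x_i z`.  They determine `h z * ε`, `h z * p` and
`m_i = [p ∉ {0, p i}] x_i z` (one `m_i` is `0`).  With `h z = 1`: `g` is determined by the value,
for `g = a` there is one value, for `g = ε a + p i` there are 4 values `(m_j, m_k) = (x_j z, x_k z)` if
`x_j, x_k` are not congruent modulo `h`, and 2 if they are (at least one pair is not congruent to the
third; so at least two of the three pairs have 4): together at least `1 + 2 (4 + 4 + 2) = 21`.  With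
`h z = 0` there are at least 7: `m` can be `000, 100, 010, 001, 110, 101, 011` (choose
`z` with `h z = 0` and given `x_j z, x_k z`; for a congruent pair use that pair only with equal values, and
the other pairs for the `m` of weight one).  Alternatively: case distinction by the relations
between `h, x 0, x 1, x 2` (independent; or one of `x 2 ∈ span`, ...), choice of `z`'s dual to a basis
and `decide`. -/
def S_N28 : Prop := ∀ (V : Type) [AddCommGroup V] [Module (ZMod 2) V] [Finite V] (A : Fam V)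
  (p : Fin 3 → V) (a : V) (h : Dl V) (x : Fin 3 → Dl V) (F G : Fin 3 → Frm V),
  Nd A p a h x F G → h ≠ 0 → 28 ≤ (vals A (p 0) (p 1) a).ncard

/-- **ZERO**.  Proof: let `ω` vanish on `⟨p 0, p 1, a⟩` and `h y = 1`; suppose `ω y ≠ 0`, so
`ω y z0 = 1` for some `z0`.  The values with slot in `⟨p 0, p 1, a⟩` are at least 28 (`N28`) and are `0`
at `ω`.  The eight values at `(y, z0 + s)`, `s ∈ ⟨p 0, p 1, a⟩`, are `1` at `ω` (`ω y s = ω s y = 0`) and
different: `F 0 y a = F 0 a y = h y = 1`, `G 0 y a = G 1 y a = 0`, `G 0 y (p 0) = 0`, `G 0 y (p 1) = 1`,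
`G 1 y (p 0) = 1`, `G 1 y (p 1) = 0` (symmetry `(hA _ h).symm`).  So there are at least 36 values in
`vals4 A (p 0) (p 1) a y`, against `h34`.  Hence `ω y = 0` whenever `h y = 1`, and `ω = 0` as in
`Nd.loc'` (`H89M5/Glob.lean`). -/
def S_ZERO : Prop := S_N28 → ∀ (V : Type) [AddCommGroup V] [Module (ZMod 2) V] [Finite V] (e : V)
  (A : Fam V) (p : Fin 3 → V) (a : V) (h : Dl V) (x : Fin 3 → Dl V) (F G : Fin 3 → Frm V),
  EFam e A → Nd A p a h x F G → h ≠ 0 →
  (∀ v0 v1 v2 v3 : V, (vals4 A v0 v1 v2 v3).ncard ≤ 34) → ∀ ω ∈ A, ω a = 0 →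
  (∀ j, ω (p j) = 0) → ω = 0

end Pool.Agent.H89M6
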